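import Mathlib
import Pool.Agent.Lib.MP_249d2a_co.HB.Defs

section

/-!
# TASK HB C1: few elements a with few representations of 2a (Roth)

PROOF of `exists_indep`.  Strong induction on `|E|`.  `E` empty: `S = ∅`.  Otherwise `∑_{b ∈ E} |{a ∈ E : R a b}| = ∑_{a ∈ E} |{b ∈ E : R a b}|
≤ K |E|` (`Finset.sum_comm`, `Finset.card_filter`), so some `b ∈ E` has at most `K` in-neighbours (`Finset.exists_le_of_sum_le`).  Let
`E' = {a ∈ E : a ≠ b, ¬ R a b, ¬ R b a}`: `|E| ≤ |E'| + 1 + 2K`.  Induction for `E'` gives `S'`, `S = insert b S'`: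
`|E| ≤ (2K+1) |S'| + 2K + 1 = (2K+1) |S|`.

PROOF of `lemmaR`.  If `M = 0` trivial.  `ε = 1 / ((2K+1) M)`, `C = cornersTheoremBound ε` (`roth_3ap_theorem`, contraposition).
`E = Ex K A`, `R b a := a ≠ b ∧ b + b - a ∈ A`.  For `b ∈ E` the map `a ↦ (a, b + b - a)` is an injection of
`{a ∈ E : R b a}` into the set of pairs of `A ×ˢ A` with sum `b + b` (`E ⊆ A`), so there are at most `K` such `a`.
`exists_indep`: `S ⊆ E`, `|E| ≤ (2K+1) |S|`, independent.  `S` is `ThreeAPFree`: if `a + c = b + b` with `a, b, c ∈ S` and `a ≠ b`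
then `b + b - a = c ∈ A`, i.e. `R b a`, a contradiction.  So `|S| < ε |G|`, `|E| M ≤ (2K+1) M |S| ≤ |G|`.

PROOF of `card_double_le`.  In `ZMod q`: if `x + x = c` then `2 x.val = c.val` or `2 x.val = c.val + q` (`ZMod.val_add`, `x.val < q`), so
`x.val ∈ {c.val / 2, (c.val + q) / 2}`: at most two solutions.  Product: at most `2 * 2`.
-/

set_option autoImplicit false

open Finset
open scoped Pointwise

namespace Pool.Agent.HB

theorem exists_indep {α : Type*} [DecidableEq α] (E : Finset α) (R : α → α → Prop)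
    [DecidableRel R] (K : ℕ) (hR : ∀ a ∈ E, (E.filter fun b => R a b).card ≤ K) :
    ∃ S ⊆ E, E.card ≤ (2 * K + 1) * S.card ∧ ∀ a ∈ S, ∀ b ∈ S, a ≠ b → ¬ R a b := by
  induction h : E.card using Nat.strong_induction_on generalizing E with
  | _ n ih =>
    rcases E.eq_empty_or_nonempty with rfl | hne
    · refine ⟨∅, Finset.Subset.refl _, ?_, ?_⟩
      · rw [← h]
        simp
      · intro a ha
        simp at ha
    · have h1 : ∑ b ∈ E, (E.filter fun a => R a b).card ≤ ∑ b ∈ E, K := by
        have h2 := Finset.sum_card_bipartiteAbove_eq_sum_card_bipartiteBelow (s := E) (t := E) R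
        unfold Finset.bipartiteAbove Finset.bipartiteBelow at h2
        rw [← h2]
        exact Finset.sum_le_sum hR
      obtain ⟨b, hb, hb2⟩ := Finset.exists_le_of_sum_le hne h1
      have h3 : E ⊆ (E.filter fun a => a ≠ b ∧ ¬ R a b ∧ ¬ R b a) ∪ ({b} ∪
          ((E.filter fun a => R a b) ∪ (E.filter fun a => R b a))) := by
        intro a ha
        simp only [mem_union, mem_filter, mem_singleton]
        by_cases c1 : a = b
        · exact Or.inr (Or.inl c1)
        · by_cases c2 : R a b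
          · exact Or.inr (Or.inr (Or.inl ⟨ha, c2⟩))
          · by_cases c3 : R b a
            · exact Or.inr (Or.inr (Or.inr ⟨ha, c3⟩))
            · exact Or.inl ⟨ha, c1, c2, c3⟩
      have h4 := Finset.card_le_card h3
      have h5 := Finset.card_union_le (E.filter fun a => a ≠ b ∧ ¬ R a b ∧ ¬ R b a) ({b} ∪
          ((E.filter fun a => R a b) ∪ (E.filter fun a => R b a)))
      have h6 := Finset.card_union_le {b} ((E.filter fun a => R a b) ∪ (E.filter fun a => R b a))
      have h7 := Finset.card_union_le (E.filter fun a => R a b) (E.filter fun a => R b a)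
      rw [Finset.card_singleton] at h6
      have h8 := hR b hb
      have h9 : (E.filter fun a => a ≠ b ∧ ¬ R a b ∧ ¬ R b a).card < n := by
        rw [← h]
        apply Finset.card_lt_card
        rw [Finset.ssubset_iff_subset_ne]
        refine ⟨Finset.filter_subset _ _, fun he => ?_⟩
        rw [← he] at hb
        exact (Finset.mem_filter.1 hb).2.1 rfl
      obtain ⟨S, hS1, hS2, hS3⟩ := ih _ h9 (E.filter fun a => a ≠ b ∧ ¬ R a b ∧ ¬ R b a)
        (fun a ha => le_trans (Finset.card_le_card (Finset.filter_subset_filter _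
          (Finset.filter_subset _ _))) (hR a (Finset.mem_of_mem_filter a ha))) rfl
      have hbS : b ∉ S := fun hbs => (Finset.mem_filter.1 (hS1 hbs)).2.1 rfl
      refine ⟨insert b S, ?_, ?_, ?_⟩
      · intro a ha
        rcases Finset.mem_insert.1 ha with rfl | ha
        · exact hb
        · exact Finset.mem_of_mem_filter a (hS1 ha)
      · rw [Finset.card_insert_of_notMem hbS, Nat.mul_add, ← h]
        omega
      · intro x hx y hy hxy
        rcases Finset.mem_insert.1 hx with hx1 | hx1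
        · rcases Finset.mem_insert.1 hy with hy1 | hy1
          · exact absurd (hx1.trans hy1.symm) hxy
          · rw [hx1]
            exact (Finset.mem_filter.1 (hS1 hy1)).2.2.2
        · rcases Finset.mem_insert.1 hy with hy1 | hy1
          · rw [hy1]
            exact (Finset.mem_filter.1 (hS1 hx1)).2.2.1
          · exact hS3 x hx1 y hy1 hxy

/-- **Lemma R.** -/
theorem lemmaR (K M : ℕ) : ∃ C : ℕ, ∀ (G : Type) [AddCommGroup G] [Fintype G] [DecidableEq G],
    C ≤ Fintype.card G → ∀ A : Finset G, (Ex K A).card * M ≤ Fintype.card G := by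
  rcases Nat.eq_zero_or_pos M with rfl | hM
  · exact ⟨0, fun G _ _ _ _ A => by simp⟩
  have hε : (0 : ℝ) < 1 / ((2 * K + 1) * M) := by positivity
  refine ⟨cornersTheoremBound (1 / ((2 * K + 1) * M)), fun G _ _ _ hG A => ?_⟩
  obtain ⟨S, hS1, hS2, hS3⟩ := exists_indep (Ex K A) (fun b a => a ≠ b ∧ b + b - a ∈ A) K (by
    intro b hb
    have hb2 := (Finset.mem_filter.1 hb).2
    refine le_trans ?_ hb2
    apply Finset.card_le_card_of_injOn (fun a => (a, b + b - a))
    · intro a ha
      have ha' := Finset.mem_filter.1 (Finset.mem_coe.1 ha)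
      have ha1 : a ∈ A := (Finset.mem_filter.1 ha'.1).1
      rw [Finset.mem_coe, Finset.mem_filter, Finset.mem_product]
      exact ⟨⟨ha1, ha'.2.2⟩, by simp⟩
    · intro a _ a' _ haa
      exact (Prod.mk.inj haa).1)
  have hSA : ∀ x ∈ S, x ∈ A := fun x hx => (Finset.mem_filter.1 (hS1 hx)).1
  have hfree : ThreeAPFree (S : Set G) := by
    intro a ha b hb c hc habc
    by_contra hne
    apply hS3 b hb a ha (fun h => hne h.symm)
    refine ⟨hne, ?_⟩
    have h1 : b + b - a = c := by rw [← habc, add_sub_cancel_left]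
    rw [h1]
    exact hSA c hc
  have hlt : (S.card : ℝ) < 1 / ((2 * K + 1) * M) * Fintype.card G := by
    by_contra hcon
    push Not at hcon
    exact roth_3ap_theorem _ hε hG S hcon hfree
  have hMp : (0 : ℝ) < (2 * K + 1) * M := by positivity
  rw [one_div, inv_mul_eq_div, lt_div_iff₀ hMp] at hlt
  have h2 : ((S.card * ((2 * K + 1) * M) : ℕ) : ℝ) < (Fintype.card G : ℝ) := by
    push_cast
    exact hlt
  have h3 : S.card * ((2 * K + 1) * M) < Fintype.card G := by exact_mod_cast h2
  calc (Ex K A).card * M ≤ ((2 * K + 1) * S.card) * M := Nat.mul_le_mul_right M hS2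
    _ = S.card * ((2 * K + 1) * M) := by ring
    _ ≤ Fintype.card G := h3.le

private theorem C1_double {q : ℕ} [NeZero q] (c : ZMod q) :
    (univ.filter fun x : ZMod q => x + x = c).card ≤ 2 := by
  rcases (univ.filter fun x : ZMod q => x + x = c).eq_empty_or_nonempty with h | ⟨x0, hx0⟩
  · rw [h]
    simp
  · have h0 : x0 + x0 = c := (Finset.mem_filter.1 hx0).2
    refine le_trans ?_ (IsAddCyclic.card_nsmul_eq_zero_le (α := ZMod q) (n := 2) (by norm_num))
    apply Finset.card_le_card_of_injOn (fun x => x - x0)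
    · intro x hx
      have hx1 : x + x = c := (Finset.mem_filter.1 (Finset.mem_coe.1 hx)).2
      rw [Finset.mem_coe, Finset.mem_filter]
      refine ⟨Finset.mem_univ _, ?_⟩
      rw [two_nsmul]
      have : x - x0 + (x - x0) = (x + x) - (x0 + x0) := by ring
      rw [this, hx1, h0, sub_self]
    · intro x _ y _ hxy
      exact sub_left_injective hxy

theorem card_double_le {q n : ℕ} [NeZero q] [NeZero n] (g : ZMod q × ZMod n) :
    (univ.filter fun x : ZMod q × ZMod n => x + x = g).card ≤ 4 := by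
  have h : (univ.filter fun x : ZMod q × ZMod n => x + x = g) ⊆
      (univ.filter fun x : ZMod q => x + x = g.1) ×ˢ (univ.filter fun x : ZMod n => x + x = g.2) := by
    intro x hx
    have hx1 : x + x = g := (Finset.mem_filter.1 hx).2
    rw [Finset.mem_product, Finset.mem_filter, Finset.mem_filter]
    exact ⟨⟨Finset.mem_univ _, by rw [← hx1]; rfl⟩, ⟨Finset.mem_univ _, by rw [← hx1]; rfl⟩⟩
  refine (Finset.card_le_card h).trans ?_
  rw [Finset.card_product]
  exact Nat.mul_le_mul (C1_double g.1) (C1_double g.2)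

end Pool.Agent.HB
end

section

/-!
# HB Ms: the iterated sumset

PROOFS.  `ms_succ`: `sum_range_succ`.  `mem_ms`: induction on `m` (`Multiset.cons`, `Finset.mem_add`).
`ms_add`: `sum_range_add` or induction.  `ms_translate`: induction, `{a} + {b} = {a + b}`.  `card_le_ms`:
`ms m B` contains a translate of `B`.  `stab_ms_mono`: `stab_le_stab_add` and `ms m B = ms (m - j) B + ms j B`.
-/

set_option autoImplicit false

open Finset
open scoped Pointwise

namespace Pool.Agent.HB

open Pool.Agent.Kneser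

variable {G : Type*} [AddCommGroup G] [DecidableEq G]

theorem ms_zero (B : Finset G) : ms 0 B = {0} := by
  unfold ms
  rw [Finset.range_zero, Finset.sum_empty]
  exact Finset.singleton_zero.symm

theorem ms_succ (m : ℕ) (B : Finset G) : ms (m + 1) B = ms m B + B := by
  unfold ms
  rw [Finset.sum_range_succ]

theorem ms_one (B : Finset G) : ms 1 B = B := by
  rw [ms_succ, ms_zero, Finset.singleton_add]
  simp

theorem ms_add (a b : ℕ) (B : Finset G) : ms (a + b) B = ms a B + ms b B := by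
  induction b with
  | zero =>
    rw [ms_zero, Nat.add_zero, Finset.add_singleton]
    simp
  | succ b ih => rw [← Nat.add_assoc, ms_succ, ih, ms_succ, add_assoc]

theorem mem_ms {m : ℕ} {B : Finset G} {x : G} :
    x ∈ ms m B ↔ ∃ s : Multiset G, s.card = m ∧ (∀ y ∈ s, y ∈ B) ∧ s.sum = x := by
  induction m generalizing x with
  | zero =>
    rw [ms_zero, Finset.mem_singleton]
    constructor
    · rintro rfl
      exact ⟨0, by simp⟩
    · rintro ⟨s, h1, _, h3⟩
      rw [Multiset.card_eq_zero] at h1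
      subst h1
      simpa using h3.symm
  | succ m ih =>
    rw [ms_succ, Finset.mem_add]
    constructor
    · rintro ⟨y, hy, z, hz, rfl⟩
      obtain ⟨s, h1, h2, h3⟩ := ih.1 hy
      refine ⟨z ::ₘ s, by simp [h1], ?_, by simp [h3, add_comm]⟩
      intro w hw
      rcases Multiset.mem_cons.1 hw with rfl | h
      · exact hz
      · exact h2 w h
    · rintro ⟨s, h1, h2, h3⟩
      have hne : s ≠ 0 := by
        rintro rfl
        simp at h1
      obtain ⟨a, ha⟩ := Multiset.exists_mem_of_ne_zero hne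
      obtain ⟨t, rfl⟩ := Multiset.exists_cons_of_mem ha
      refine ⟨t.sum, ih.2 ⟨t, by simpa using h1, fun y hy => h2 y (Multiset.mem_cons_of_mem hy), rfl⟩,
        a, h2 a (Multiset.mem_cons_self a t), ?_⟩
      rw [← h3, Multiset.sum_cons, add_comm]

theorem ms_nonempty {B : Finset G} (hB : B.Nonempty) (m : ℕ) : (ms m B).Nonempty := by
  induction m with
  | zero => rw [ms_zero]; exact Finset.singleton_nonempty 0
  | succ m ih => rw [ms_succ]; exact ih.add hB

theorem ms_mono {B B' : Finset G} (h : B ⊆ B') (m : ℕ) : ms m B ⊆ ms m B' := by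
  induction m with
  | zero => rw [ms_zero, ms_zero]
  | succ m ih => rw [ms_succ, ms_succ]; exact Finset.add_subset_add ih h

theorem ms_translate (m : ℕ) (B : Finset G) (b : G) : ms m (B + {b}) = ms m B + {m • b} := by
  induction m with
  | zero => simp [ms_zero]
  | succ m ih =>
    rw [ms_succ, ms_succ, ih, add_add_add_comm, Finset.singleton_add_singleton, succ_nsmul]

theorem card_add_singleton' (B : Finset G) (b : G) : (B + {b}).card = B.card := by
  rw [Finset.add_singleton]
  exact Finset.card_image_of_injective _ (add_left_injective b)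

theorem card_le_ms {B : Finset G} (hB : B.Nonempty) {m : ℕ} (hm : 1 ≤ m) :
    B.card ≤ (ms m B).card := by
  obtain ⟨k, rfl⟩ : ∃ k, m = k + 1 := ⟨m - 1, by omega⟩
  rw [ms_succ]
  obtain ⟨x, hx⟩ := ms_nonempty hB k
  calc B.card = (B + {x}).card := (card_add_singleton' B x).symm
    _ ≤ (ms k B + B).card := by
      apply Finset.card_le_card
      rw [add_comm]
      exact Finset.add_subset_add_right (Finset.singleton_subset_iff.2 hx)

private theorem Ms_stab_add (A B : Finset G) : stab B ≤ stab (A + B) := by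
  intro g hg x
  constructor
  · intro hx
    rw [mem_add] at hx
    obtain ⟨a, ha, b, hb, he⟩ := hx
    rw [mem_add]
    refine ⟨a, ha, -g + b, ?_, ?_⟩
    · exact ((stab B).neg_mem hg b).2 hb
    · have : x = -g + (a + b) := by rw [he]; abel
      rw [this]; abel
  · intro hx
    rw [mem_add] at hx
    obtain ⟨a, ha, b, hb, he⟩ := hx
    rw [mem_add]
    refine ⟨a, ha, g + b, (hg b).2 hb, ?_⟩
    rw [← he]; abel

theorem stab_ms_mono (B : Finset G) {j m : ℕ} (h : j ≤ m) : stab (ms j B) ≤ stab (ms m B) := by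
  obtain ⟨k, rfl⟩ : ∃ k, m = k + j := ⟨m - j, by omega⟩
  rw [ms_add]
  exact Ms_stab_add _ _

/-- A nonempty finset which contains all its translates by the elements of `x + T`. -/
theorem ms_ne_univ_mono [Fintype G] {B : Finset G} (hB : B.Nonempty) {j m : ℕ} (h : j ≤ m)
    (hm : ms m B ≠ univ) : ms j B ≠ univ := by
  intro hj
  apply hm
  obtain ⟨k, rfl⟩ : ∃ k, m = k + j := ⟨m - j, by omega⟩
  rw [ms_add, hj]
  obtain ⟨x, hx⟩ := ms_nonempty hB k
  ext y
  simp only [mem_univ, iff_true]
  rw [Finset.mem_add]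
  exact ⟨x, hx, y - x, mem_univ _, by abel⟩

end Pool.Agent.HB
end

section

/-!
# TASK HB C3: from sumsets to restricted sumsets

PROOF of `odd_even`.  Induction on the multiset: `a ::ₘ t` with `t = S.val + L + L`: if `a ∉ S`, take `insert a S`, `L`; if `a ∈ S`,
take `S.erase a`, `a ::ₘ L`.

PROOF of `replace`.  Induction on the multiset `L`.  `b ::ₘ L`, `W` with `|W| + 2 (|L| + 1) ≤ m`: the pairs `(x, y) ∈ A ×ˢ A` with
`x + y = b + b` which are bad (`x = y`, or `x ∈ W`, or `y ∈ W`) are at most `4 + 2 |W|` (`x = y`: `x` is a solution of `x + x = b + b`,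
`h4`; each coordinate determines the pair).  `4 + 2 |W| ≤ 4 + 2 m <` the number of pairs, so there is a good pair; replace `W` by
`insert x (insert y W)`: two elements more, sum larger by `b + b`, and apply the induction hypothesis.

PROOF of `lemmaR2`.  `mem_ms`: a multiset `t` of `j` elements of `A'` with sum `s`; `odd_even`: `t = S0.val + L + L`.  `W = U ∪ S0`
(disjoint: `S0 ⊆ A'`), `|W| + 2 |L| = |U| + j = m`.  `replace` gives `W' ⊆ A` with `m` elements and sum
`∑ U + ∑ S0 + 2 ∑ L = ∑ U + s`.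
-/

set_option autoImplicit false

open Finset
open scoped Pointwise

namespace Pool.Agent.HB

variable {G : Type*} [AddCommGroup G] [DecidableEq G]

theorem odd_even {α : Type*} [DecidableEq α] (t : Multiset α) :
    ∃ (S : Finset α) (L : Multiset α), t = S.val + L + L := by
  induction t using Multiset.induction_on with
  | empty => exact ⟨∅, 0, by simp⟩
  | cons a t ih =>
    obtain ⟨S, L, rfl⟩ := ih
    by_cases ha : a ∈ S
    · refine ⟨S.erase a, a ::ₘ L, ?_⟩
      have h : S.val = a ::ₘ (S.erase a).val := by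
        rw [Finset.erase_val]
        exact (Multiset.cons_erase ha).symm
      rw [h]
      simp only [Multiset.cons_add, Multiset.add_cons]
    · refine ⟨insert a S, L, ?_⟩
      rw [Finset.insert_val_of_notMem ha]
      simp only [Multiset.cons_add]

theorem replace [Fintype G] {A : Finset G} {m : ℕ}
    (h4 : ∀ g : G, (univ.filter fun x : G => x + x = g).card ≤ 4) (L : Multiset G) :
    (∀ a ∈ L, 4 + 2 * m < ((A ×ˢ A).filter fun p => p.1 + p.2 = a + a).card) →
    ∀ W : Finset G, W ⊆ A → W.card + 2 * L.card ≤ m →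
      ∃ W' : Finset G, W' ⊆ A ∧ W'.card = W.card + 2 * L.card ∧
        ∑ x ∈ W', x = ∑ x ∈ W, x + (L.sum + L.sum) := by
  induction L using Multiset.induction_on with
  | empty =>
    intro _ W hW _
    exact ⟨W, hW, by simp, by simp⟩
  | cons b L ih =>
    intro hL W hW hm
    rw [Multiset.card_cons] at hm
    have hb := hL b (Multiset.mem_cons_self b L)
    have hbad : (((A ×ˢ A).filter fun p => p.1 + p.2 = b + b).filter
        fun p => p.1 = p.2 ∨ p.1 ∈ W ∨ p.2 ∈ W).card ≤ 4 + 2 * W.card := by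
      have hsub : (((A ×ˢ A).filter fun p => p.1 + p.2 = b + b).filter
          fun p => p.1 = p.2 ∨ p.1 ∈ W ∨ p.2 ∈ W) ⊆
          ((univ.filter fun x : G => x + x = b + b).image fun x => (x, x)) ∪
          ((W.image fun x => (x, b + b - x)) ∪ (W.image fun x => (b + b - x, x))) := by
        intro p hp
        rw [Finset.mem_filter, Finset.mem_filter] at hp
        obtain ⟨⟨_, hs⟩, h⟩ := hp
        rw [Finset.mem_union, Finset.mem_union]
        rcases h with h | h | h
        · left
          refine Finset.mem_image.mpr ⟨p.1, ?_, ?_⟩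
          · rw [Finset.mem_filter]
            refine ⟨Finset.mem_univ _, ?_⟩
            rw [← hs, ← h]
          · exact Prod.ext rfl h
        · right
          left
          refine Finset.mem_image.mpr ⟨p.1, h, ?_⟩
          refine Prod.ext rfl ?_
          show b + b - p.1 = p.2
          rw [← hs]
          abel
        · right
          right
          refine Finset.mem_image.mpr ⟨p.2, h, ?_⟩
          refine Prod.ext ?_ rfl
          show b + b - p.2 = p.1
          rw [← hs]
          abel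
      refine (Finset.card_le_card hsub).trans ?_
      refine (Finset.card_union_le _ _).trans ?_
      have e1 := (Finset.card_image_le (s := univ.filter fun x : G => x + x = b + b)
        (f := fun x => (x, x))).trans (h4 (b + b))
      have e2 := Finset.card_image_le (s := W) (f := fun x => (x, b + b - x))
      have e3 := Finset.card_image_le (s := W) (f := fun x => (b + b - x, x))
      have e4 := Finset.card_union_le (W.image fun x => (x, b + b - x))
        (W.image fun x => (b + b - x, x))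
      omega
    have hlt : (((A ×ˢ A).filter fun p => p.1 + p.2 = b + b).filter
        fun p => p.1 = p.2 ∨ p.1 ∈ W ∨ p.2 ∈ W).card <
        ((A ×ˢ A).filter fun p => p.1 + p.2 = b + b).card := by
      omega
    have hex : ∃ p ∈ ((A ×ˢ A).filter fun p => p.1 + p.2 = b + b),
        ¬ (p.1 = p.2 ∨ p.1 ∈ W ∨ p.2 ∈ W) := by
      by_contra hcon
      push Not at hcon
      have heq : (((A ×ˢ A).filter fun p => p.1 + p.2 = b + b).filter
          fun p => p.1 = p.2 ∨ p.1 ∈ W ∨ p.2 ∈ W) =
          ((A ×ˢ A).filter fun p => p.1 + p.2 = b + b) :=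
        Finset.filter_true_of_mem hcon
      rw [heq] at hlt
      exact lt_irrefl _ hlt
    obtain ⟨⟨x, y⟩, hp, hgood⟩ := hex
    rw [Finset.mem_filter, Finset.mem_product] at hp
    obtain ⟨⟨hx, hy⟩, hxy⟩ := hp
    simp only at hx hy hxy hgood
    push Not at hgood
    obtain ⟨hne, hxW, hyW⟩ := hgood
    have hx2 : x ∉ insert y W := by
      rw [Finset.mem_insert]
      rintro (h | h)
      · exact hne h
      · exact hxW h
    have hcard : (insert x (insert y W)).card = W.card + 2 := by
      rw [Finset.card_insert_of_notMem hx2, Finset.card_insert_of_notMem hyW]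
    obtain ⟨W', h1, h2, h3⟩ := ih (fun a ha => hL a (Multiset.mem_cons_of_mem ha))
      (insert x (insert y W))
      (Finset.insert_subset hx (Finset.insert_subset hy hW)) (by rw [hcard]; omega)
    refine ⟨W', h1, ?_, ?_⟩
    · rw [h2, hcard, Multiset.card_cons]
      ring
    · rw [h3, Finset.sum_insert hx2, Finset.sum_insert hyW, Multiset.sum_cons]
      have : x + (y + ∑ z ∈ W, z) + (L.sum + L.sum) = (x + y) + ∑ z ∈ W, z + (L.sum + L.sum) := by
        abel
      rw [this, hxy]
      abel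

/-- **Lemma R2.** -/
theorem lemmaR2 [Fintype G] {A A' U : Finset G} {m j : ℕ} (hA' : A' ⊆ A)
    (h1 : ∀ a ∈ A', 4 + 2 * m < ((A ×ˢ A).filter fun p => p.1 + p.2 = a + a).card)
    (h4 : ∀ g : G, (univ.filter fun x : G => x + x = g).card ≤ 4)
    (hU : U ⊆ A) (hd : Disjoint U A') (hm : U.card + j = m) {s : G} (hs : s ∈ ms j A') :
    RS m A (∑ x ∈ U, x + s) := by
  obtain ⟨t, ht, htA, hsum⟩ := mem_ms.mp hs
  obtain ⟨S, L, rfl⟩ := odd_even t
  have hSA' : S ⊆ A' := by
    intro x hx
    exact htA x (Multiset.mem_add.mpr (Or.inl (Multiset.mem_add.mpr (Or.inl hx))))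
  have hLA' : ∀ a ∈ L, a ∈ A' := by
    intro x hx
    exact htA x (Multiset.mem_add.mpr (Or.inr hx))
  have hdS : Disjoint U S := Finset.disjoint_of_subset_right hSA' hd
  have hcard : S.card + L.card + L.card = j := by
    rw [← ht, Multiset.card_add, Multiset.card_add]
    rfl
  have hUS : (U ∪ S).card = U.card + S.card := Finset.card_union_of_disjoint hdS
  obtain ⟨W', h1', h2', h3'⟩ := replace h4 L (fun a ha => h1 a (hLA' a ha)) (U ∪ S)
    (Finset.union_subset hU (hSA'.trans hA')) (by rw [hUS]; omega)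
  refine ⟨W', h1', ?_, ?_⟩
  · rw [h2', hUS]
    omega
  · rw [h3', Finset.sum_union hdS, ← hsum, Multiset.sum_add, Multiset.sum_add]
    have : S.val.sum = ∑ x ∈ S, x := by
      rw [Finset.sum_eq_multiset_sum]
      simp
    rw [this]
    abel

end Pool.Agent.HB
end

section

/-!
# TASK HB D1: zero-sum subsets; numerical steps

PROOF of `exists_small_sum` (Davenport constant of a group of order `N` is at most `N`).  Strong induction on `|F|`.  If `|F| + 1 ≤ N`: `J = F`.
Otherwise take `N` different elements `x_0, .., x_{N-1}` of `F` (a list, or `Finset.equivFin`); two of the `N + 1` partial sums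
`S_i = f x_0 + .. + f x_{i-1}`, `i = 0..N`, are equal (pigeonhole, `Finset.exists_ne_map_eq_of_card_lt_of_maps_to`), `S_i = S_j`, `i < j`:
`Z = {x_i, .., x_{j-1}}` is nonempty with sum of `f` zero.  Induction for `F \ Z`.

PROOF of `num1`.  (All in ℕ or better in ℤ/ℝ; write `Q = 8 q ^ 3`.)
`(Q - 1) n ≤ Q c ≤ Q a h`; multiply by `q`: `(Q - 1) N0 N h ≤ Q q a h`, so (I) `(Q - 1) N0 N ≤ Q q a`.
(II) `Q q N ≥ Q q m' a - Q q m' + 2 Q q ≥ m' (Q - 1) N0 N - Q q m' + 2 Q q`, i.e.
`N (m' N0 (Q - 1) - Q q) ≤ Q q (m' - 2)`  (for `m' ≤ 1` the right side is negative or the left side is, see below).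
`m' N0 (Q - 1) - Q q ≥ (q + 1) (Q - 1) - Q q = Q - q - 1 ≥ Q / 2`, so `N Q / 2 ≤ Q q (m' - 2)`, `N ≤ 2 q (m' - 2) ≤ 4 q ^ 2`
(in ℤ; so `m' ≥ 3` automatically as `N ≥ 1`).
`N0 ≤ q` (hypothesis).  By (I) `Q q a ≥ Q N0 N - N0 N > Q N0 N - Q` because `N0 N ≤ 4 q ^ 3 < Q`; hence `q a > N0 N - 1`.

PROOF of `num2`.  `2 ≤ N0 ≤ q`, `m' ≥ q + 2 - N0`, `a ≥ 2`, `m' (a - 1) + 2 ≤ N`, `N0 N ≤ a q`.
`q N ≥ m' q a - m' q + 2 q ≥ m' N0 N - m' q + 2 q`, so `N (m' N0 - q) ≤ q (m' - 2)` and `N ≥ m' + 2` (as `a ≥ 2`);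
`m' N0 ≥ (q + 2 - N0) N0 = q + 1 + (N0 - 1) (q + 1 - N0) > q`, so `(m' + 2) (m' N0 - q) ≤ q (m' - 2)`, i.e.
`m' (m' + 2) N0 ≤ 2 q m'`, `(m' + 2) N0 ≤ 2 q`.  But `(m' + 2) N0 ≥ (q + 4 - N0) N0 = 2 q + 4 + (N0 - 2) (q + 2 - N0) > 2 q`.

`num3`: `m' N0 ≥ (q + 2 - N0) N0 = q + 1 + (N0 - 1) (q + 1 - N0) ≥ q + 1`.
-/

set_option autoImplicit false

open Finset

namespace Pool.Agent.HB

private theorem D1_zero {Q α : Type*} [AddCommGroup Q] [Fintype Q] [DecidableEq α]
    (F : Finset α) (f : α → Q) (hF : Fintype.card Q ≤ F.card) :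
    ∃ Z ⊆ F, Z.Nonempty ∧ ∑ x ∈ Z, f x = 0 := by
  classical
  let e : Fin F.card → α := fun k => ((F.equivFin.symm k : F) : α)
  have he : Function.Injective e := fun a b hab => F.equivFin.symm.injective (Subtype.ext hab)
  let P : ℕ → Finset α := fun i => (univ.filter fun k : Fin F.card => k.val < i).image e
  have hP : ∀ i x, x ∈ P i ↔ ∃ k : Fin F.card, k.val < i ∧ e k = x := by
    intro i x
    simp [P]
  have hPF : ∀ i, P i ⊆ F := by
    intro i x hx
    rw [hP] at hx
    obtain ⟨k, -, rfl⟩ := hx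
    exact (F.equivFin.symm k).2
  have key : ∀ i j, i < j → j ≤ Fintype.card Q → ∑ x ∈ P i, f x = ∑ x ∈ P j, f x →
      ∃ Z ⊆ F, Z.Nonempty ∧ ∑ x ∈ Z, f x = 0 := by
    intro i j hij hj hs
    refine ⟨P j \ P i, fun x hx => hPF j (Finset.mem_sdiff.1 hx).1, ?_, ?_⟩
    · have hi : i < F.card := by omega
      refine ⟨e ⟨i, hi⟩, ?_⟩
      rw [Finset.mem_sdiff, hP, hP]
      refine ⟨⟨⟨i, hi⟩, hij, rfl⟩, ?_⟩
      rintro ⟨k, hk, hk2⟩
      have := he hk2
      rw [this] at hk
      exact absurd hk (lt_irrefl _)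
    · have h1 : P i ⊆ P j := by
        intro x hx
        rw [hP] at hx ⊢
        obtain ⟨k, hk, rfl⟩ := hx
        exact ⟨k, hk.trans hij, rfl⟩
      have h2 := Finset.sum_sdiff (f := f) h1
      rw [hs] at h2
      exact add_eq_right.1 h2
  have hlt : (univ : Finset Q).card < (Finset.range (Fintype.card Q + 1)).card := by
    rw [Finset.card_range, Finset.card_univ]
    exact Nat.lt_succ_self _
  obtain ⟨i, hi, j, hj, hij, hs⟩ := Finset.exists_ne_map_eq_of_card_lt_of_maps_to hlt
    (f := fun i => ∑ x ∈ P i, f x) (fun i _ => Finset.mem_univ _)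
  rw [Finset.mem_range] at hi hj
  rcases lt_or_gt_of_ne hij with h | h
  · exact key i j h (by omega) hs
  · exact key j i h (by omega) hs.symm

theorem exists_small_sum {Q α : Type*} [AddCommGroup Q] [Fintype Q] [DecidableEq α]
    (F : Finset α) (f : α → Q) :
    ∃ J ⊆ F, J.card + 1 ≤ Fintype.card Q ∧ ∑ x ∈ J, f x = ∑ x ∈ F, f x := by
  induction F using Finset.strongInduction with
  | H F ih =>
    by_cases h : F.card + 1 ≤ Fintype.card Q
    · exact ⟨F, Finset.Subset.refl _, h, rfl⟩
    · obtain ⟨Z, hZ, hne, hs⟩ := D1_zero F f (by omega)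
      have hss : F \ Z ⊂ F := Finset.sdiff_ssubset hZ hne
      obtain ⟨J, hJ, hc, hsum⟩ := ih (F \ Z) hss
      refine ⟨J, hJ.trans Finset.sdiff_subset, hc, ?_⟩
      rw [hsum]
      have h2 := Finset.sum_sdiff (f := f) hZ
      rw [hs, add_zero] at h2
      exact h2

theorem num3 {q N0 m : ℕ} (h1 : 1 ≤ N0) (hN0 : N0 ≤ q) (hm : q + 2 ≤ m + N0) :
    q + 1 ≤ m * N0 := by
  zify at *
  have h2 : (q + 2 - N0 : ℤ) * N0 ≤ m * N0 := mul_le_mul_of_nonneg_right (by linarith) (by linarith)
  have h3 : (0 : ℤ) ≤ (N0 - 1) * (q + 1 - N0) := mul_nonneg (by linarith) (by linarith)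
  nlinarith

private theorem D1_cube {q : ℕ} (hq : 4 ≤ q) : 1 ≤ 8 * q ^ 3 ∧ 2 * (q + 1) ≤ 8 * q ^ 3 := by
  have h1 : q * 4 ≤ q * (q * q) := Nat.mul_le_mul_left q (by nlinarith)
  have h2 : q ^ 3 = q * (q * q) := by ring
  rw [h2]
  omega

theorem num1 {q n N0 N h a m c : ℕ} (hq : 4 ≤ q) (hn : 1 ≤ n) (hG : N0 * N * h = q * n)
    (hN0 : N0 ≤ q) (hc : c ≤ a * h) (hc' : (8 * q ^ 3 - 1) * n ≤ 8 * q ^ 3 * c)
    (hK : m * (a - 1) + 2 ≤ N) (ha : 1 ≤ a) (hm1 : q + 1 ≤ m * N0) (hm2 : m ≤ 2 * q) :
    N0 * N ≤ a * q ∧ N ≤ 4 * q ^ 2 := by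
  obtain ⟨hQ1, hQ2⟩ := D1_cube hq
  have hpos : 0 < N0 * N * h := by
    rw [hG]
    exact Nat.mul_pos (by omega) (by omega)
  have hh : 0 < h := Nat.pos_of_mul_pos_left hpos
  have hNN : 0 < N0 * N := Nat.pos_of_mul_pos_right hpos
  obtain ⟨a', rfl⟩ : ∃ a', a = a' + 1 := ⟨a - 1, by omega⟩
  rw [Nat.add_sub_cancel] at hK
  obtain ⟨Q, hQ⟩ : ∃ Q, 8 * q ^ 3 = Q + 1 := ⟨8 * q ^ 3 - 1, by omega⟩
  have hq3 : (q : ℤ) ^ 3 * 8 = Q + 1 := by
    have : ((8 * q ^ 3 : ℕ) : ℤ) = ((Q + 1 : ℕ) : ℤ) := by rw [hQ]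
    push_cast at this
    linarith
  rw [hQ, Nat.add_sub_cancel] at hc'
  rw [hQ] at hQ2
  -- (I)
  have hI : Q * (N0 * N) ≤ (Q + 1) * (q * (a' + 1)) := by
    refine Nat.le_of_mul_le_mul_right ?_ hh
    calc Q * (N0 * N) * h = q * (Q * n) := by rw [mul_assoc, hG]; ring
      _ ≤ q * ((Q + 1) * c) := Nat.mul_le_mul_left _ hc'
      _ ≤ q * ((Q + 1) * ((a' + 1) * h)) := Nat.mul_le_mul_left _ (Nat.mul_le_mul_left _ hc)
      _ = (Q + 1) * (q * (a' + 1)) * h := by ring
  zify at hI hK hm1 hm2 hN0 hNN hQ2 hq ⊢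
  have hm0 : (0 : ℤ) ≤ m := by positivity
  have hq0 : (0 : ℤ) < q := by linarith
  have hQ0 : (0 : ℤ) < Q + 1 := by positivity
  have hN1 : (0 : ℤ) ≤ N := by positivity
  -- (II)
  have h1 : (Q + 1 : ℤ) * q * (m * a' + 2) ≤ (Q + 1) * q * N := mul_le_mul_of_nonneg_left hK (by positivity)
  have h2 : (m : ℤ) * (Q * (N0 * N)) ≤ m * ((Q + 1) * (q * (a' + 1))) := mul_le_mul_of_nonneg_left hI hm0
  have h3 : (q + 1 : ℤ) * (Q * N) ≤ m * N0 * (Q * N) := mul_le_mul_of_nonneg_right hm1 (by positivity)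
  have h4 : (N : ℤ) * (Q - q) ≤ (Q + 1) * q * (m - 2) := by nlinarith
  have h5 : (N : ℤ) * (Q + 1) ≤ 2 * (N * (Q - q)) := by nlinarith
  have h6 : (N : ℤ) * (Q + 1) ≤ (2 * q * (m - 2)) * (Q + 1) := by nlinarith
  have h7 : (N : ℤ) ≤ 2 * q * (m - 2) := le_of_mul_le_mul_right h6 hQ0
  have h8 : (N : ℤ) ≤ 2 * q * (2 * q - 2) := h7.trans (mul_le_mul_of_nonneg_left (by linarith) (by positivity))
  have h9 : (N : ℤ) ≤ 4 * q ^ 2 := by nlinarith
  refine ⟨?_, h9⟩
  have h10 : (N0 : ℤ) * N ≤ q * (4 * q ^ 2) := mul_le_mul hN0 h9 hN1 (by positivity)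
  have h11 : (N0 : ℤ) * N < Q + 1 := by
    have h12 : (q : ℤ) * (4 * q ^ 2) = q ^ 3 * 4 := by ring
    have h13 : 0 < (q : ℤ) ^ 3 := by positivity
    linarith
  by_contra hcon
  have h12 : (q : ℤ) * (a' + 1) ≤ N0 * N - 1 := by
    have := not_le.1 hcon
    have h13 : ((a' + 1 : ℤ)) * q < N0 * N := by exact_mod_cast this
    have h14 : ((a' + 1 : ℤ)) * q = q * (a' + 1) := by ring
    linarith
  have h13 := mul_le_mul_of_nonneg_left h12 hQ0.le
  nlinarith

theorem num2 {q N0 N a m : ℕ} (h2 : 2 ≤ N0) (hN0 : N0 ≤ q) (hm : q + 2 ≤ m + N0)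
    (ha : 2 ≤ a) (hK : m * (a - 1) + 2 ≤ N) (h : N0 * N ≤ a * q) : False := by
  obtain ⟨a', rfl⟩ : ∃ a', a = a' + 1 := ⟨a - 1, by omega⟩
  rw [Nat.add_sub_cancel] at hK
  have h3 := num3 (show 1 ≤ N0 by omega) hN0 hm
  have ha' : 1 ≤ a' := by omega
  zify at *
  have hm0 : (2 : ℤ) ≤ m := by linarith
  have h4 : (m : ℤ) * (N0 * N) ≤ m * ((a' + 1) * q) := mul_le_mul_of_nonneg_left h (by linarith)
  have h5 : (q : ℤ) * (m * a' + 2) ≤ q * N := mul_le_mul_of_nonneg_left hK (by linarith)
  have h6 : (N : ℤ) * (m * N0 - q) ≤ q * (m - 2) := by nlinarith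
  have h7 : (m : ℤ) + 2 ≤ N := by nlinarith
  have h8 : ((m : ℤ) + 2) * (m * N0 - q) ≤ N * (m * N0 - q) := mul_le_mul_of_nonneg_right h7 (by linarith)
  have h9 : (m : ℤ) * ((m + 2) * N0) ≤ m * (2 * q) := by nlinarith
  have h10 : ((m : ℤ) + 2) * N0 ≤ 2 * q := le_of_mul_le_mul_left h9 (by linarith)
  have h11 : (0 : ℤ) ≤ (N0 - 2) * (q + 2 - N0) := mul_nonneg (by linarith) (by linarith)
  have h12 : ((q : ℤ) + 4 - N0) * N0 ≤ (m + 2) * N0 := mul_le_mul_of_nonneg_right (by linarith) (by linarith)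
  nlinarith

/-- The subgroup `K0` generated by the differences has index at most `q`. -/
theorem num4 {q n N0 k c : ℕ} (hq : 4 ≤ q) (hn : 1 ≤ n) (hG : N0 * k = q * n) (hc : c ≤ k)
    (hc' : (8 * q ^ 3 - 1) * n ≤ 8 * q ^ 3 * c) : N0 ≤ q := by
  obtain ⟨hQ1, hQ2⟩ := D1_cube hq
  obtain ⟨Q, hQ⟩ : ∃ Q, 8 * q ^ 3 = Q + 1 := ⟨8 * q ^ 3 - 1, by omega⟩
  rw [hQ, Nat.add_sub_cancel] at hc'
  rw [hQ] at hQ2
  by_contra hcon
  have h1 : q + 1 ≤ N0 := by omega
  have h2 : (q + 1) * k ≤ q * n := by
    rw [← hG]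
    exact Nat.mul_le_mul_right k h1
  have h3 : (q + 1) * (Q * n) ≤ (Q + 1) * (q * n) := by
    calc (q + 1) * (Q * n) ≤ (q + 1) * ((Q + 1) * c) := Nat.mul_le_mul_left _ hc'
      _ ≤ (q + 1) * ((Q + 1) * k) := Nat.mul_le_mul_left _ (Nat.mul_le_mul_left _ hc)
      _ = (Q + 1) * ((q + 1) * k) := by ring
      _ ≤ (Q + 1) * (q * n) := Nat.mul_le_mul_left _ h2
  have h4 : (q + 1) * Q ≤ (Q + 1) * q := by
    refine Nat.le_of_mul_le_mul_right ?_ (show 0 < n by omega)
    calc (q + 1) * Q * n = (q + 1) * (Q * n) := by ring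
      _ ≤ (Q + 1) * (q * n) := h3
      _ = (Q + 1) * q * n := by ring
  nlinarith

end Pool.Agent.HB
end

section

/-!
# TASK HB Ag: affinely generating sets, quotients

PROOFS.  `AGen.qim`: for a subgroup `L` of `G ⧸ K` take the comap under `QuotientAddGroup.mk' K`.
`AGen.two_le`: otherwise `B` has at most one element and `K = ⊥` satisfies the hypothesis, so `⊥ = ⊤`.
`qim_ms`: `mem_ms`, `mem_qim` (lift a multiset of the quotient elementwise, `Multiset.map`), or induction with
`ms_succ`.  `exists_proper`: negation of `AGen`.  `ms_univ_of_qim`: `T` periodic under `K`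
(`add_fs_stab`), so `x ∈ T` iff its class is in `qim K T`.  `qim_ne_univ`: the same.
`card_qim_mul`: `card_add_fs`.  `SC_of_quot`: pull back the subgroup `L` of `G ⧸ K` along `mk' K`:
`K' = L.comap (mk' K)`, same index (`AddSubgroup.index_comap_of_surjective`), `CycQ` (lift `x`), and
`Nat.card L ∣ Nat.card K'`: `Nat.card K' = Nat.card L * Nat.card K` by `card_mul_index` three times.
-/

set_option autoImplicit false

open Finset
open scoped Pointwise

namespace Pool.Agent.HB

open Pool.Agent.Kneser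

section
variable {G : Type*} [AddCommGroup G] [DecidableEq G]

theorem AGen.translate {B : Finset G} (h : AGen B) (b : G) : AGen (B + {b}) := by
  intro K hK
  refine h K fun x hx y hy => ?_
  have h1 := hK (x + b) (add_mem_add hx (mem_singleton_self b)) (y + b)
    (add_mem_add hy (mem_singleton_self b))
  rwa [add_sub_add_right_eq_sub] at h1

theorem AGen.qim {B : Finset G} (h : AGen B) (K : AddSubgroup G) : AGen (qim K B) := by
  intro L hL
  have h1 : L.comap (QuotientAddGroup.mk' K) = ⊤ := by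
    refine h _ fun x hx y hy => ?_
    rw [AddSubgroup.mem_comap, map_sub]
    exact hL _ (mem_qim.2 ⟨x, hx, rfl⟩) _ (mem_qim.2 ⟨y, hy, rfl⟩)
  rw [eq_top_iff]
  intro z _
  obtain ⟨x, rfl⟩ := QuotientAddGroup.mk'_surjective K z
  have h2 : x ∈ L.comap (QuotientAddGroup.mk' K) := by rw [h1]; trivial
  exact h2

theorem AGen.eq_top {B : Finset G} (h : AGen B) {K : AddSubgroup G} (b : G)
    (hb : ∀ x ∈ B, x - b ∈ K) : K = ⊤ := by
  refine h K fun x hx y hy => ?_
  have h1 := K.sub_mem (hb x hx) (hb y hy)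
  rwa [sub_sub_sub_cancel_right] at h1

theorem AGen.nonempty [Fintype G] {B : Finset G} (h : AGen B) (hG : 2 ≤ Fintype.card G) :
    B.Nonempty := by
  by_contra hB
  rw [Finset.not_nonempty_iff_eq_empty] at hB
  have h1 : (⊥ : AddSubgroup G) = ⊤ := h ⊥ (by simp [hB])
  have h2 : Nat.card (⊥ : AddSubgroup G) = Nat.card (⊤ : AddSubgroup G) := by rw [h1]
  rw [AddSubgroup.card_bot, AddSubgroup.card_top, Nat.card_eq_fintype_card] at h2
  omega

theorem AGen.two_le [Fintype G] {B : Finset G} (h : AGen B) (hG : 2 ≤ Fintype.card G) :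
    2 ≤ B.card := by
  by_contra hB
  have hB1 : B.card ≤ 1 := by omega
  have h1 : (⊥ : AddSubgroup G) = ⊤ := h ⊥ (by
    intro x hx y hy
    rw [Finset.card_le_one.1 hB1 x hx y hy, sub_self]
    exact AddSubgroup.zero_mem _)
  have h2 : Nat.card (⊥ : AddSubgroup G) = Nat.card (⊤ : AddSubgroup G) := by rw [h1]
  rw [AddSubgroup.card_bot, AddSubgroup.card_top, Nat.card_eq_fintype_card] at h2
  omega

theorem qim_add [Fintype G] (K : AddSubgroup G) [DecidableEq (G ⧸ K)] (A B : Finset G) :
    qim K (A + B) = qim K A + qim K B := by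
  ext z
  rw [mem_qim, mem_add]
  constructor
  · rintro ⟨x, hx, rfl⟩
    rw [mem_add] at hx
    obtain ⟨a, ha, b, hb, rfl⟩ := hx
    exact ⟨(a : G ⧸ K), mem_qim.2 ⟨a, ha, rfl⟩, (b : G ⧸ K), mem_qim.2 ⟨b, hb, rfl⟩, rfl⟩
  · rintro ⟨u, hu, v, hv, rfl⟩
    obtain ⟨a, ha, rfl⟩ := mem_qim.1 hu
    obtain ⟨b, hb, rfl⟩ := mem_qim.1 hv
    exact ⟨a + b, add_mem_add ha hb, rfl⟩

theorem qim_ms [Fintype G] (K : AddSubgroup G) [DecidableEq (G ⧸ K)] (m : ℕ) (B : Finset G) :
    qim K (ms m B) = ms m (qim K B) := by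
  induction m with
  | zero =>
    rw [ms_zero, ms_zero]
    ext z
    rw [mem_qim, mem_singleton]
    constructor
    · rintro ⟨a, ha, rfl⟩
      rw [mem_singleton] at ha
      rw [ha]
      rfl
    · rintro rfl
      exact ⟨0, mem_singleton_self _, rfl⟩
  | succ m ih => rw [ms_succ, ms_succ, qim_add, ih]

end

section
variable {G : Type*} [AddCommGroup G] [Fintype G] [DecidableEq G]

theorem qim_ne_univ {T : Finset G} {K : AddSubgroup G} [Fintype (G ⧸ K)] (hK : K ≤ stab T)
    (hT : T ≠ univ) : qim K T ≠ univ := by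
  intro h
  apply hT
  ext x
  simp only [mem_univ, iff_true]
  have h1 : (x : G ⧸ K) ∈ qim K T := by rw [h]; exact mem_univ _
  obtain ⟨a, ha, hax⟩ := mem_qim.1 h1
  rw [QuotientAddGroup.eq] at hax
  have h2 := (stab_add_mem (hK hax) (x := a)).2 ha
  rwa [add_neg_cancel_left] at h2

theorem card_quot (K : AddSubgroup G) [Fintype (G ⧸ K)] : Fintype.card (G ⧸ K) = K.index := by
  rw [AddSubgroup.index_eq_card, Nat.card_eq_fintype_card]

/-- Elements of a periodic set are recognised in the quotient. -/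
theorem mem_of_mk_mem_qim {T : Finset G} {K : AddSubgroup G} (hK : K ≤ stab T) {x : G}
    (hx : (QuotientAddGroup.mk x : G ⧸ K) ∈ qim K T) : x ∈ T := by
  obtain ⟨a, ha, hax⟩ := mem_qim.1 hx
  rw [QuotientAddGroup.eq] at hax
  have h2 := (stab_add_mem (hK hax) (x := a)).2 ha
  rwa [add_neg_cancel_left] at h2

theorem SC_of_quot {q m : ℕ} (K : AddSubgroup G) (h : SC q m (G ⧸ K)) : SC q m G := by
  obtain ⟨L, l, h1, ⟨x, hx⟩, h3, h4⟩ := h
  set π : G →+ G ⧸ K := QuotientAddGroup.mk' K with hπ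
  have hsurj : Function.Surjective π := QuotientAddGroup.mk'_surjective K
  have hidx : (L.comap π).index = L.index := L.index_comap_of_surjective hsurj
  have hcard : Nat.card (L.comap π) = Nat.card L * Nat.card K := by
    have a1 := AddSubgroup.card_mul_index (L.comap π)
    have a2 := AddSubgroup.card_mul_index L
    have a3 := AddSubgroup.card_mul_index K
    have a4 : K.index = Nat.card (G ⧸ K) := AddSubgroup.index_eq_card K
    rw [hidx] at a1
    rw [a4, ← a2] at a3
    have hpos : 0 < L.index := Nat.pos_of_ne_zero AddSubgroup.index_ne_zero_of_finite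
    have a5 : Nat.card (L.comap π) * L.index = (Nat.card L * Nat.card K) * L.index := by
      rw [a1, ← a3]; ring
    exact Nat.eq_of_mul_eq_mul_right hpos a5
  obtain ⟨x', rfl⟩ := hsurj x
  refine ⟨L.comap π, l, h1, ⟨x', fun y => ?_⟩, by rw [hidx]; exact h3, ?_⟩
  · obtain ⟨k, hk⟩ := hx (π y)
    refine ⟨k, ?_⟩
    rw [AddSubgroup.mem_comap, map_sub, map_nsmul]
    exact hk
  · rw [hidx]
    rcases h4 with h4 | ⟨h5, e, h6, h7, h8⟩
    · exact Or.inl h4
    · refine Or.inr ⟨h5, e, h6, ?_, h8⟩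
      rw [hcard]
      exact Dvd.dvd.mul_right h7 _

end

end Pool.Agent.HB
end

section

/-!
# TASK HB B2: few holes with respect to a subgroup

`B` has at most `|K| - 1` holes in `B + K`; `ms m (B / K)` is everything, but `ms m B` is not.

PROOF of `poor_coset`.  Let `y ∉ ms m B`.  Its class is in `qim K (ms m B)`... no: its class is in `ms m (qim K B) = univ`, so
(`mem_ms`) it is the sum of a multiset of `m` classes of elements of `B`.  For `b ∈ B` put `B_b = B.filter (x - b ∈ K)`
(`|B_b| ≤ |K|`); for `b, b'` in different classes `|B_b| + |B_b'| ≥ 2 |K| - (holes) ≥ |K| + 1`, because `B + fs K` is the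
disjoint union of the cosets and `|B + fs K| - |B| ≤ |K| - 1` is the sum of the numbers of holes.
(F) If `P, Q ⊆` cosets `b + K`, `b' + K` and `|P| + |Q| > |K|`, then `P + Q` is the full coset `b + b' + K` (pigeonhole: for
`z` in it, `P` and `z - Q` are subsets of `b + K` with more than `|K|` elements together).
(1) If two of the `m` classes of a representation of the class of `y` are different, say those of `b, b'`, then
`B_b + B_b' = b + b' + K`; with any elements of `B` for the other `m - 2` classes, `y ∈ ms m B`: contradiction.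
(2) So every representation is constant: the class of `y` is `m • [b]`, `b ∈ B`, and `2 |B_b| ≤ |K|` (otherwise `B_b + B_b` is
the full coset, `m ≥ 2`).  Two different constant representations `[b], [b']` would give `|B_b| + |B_b'| ≤ |K|`, impossible.
(3) So the only multiset of `m` classes of `B` with sum `m • [b]` is the constant one; after translation by `-b` this is `UZ`.
(4) `y = m • b + (element of K)`; if every element of `K` were in `ms m (P - b)`, `P = B_b`, then `y ∈ ms m B`.
-/

set_option autoImplicit false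

open Finset
open scoped Pointwise

namespace Pool.Agent.HB

open Pool.Agent.Kneser

variable {G : Type*} [AddCommGroup G] [Fintype G] [DecidableEq G]

open Classical in
/-- The elements of `B` in the coset `c`. -/
private noncomputable def B2_F (K : AddSubgroup G) (B : Finset G) (c : G ⧸ K) : Finset G :=
  B.filter fun x => (QuotientAddGroup.mk x : G ⧸ K) = c

omit [Fintype G] [DecidableEq G] in
private theorem B2_mem {K : AddSubgroup G} {B : Finset G} {c : G ⧸ K} {x : G} :
    x ∈ B2_F K B c ↔ x ∈ B ∧ (QuotientAddGroup.mk x : G ⧸ K) = c := by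
  simp [B2_F]

private theorem B2_class (K : AddSubgroup G) (c : G ⧸ K) :
    (B2_F K univ c).card = (fs K).card := by
  obtain ⟨a, rfl⟩ := QuotientAddGroup.mk_surjective c
  symm
  apply Finset.card_bij (fun h _ => a + h)
  · intro h hh
    rw [B2_mem]
    refine ⟨mem_univ _, ?_⟩
    rw [eq_comm, QuotientAddGroup.eq]
    simpa using hh
  · intro x _ y _ h
    exact add_left_cancel h
  · intro x hx
    rw [B2_mem] at hx
    refine ⟨-a + x, ?_, by abel⟩
    rw [mem_fs, ← QuotientAddGroup.eq]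
    exact hx.2.symm

private theorem B2_le (K : AddSubgroup G) (B : Finset G) (c : G ⧸ K) :
    (B2_F K B c).card ≤ (fs K).card := by
  rw [← B2_class K c]
  apply card_le_card
  intro x hx
  rw [B2_mem] at hx ⊢
  exact ⟨mem_univ _, hx.2⟩

private theorem B2_sum (K : AddSubgroup G) (B : Finset G) :
    B.card = ∑ c ∈ qim K B, (B2_F K B c).card := by
  classical
  have h : ∀ x ∈ B, (QuotientAddGroup.mk x : G ⧸ K) ∈ qim K B := fun x hx =>
    mem_qim.2 ⟨x, hx, rfl⟩
  rw [Finset.card_eq_sum_card_fiberwise h]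
  refine sum_congr rfl fun c _ => ?_
  apply congrArg
  ext x
  rw [mem_filter, B2_mem]

private theorem B2_pair {K : AddSubgroup G} {B : Finset G} {c c' : G ⧸ K} (hc : c ∈ qim K B)
    (hc' : c' ∈ qim K B) (hne : c ≠ c') (hK : (B + fs K).card + 1 ≤ B.card + (fs K).card) :
    (fs K).card + 1 ≤ (B2_F K B c).card + (B2_F K B c').card := by
  classical
  have h1 := B2_sum K B
  have hc'2 : c' ∈ (qim K B).erase c := mem_erase.2 ⟨Ne.symm hne, hc'⟩
  rw [← add_sum_erase _ _ hc, ← add_sum_erase _ _ hc'2] at h1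
  have h2 : ∑ x ∈ ((qim K B).erase c).erase c', (B2_F K B x).card ≤
      (((qim K B).erase c).erase c').card * (fs K).card := by
    have h := Finset.sum_le_card_nsmul (((qim K B).erase c).erase c')
      (fun x => (B2_F K B x).card) (fs K).card (fun x _ => B2_le K B x)
    rwa [smul_eq_mul] at h
  have h3 : (((qim K B).erase c).erase c').card + 2 = (qim K B).card := by
    have h4 := card_erase_add_one hc'2
    have h5 := card_erase_add_one hc
    omega
  rw [card_add_fs, ← h3] at hK
  have h6 : ((((qim K B).erase c).erase c').card + 2) * (fs K).card =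
      (((qim K B).erase c).erase c').card * (fs K).card + 2 * (fs K).card := by ring
  omega

private theorem B2_full {K : AddSubgroup G} {P Q : Finset G} {c c' : G ⧸ K}
    (hP : ∀ x ∈ P, (QuotientAddGroup.mk x : G ⧸ K) = c)
    (hQ : ∀ x ∈ Q, (QuotientAddGroup.mk x : G ⧸ K) = c') (h : (fs K).card < P.card + Q.card)
    {z : G} (hz : (QuotientAddGroup.mk z : G ⧸ K) = c + c') : ∃ p ∈ P, ∃ q ∈ Q, p + q = z := by
  by_contra hcon
  push Not at hcon
  have hd : Disjoint P (Q.image fun q => z - q) := by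
    rw [Finset.disjoint_left]
    intro x hx hx2
    rw [mem_image] at hx2
    obtain ⟨q, hq, rfl⟩ := hx2
    exact hcon _ hx q hq (sub_add_cancel z q)
  have h1 : (Q.image fun q => z - q).card = Q.card :=
    card_image_of_injective _ fun a b hab => by simpa using hab
  have h2 : P ∪ (Q.image fun q => z - q) ⊆ B2_F K univ c := by
    intro x hx
    rw [B2_mem]
    refine ⟨mem_univ _, ?_⟩
    rw [mem_union] at hx
    rcases hx with hx | hx
    · exact hP x hx
    · rw [mem_image] at hx
      obtain ⟨q, hq, rfl⟩ := hx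
      rw [QuotientAddGroup.mk_sub, hz, hQ q hq, add_sub_cancel_right]
  have h3 := card_le_card h2
  rw [card_union_of_disjoint hd, h1, B2_class] at h3
  omega

private theorem B2_rep {K : AddSubgroup G} {B : Finset G} {m : ℕ} {y : G} (hy : y ∉ ms m B)
    {a a' : G ⧸ K} {t : Multiset (G ⧸ K)} (hcard : (a ::ₘ a' ::ₘ t).card = m)
    (hmem : ∀ x ∈ (a ::ₘ a' ::ₘ t), x ∈ qim K B)
    (hsum : (a ::ₘ a' ::ₘ t).sum = QuotientAddGroup.mk y) :
    (B2_F K B a).card + (B2_F K B a').card ≤ (fs K).card := by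
  by_contra hcon
  push Not at hcon
  apply hy
  have hex : ∀ c : G ⧸ K, ∃ x : G, c ∈ qim K B → x ∈ B ∧ (QuotientAddGroup.mk x : G ⧸ K) = c := by
    intro c
    by_cases hc : c ∈ qim K B
    · obtain ⟨x, hx, hxc⟩ := mem_qim.1 hc
      exact ⟨x, fun _ => ⟨hx, hxc⟩⟩
    · exact ⟨0, fun h => absurd h hc⟩
  choose g hg using hex
  have ht : ∀ c ∈ t, c ∈ qim K B := fun c hc =>
    hmem c (Multiset.mem_cons_of_mem (Multiset.mem_cons_of_mem hc))
  have h1 : (QuotientAddGroup.mk (t.map g).sum : G ⧸ K) = t.sum := by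
    have h2 := map_multiset_sum (QuotientAddGroup.mk' K) (t.map g)
    rw [Multiset.map_map] at h2
    have h3 : t.map (QuotientAddGroup.mk' K ∘ g) = t := by
      conv_rhs => rw [← Multiset.map_id t]
      refine Multiset.map_congr rfl fun c hc => ?_
      exact (hg c (ht c hc)).2
    rw [h3] at h2
    exact h2
  have hz : (QuotientAddGroup.mk (y - (t.map g).sum) : G ⧸ K) = a + a' := by
    rw [QuotientAddGroup.mk_sub, h1, ← hsum, Multiset.sum_cons, Multiset.sum_cons]
    abel
  obtain ⟨p, hp, q, hq, hpq⟩ := B2_full (fun x hx => (B2_mem.1 hx).2) (fun x hx => (B2_mem.1 hx).2)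
    hcon hz
  rw [mem_ms]
  refine ⟨p ::ₘ q ::ₘ t.map g, ?_, ?_, ?_⟩
  · rw [Multiset.card_cons, Multiset.card_cons, Multiset.card_map]
    rw [Multiset.card_cons, Multiset.card_cons] at hcard
    exact hcard
  · intro x hx
    rw [Multiset.mem_cons, Multiset.mem_cons] at hx
    rcases hx with rfl | rfl | hx
    · exact (B2_mem.1 hp).1
    · exact (B2_mem.1 hq).1
    · obtain ⟨c, hc, rfl⟩ := Multiset.mem_map.1 hx
      exact (hg c (ht c hc)).1
  · rw [Multiset.sum_cons, Multiset.sum_cons, ← add_assoc, hpq, sub_add_cancel]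

theorem poor_coset {B : Finset G} {K : AddSubgroup G} {m : ℕ} (hm : 2 ≤ m)
    [Fintype (G ⧸ K)] [DecidableEq (G ⧸ K)]
    (hK : (B + fs K).card + 1 ≤ B.card + (fs K).card)
    (h1 : ms m (qim K B) = univ) (h2 : ms m B ≠ univ) :
    ∃ b ∈ B, UZ m (qim K (B + {-b})) ∧
      ∃ P : Finset K, (0 : K) ∈ P ∧ (∀ x : K, x ∈ P ↔ (x : G) ∈ B + {-b}) ∧
        ∃ y : K, ¬ ∃ s : Multiset K, s.card = m ∧ (∀ x ∈ s, x ∈ P) ∧ s.sum = y := by
  classical
  obtain ⟨y, hy⟩ : ∃ y, y ∉ ms m B := by
    by_contra hcon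
    push Not at hcon
    exact h2 (eq_univ_iff_forall.2 hcon)
  have hy1 : (QuotientAddGroup.mk y : G ⧸ K) ∈ ms m (qim K B) := by
    rw [h1]
    exact mem_univ _
  obtain ⟨s, hs1, hs2, hs3⟩ := mem_ms.1 hy1
  -- every representation is constant and poor
  have key : ∀ s : Multiset (G ⧸ K), s.card = m → (∀ x ∈ s, x ∈ qim K B) →
      s.sum = QuotientAddGroup.mk y → ∀ a ∈ s, ∀ a' ∈ s, a = a' ∧
        2 * (B2_F K B a).card ≤ (fs K).card := by
    intro s hs1 hs2 hs3
    have hall : ∀ a ∈ s, ∀ a' ∈ s, a = a' := by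
      intro a ha a' ha'
      by_contra hne
      obtain ⟨t, ht⟩ := Multiset.exists_cons_of_mem ha
      rw [ht, Multiset.mem_cons] at ha'
      rcases ha' with ha' | ha'
      · exact hne ha'.symm
      · obtain ⟨u, hu⟩ := Multiset.exists_cons_of_mem ha'
        rw [hu] at ht
        rw [ht] at hs1 hs2 hs3
        have h3 := B2_rep hy hs1 hs2 hs3
        have h4 := B2_pair (hs2 a (Multiset.mem_cons_self _ _))
          (hs2 a' (Multiset.mem_cons_of_mem (Multiset.mem_cons_self _ _))) hne hK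
        omega
    intro a ha a' ha'
    refine ⟨hall a ha a' ha', ?_⟩
    have hs4 : s = Multiset.replicate m a := by
      rw [Multiset.eq_replicate]
      exact ⟨hs1, fun b hb => hall b hb a ha⟩
    obtain ⟨k, rfl⟩ := Nat.exists_eq_add_of_le hm
    have hs5 : s = a ::ₘ a ::ₘ Multiset.replicate k a := by
      rw [hs4, show 2 + k = (k + 1) + 1 by ring, Multiset.replicate_succ, Multiset.replicate_succ]
    rw [hs5] at hs1 hs2 hs3
    have h3 := B2_rep hy hs1 hs2 hs3
    omega
  obtain ⟨c, hc⟩ : ∃ c, c ∈ s := by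
    apply Multiset.card_pos_iff_exists_mem.1
    omega
  obtain ⟨b, hb, hbc⟩ := mem_qim.1 (hs2 c hc)
  have hcp : 2 * (B2_F K B c).card ≤ (fs K).card := (key s hs1 hs2 hs3 c hc c hc).2
  have hsc : s = Multiset.replicate m c := by
    rw [Multiset.eq_replicate]
    exact ⟨hs1, fun x hx => (key s hs1 hs2 hs3 x hx c hc).1⟩
  have hyc : (QuotientAddGroup.mk y : G ⧸ K) = m • c := by
    rw [← hs3, hsc, Multiset.sum_replicate]
  have hBb : ∀ x : G, x ∈ B + {-b} ↔ x + b ∈ B := by
    intro x
    rw [mem_add]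
    constructor
    · rintro ⟨x1, h3, x2, h4, rfl⟩
      rw [mem_singleton.1 h4, neg_add_cancel_right]
      exact h3
    · intro h3
      exact ⟨x + b, h3, -b, mem_singleton_self _, add_neg_cancel_right x b⟩
  refine ⟨b, hb, ?_, univ.filter (fun x : K => (x : G) ∈ B + {-b}), ?_, ?_, ?_⟩
  · intro r hr1 hr2 hr3 x hx
    have h3 : (r.map fun z => z + c).sum = QuotientAddGroup.mk y := by
      rw [Multiset.sum_map_add, Multiset.map_id', hr3, Multiset.map_const', Multiset.sum_replicate,
        hr1, zero_add, hyc]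
    have h4 : ∀ z ∈ (r.map fun z => z + c), z ∈ qim K B := by
      intro z hz
      obtain ⟨z', hz', rfl⟩ := Multiset.mem_map.1 hz
      obtain ⟨g, hg, hgz⟩ := mem_qim.1 (hr2 z' hz')
      rw [mem_qim]
      refine ⟨g + b, (hBb g).1 hg, ?_⟩
      rw [QuotientAddGroup.mk_add, hgz, hbc]
    have h5 : (r.map fun z => z + c).card = m := by
      rw [Multiset.card_map, hr1]
    have h6 : x + c ∈ (r.map fun z => z + c) := Multiset.mem_map_of_mem _ hx
    have h7 := (key _ h5 h4 h3 _ h6 _ h6).2
    by_contra hx0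
    have h8 : x + c ≠ c := by
      intro h9
      exact hx0 (by simpa using h9)
    have h9 := B2_pair (h4 _ h6) (hs2 c hc) h8 hK
    omega
  · rw [mem_filter]
    refine ⟨mem_univ _, ?_⟩
    rw [hBb]
    simpa using hb
  · intro x
    rw [mem_filter]
    simp
  · have hyK : y - m • b ∈ K := by
      rw [← QuotientAddGroup.eq_zero_iff, QuotientAddGroup.mk_sub, hyc, ← hbc]
      rw [QuotientAddGroup.mk_nsmul, sub_self]
    refine ⟨⟨y - m • b, hyK⟩, ?_⟩
    rintro ⟨r, hr1, hr2, hr3⟩
    apply hy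
    rw [mem_ms]
    refine ⟨r.map fun x : K => (x : G) + b, by rw [Multiset.card_map, hr1], ?_, ?_⟩
    · intro z hz
      obtain ⟨z', hz', rfl⟩ := Multiset.mem_map.1 hz
      exact (hBb _).1 (mem_filter.1 (hr2 z' hz')).2
    · have h3 : (r.map fun x : K => (x : G)).sum = y - m • b := by
        have h4 := map_multiset_sum K.subtype r
        rw [hr3] at h4
        exact h4.symm
      rw [Multiset.sum_map_add, h3, Multiset.map_const', Multiset.sum_replicate, hr1]
      abel

/-- The number of elements of `B` in terms of its poorest coset. -/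
theorem card_le_poor {B : Finset G} {K : AddSubgroup G} (b : G) (hb : b ∈ B) {P : Finset K}
    (hP : ∀ x : K, x ∈ P ↔ (x : G) ∈ B + {-b}) :
    B.card + (fs K).card ≤ (qim K B).card * (fs K).card + P.card := by
  classical
  have hBb : ∀ x : G, x ∈ B + {-b} ↔ x + b ∈ B := by
    intro x
    rw [mem_add]
    constructor
    · rintro ⟨x1, h3, x2, h4, rfl⟩
      rw [mem_singleton.1 h4, neg_add_cancel_right]
      exact h3
    · intro h3
      exact ⟨x + b, h3, -b, mem_singleton_self _, add_neg_cancel_right x b⟩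
  have hc : (QuotientAddGroup.mk b : G ⧸ K) ∈ qim K B := mem_qim.2 ⟨b, hb, rfl⟩
  have h1 := B2_sum K B
  rw [← add_sum_erase _ _ hc] at h1
  have h2 : ∑ x ∈ (qim K B).erase (QuotientAddGroup.mk b), (B2_F K B x).card ≤
      ((qim K B).erase (QuotientAddGroup.mk b)).card * (fs K).card := by
    have h := Finset.sum_le_card_nsmul ((qim K B).erase (QuotientAddGroup.mk b))
      (fun x => (B2_F K B x).card) (fs K).card (fun x _ => B2_le K B x)
    rwa [smul_eq_mul] at h
  have h3 := card_erase_add_one hc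
  have h4 : (B2_F K B (QuotientAddGroup.mk b)).card = P.card := by
    symm
    apply Finset.card_bij (fun (x : K) _ => (x : G) + b)
    · intro x hx
      rw [B2_mem]
      refine ⟨(hBb _).1 ((hP x).1 hx), ?_⟩
      rw [eq_comm, QuotientAddGroup.eq]
      have h5 : -b + ((x : G) + b) = x := by abel
      rw [h5]
      exact x.2
    · intro x _ x' _ h
      exact Subtype.ext (add_right_cancel h)
    · intro z hz
      rw [B2_mem] at hz
      have h5 : z - b ∈ K := by
        have h6 := QuotientAddGroup.eq.1 hz.2.symm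
        have h7 : z - b = -b + z := by abel
        rw [h7]
        exact h6
      refine ⟨⟨z - b, h5⟩, ?_, sub_add_cancel z b⟩
      rw [hP, hBb]
      show z - b + b ∈ B
      rw [sub_add_cancel]
      exact hz.1
  rw [← h3]
  have h6 : (((qim K B).erase (QuotientAddGroup.mk b)).card + 1) * (fs K).card =
      ((qim K B).erase (QuotientAddGroup.mk b)).card * (fs K).card + (fs K).card := by ring
  omega

end Pool.Agent.HB
end

section

/-!
# TASK HB B1: growth of the iterated sumset (Kneser, Scherk)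

PROOFS.
* `kneser_aper`: `kneser` for `A + B` with trivial stabiliser (`fs ⊥ = {0}`).
* `ms_growth`: `ms (j + 1) B = ms j B + B` has trivial stabiliser (`stab_ms_mono`), `kneser_aper`.
* `scherk`: `H = stab (A + B)`, `A0 = A ∩ (a0 + H)`, `B0 = B ∩ (b0 + H)`.  The maps `a ↦ a - a0` and `b ↦ b0 - b` embed `A0` and
  `B0` into `fs H`; a common value `v = a - a0 = b0 - b` gives `a + b = a0 + b0`, so `a = a0`, `v = 0`: `|A0| + |B0| ≤ |H| + 1`.
  `|A + fs H| ≥ |A \ A0| + |a0 + H| = |A| - |A0| + |H|`, the same for `B`.  `kneser`: `|A + B| ≥ |A + fs H| + |B + fs H| - |H| ≥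
  |A| + |B| - |A0| - |B0| + |H| ≥ |A| + |B| - 1`.
* `ms_growth_unique`: `0 ∈ ms j C`, `0 ∈ C`; if `a + b = 0` with `a ∈ ms j C`, `b ∈ C`, then (`mem_ms`) `a` is the sum of a
  multiset `s` of `j` elements; `b ::ₘ s` padded by `m - j - 1` zeros is a multiset of `m` elements with sum `0`, so all its
  elements are `0`: `b = 0`, `a = 0`.  `scherk` with `a0 = b0 = 0`.
* `exists_critical`: otherwise `c (j + 1) ≥ c j + l + 1` for `1 ≤ j ≤ m - 2`, so `c (m - 1) ≥ (m - 1) (l + 1)` and
  `c m ≥ (m - 1) (l + 1) + l = m (l + 1) - 1`.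
-/

set_option autoImplicit false

open Finset
open scoped Pointwise

namespace Pool.Agent.HB

open Pool.Agent.Kneser

variable {G : Type*} [AddCommGroup G] [Fintype G] [DecidableEq G]

theorem kneser_aper {A B : Finset G} (hA : A.Nonempty) (hB : B.Nonempty)
    (h : stab (A + B) = ⊥) : A.card + B.card ≤ (A + B).card + 1 := by
  have hk := kneser A B hA hB
  have hf : fs (⊥ : AddSubgroup G) = {0} := by
    ext x
    simp
  rw [h, hf] at hk
  simpa using hk

theorem ms_growth {B : Finset G} (hB : B.Nonempty) {m : ℕ} (h : stab (ms m B) = ⊥) {j : ℕ}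
    (hj : j < m) : (ms j B).card + B.card ≤ (ms (j + 1) B).card + 1 := by
  rw [ms_succ]
  apply kneser_aper (ms_nonempty hB j) hB
  rw [← ms_succ]
  have h1 := stab_ms_mono B (show j + 1 ≤ m from hj)
  rw [h] at h1
  exact le_bot_iff.1 h1

private theorem B1_aux (A : Finset G) (a0 : G) (ha : a0 ∈ A) (H : AddSubgroup G) :
    A.card + (fs H).card ≤ (A + fs H).card + (A.filter (fun a => a - a0 ∈ fs H)).card := by
  have h1 : A.filter (fun a => ¬ a - a0 ∈ fs H) ∪ (fs H).image (fun v => a0 + v) ⊆ A + fs H := by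
    intro x hx
    rw [mem_union, mem_filter, mem_image] at hx
    rcases hx with ⟨hx, -⟩ | ⟨v, hv, rfl⟩
    · have := Finset.add_mem_add hx (show (0 : G) ∈ fs H by simp)
      simpa using this
    · exact Finset.add_mem_add ha hv
  have h2 : Disjoint (A.filter (fun a => ¬ a - a0 ∈ fs H)) ((fs H).image (fun v => a0 + v)) := by
    rw [Finset.disjoint_left]
    intro x hx hx'
    rw [mem_filter] at hx
    rw [mem_image] at hx'
    obtain ⟨v, hv, rfl⟩ := hx'
    apply hx.2
    simpa using hv
  have h3 := Finset.card_le_card h1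
  rw [Finset.card_union_of_disjoint h2, Finset.card_image_of_injective _ (add_right_injective a0)] at h3
  have h4 := Finset.card_filter_add_card_filter_not (s := A) (fun a => a - a0 ∈ fs H)
  omega

theorem scherk {A B : Finset G} {a0 b0 : G} (ha : a0 ∈ A) (hb : b0 ∈ B)
    (h : ∀ a ∈ A, ∀ b ∈ B, a + b = a0 + b0 → a = a0) : A.card + B.card ≤ (A + B).card + 1 := by
  have hk := kneser A B ⟨a0, ha⟩ ⟨b0, hb⟩
  have h1 := B1_aux A a0 ha (stab (A + B))
  have h2 := B1_aux B b0 hb (stab (A + B))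
  have h3 : (A.filter (fun a => a - a0 ∈ fs (stab (A + B)))).card +
      (B.filter (fun b => b - b0 ∈ fs (stab (A + B)))).card ≤ (fs (stab (A + B))).card + 1 := by
    generalize stab (A + B) = H
    have e1 : ((A.filter (fun a => a - a0 ∈ fs H)).image (fun a => a - a0)).card =
        (A.filter (fun a => a - a0 ∈ fs H)).card :=
      Finset.card_image_of_injective _ (fun x y hxy => by simpa using hxy)
    have e2 : ((B.filter (fun b => b - b0 ∈ fs H)).image (fun b => b0 - b)).card =
        (B.filter (fun b => b - b0 ∈ fs H)).card :=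
      Finset.card_image_of_injective _ (fun x y hxy => by simpa using hxy)
    have e3 : (A.filter (fun a => a - a0 ∈ fs H)).image (fun a => a - a0) ∪
        (B.filter (fun b => b - b0 ∈ fs H)).image (fun b => b0 - b) ⊆ fs H := by
      intro x hx
      rw [mem_union, mem_image, mem_image] at hx
      rcases hx with ⟨a, ha', rfl⟩ | ⟨b, hb', rfl⟩
      · exact (mem_filter.1 ha').2
      · have := (mem_filter.1 hb').2
        rw [mem_fs] at this ⊢
        have h5 := H.neg_mem this
        rwa [neg_sub] at h5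
    have e4 : (A.filter (fun a => a - a0 ∈ fs H)).image (fun a => a - a0) ∩
        (B.filter (fun b => b - b0 ∈ fs H)).image (fun b => b0 - b) ⊆ {0} := by
      intro x hx
      rw [mem_inter, mem_image, mem_image] at hx
      obtain ⟨⟨a, ha', rfl⟩, b, hb', hab⟩ := hx
      have h6 : a + b = a0 + b0 := by
        have h7 : a = a0 + (b0 - b) := by rw [hab]; abel
        rw [h7]; abel
      have h8 := h a (mem_filter.1 ha').1 b (mem_filter.1 hb').1 h6
      rw [mem_singleton, h8, sub_self]
    have e5 := Finset.card_union_add_card_inter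
      ((A.filter (fun a => a - a0 ∈ fs H)).image (fun a => a - a0))
      ((B.filter (fun b => b - b0 ∈ fs H)).image (fun b => b0 - b))
    have e6 := Finset.card_le_card e3
    have e7 := Finset.card_le_card e4
    rw [Finset.card_singleton] at e7
    omega
  omega

theorem ms_growth_unique {C : Finset G} {m : ℕ} (h0 : (0 : G) ∈ C) (h : UZ m C) {j : ℕ}
    (hj : j < m) : (ms j C).card + C.card ≤ (ms (j + 1) C).card + 1 := by
  rw [ms_succ]
  have h1 : (0 : G) ∈ ms j C := by
    rw [mem_ms]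
    refine ⟨Multiset.replicate j 0, by simp, ?_, by simp⟩
    intro y hy
    rw [Multiset.eq_of_mem_replicate hy]
    exact h0
  apply scherk h1 h0
  intro a ha b hb hab
  rw [add_zero] at hab
  obtain ⟨s, hs1, hs2, hs3⟩ := mem_ms.1 ha
  have h2 := h (b ::ₘ s + Multiset.replicate (m - j - 1) 0) (by simp [hs1]; omega) (by
    intro x hx
    rw [Multiset.mem_add, Multiset.mem_cons] at hx
    rcases hx with (rfl | hx) | hx
    · exact hb
    · exact hs2 x hx
    · rw [Multiset.eq_of_mem_replicate hx]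
      exact h0) (by
    simp only [Multiset.sum_add, Multiset.sum_cons, hs3, Multiset.sum_replicate, smul_zero, add_zero]
    rw [add_comm]
    exact hab) b (by simp)
  rw [h2, add_zero] at hab
  exact hab

theorem exists_critical {c : ℕ → ℕ} {l m : ℕ} (hm : 3 ≤ m) (h1 : c 1 = l + 1)
    (h : ∀ j, 1 ≤ j → j < m → c j + l ≤ c (j + 1)) (hN : c m + 2 ≤ m * (l + 1)) :
    ∃ j, 1 ≤ j ∧ j + 2 ≤ m ∧ c (j + 1) = c j + l := by
  by_contra hcon
  push Not at hcon
  have key : ∀ j, 1 ≤ j → j + 1 ≤ m → j * (l + 1) ≤ c j := by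
    intro j hj
    induction j, hj using Nat.le_induction with
    | base =>
      intro _
      rw [h1, one_mul]
    | succ k hk ih =>
      intro hk2
      have a1 := ih (by omega)
      have a2 := hcon k hk (by omega)
      have a3 := h k hk (by omega)
      have a4 : (k + 1) * (l + 1) = k * (l + 1) + (l + 1) := by ring
      omega
  have b1 := key (m - 1) (by omega) (by omega)
  have b2 := h (m - 1) (by omega) (by omega)
  have b3 : m - 1 + 1 = m := by omega
  rw [b3] at b2
  have b4 : m * (l + 1) = (m - 1) * (l + 1) + (l + 1) := by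
    obtain ⟨k, rfl⟩ : ∃ k, m = k + 1 := ⟨m - 1, by omega⟩
    rw [Nat.add_sub_cancel]
    ring
  omega

end Pool.Agent.HB
end
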