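import Pool.Agent.Lib.MP_249d2a_co.HB.Defs
import Pool.Agent.Lib.MP_249d2a_co.Mg.G001

section

/-!
# Campaign HB: the hypotheses of the upper bound

`A` has `n + m` elements and `s = ∑ A` is not a sum of `m` distinct elements; `A'` is `A` without
the few elements `a` for which `2 a` has few representations.
-/

set_option autoImplicit false

open Finset
open scoped Pointwise

namespace Pool.Agent.HB

/-- The situation of the upper bound. -/
structure Upp (q n m : ℕ) {G : Type*} [AddCommGroup G] [Fintype G] [DecidableEq G]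
    (A A' : Finset G) : Prop where
  q4 : 4 ≤ q
  n1 : 1 ≤ n
  cardG : Fintype.card G = q * n
  exp : ∀ x : G, n • x = 0
  dbl : ∀ g : G, (univ.filter fun x : G => x + x = g).card ≤ 4
  m1 : q + 1 ≤ m
  m2 : m ≤ 2 * q
  cardA : A.card = n + m
  sub : A' ⊆ A
  rep : ∀ a ∈ A', 4 + 2 * m < ((A ×ˢ A).filter fun p => p.1 + p.2 = a + a).card
  big : (8 * q ^ 3 - 1) * n ≤ 8 * q ^ 3 * A'.card
  no : ¬ RS m A (∑ x ∈ A, x)

end Pool.Agent.HB
end

section

/-!
# TASK HB D2: A' generates the group affinely

PROOF of `agen_of_upp`.  Let `x0 ∈ A'` (`A'` is nonempty by `big`), `K0 = closure {x - y : x, y ∈ A'}` (or any subgroup with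
`∀ x y ∈ A', x - y ∈ K0` which is contained in every other such subgroup).  If `K0 = ⊤` we are done: a subgroup as in the definition of
`AGen` contains `K0`.  Suppose `K0 ≠ ⊤`; `N0 = K0.index ≥ 2`, `k = |fs K0|`, `N0 k = q n` (`index_mul_card_fs`).  `A' ⊆ {x0} + fs K0`, so
`|A'| ≤ k` and `N0 ≤ q` by `num4`.
Let `F = A.filter (x - x0 ∉ K0)`, `f x = mk (x - x0) ∈ G ⧸ K0`, and `J ⊆ F` from `exists_small_sum` (in `Q = G ⧸ K0`, of order `N0`):
`|J| + 1 ≤ N0`, `∑_J f = ∑_F f`.  `J` is disjoint from `A'`.  `m' = m - |J|`: `m' + N0 ≥ q + 2`, `m' ≥ 2`, and `m' N0 ≥ q + 1` (`num3`).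
(a) `s - ∑ J ∈ {m' x0} + fs K0` where `s = ∑ A`: in `G ⧸ K0`, `mk s = ∑_{x ∈ A} (f x + mk x0) = ∑_F f + (n + m) mk x0` (`f x = 0` for `x ∉ F`)
`= ∑_J f + m mk x0 = mk (∑ J) - |J| mk x0 + m mk x0 = mk (∑ J) + m' mk x0`, using `n • x0 = 0`.
(b) If `ms m' A' = {m' x0} + fs K0` then `s - ∑ J ∈ ms m' A'` and `lemmaR2` (`U = J`, `j = m'`) gives `RS m A s`: contradiction to `no`.
(c) So `ms m' A' ≠ {m' x0} + fs K0`; `⊆` holds (`mem_ms`, or induction).  `H = stab (ms m' A')`, `h = |fs H|`.  `H ≤ K0`: `y ∈ ms m' A'`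
(`ms_nonempty`) and `g + y` are both in the coset.  `h ∣ k` (`AddSubgroup.card_dvd_of_le`, `fs_card_eq`): `k = N h`, so `N0 N h = q n`.
`a = |qim H A'|`; `|A'| ≤ |A' + fs H| = a h` (`card_add_fs`).
Kneser for `m'` copies of `A'` (`kneser_quot` with `s = range m'`; `ms m' A'` is by definition that sum):
`m' (a - 1) + 1 ≤ |qim H (ms m' A')|`; and `|ms m' A'| = |qim H (ms m' A')| h < k = N h` (`card_add_fs`, `add_fs_stab`, proper subset of the coset,
which has `k` elements), so `m' (a - 1) + 2 ≤ N`.
`a ≥ 2`: `a ≥ 1` since `A'` is nonempty; if `a = 1`, all differences of elements of `A'` are in `H`, so `K0 ≤ H`, and `ms m' A'`, nonempty and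
`H`-periodic, is the whole coset, contradiction.
`num1` (`c = |A'|`, `m := m'`): `N0 N ≤ a q`.  `num2`: `False`.

PROOF of `numbers_of_upp`.  `A'` nonempty by `big`.  If `ms m A' = univ` then `∑ A ∈ ms m A'` and `lemmaR2` with `U = ∅`, `j = m` contradicts `no`.
-/

set_option autoImplicit false

open Finset
open scoped Pointwise

namespace Pool.Agent.HB

open Pool.Agent.Kneser

variable {G : Type*} [AddCommGroup G] [Fintype G] [DecidableEq G]

private theorem D2_nonempty {q n m : ℕ} {A A' : Finset G} (h : Upp q n m A A') :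
    A'.Nonempty := by
  rw [Finset.nonempty_iff_ne_empty]
  rintro rfl
  have hb := h.big
  rw [Finset.card_empty, mul_zero] at hb
  have hq := h.q4
  have hn := h.n1
  have h1 : 1 ≤ q ^ 3 := Nat.one_le_pow _ _ (by omega)
  have h2 : 0 < (8 * q ^ 3 - 1) * n := Nat.mul_pos (by omega) (by omega)
  omega

omit [Fintype G] in
private theorem D2_sub_coset {A' : Finset G} {K : AddSubgroup G} {x0 : G}
    (hK : ∀ x ∈ A', x - x0 ∈ K) (j : ℕ) : ∀ y ∈ ms j A', y - j • x0 ∈ K := by
  induction j with
  | zero =>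
    intro y hy
    rw [ms_zero, mem_singleton] at hy
    subst hy
    simp
  | succ j ih =>
    intro y hy
    rw [ms_succ, mem_add] at hy
    obtain ⟨a, ha, b, hb, rfl⟩ := hy
    have h1 := ih a ha
    have h2 := hK b hb
    have e : a + b - (j + 1) • x0 = (a - j • x0) + (b - x0) := by
      rw [succ_nsmul]; abel
    rw [e]
    exact K.add_mem h1 h2

theorem agen_of_upp {q n m : ℕ} {A A' : Finset G} (h : Upp q n m A A') : AGen A' := by
  classical
  have hq := h.q4
  have hn := h.n1
  have hm1 := h.m1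
  have hm2 := h.m2
  obtain ⟨x0, hx0⟩ := D2_nonempty h
  intro K hK
  by_contra hKtop
  obtain ⟨K0, hK0, hmin⟩ : ∃ K0 : AddSubgroup G, (∀ x ∈ A', ∀ y ∈ A', x - y ∈ K0) ∧
      ∀ L : AddSubgroup G, (∀ x ∈ A', ∀ y ∈ A', x - y ∈ L) → K0 ≤ L := by
    refine ⟨AddSubgroup.closure {z | ∃ x ∈ A', ∃ y ∈ A', x - y = z}, ?_, ?_⟩
    · intro x hx y hy
      exact AddSubgroup.subset_closure ⟨x, hx, y, hy, rfl⟩
    · intro L hL
      rw [AddSubgroup.closure_le]
      rintro z ⟨x, hx, y, hy, rfl⟩
      exact hL x hx y hy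
  have hK0top : K0 ≠ ⊤ := by
    rintro rfl
    exact hKtop (top_le_iff.1 (hmin K hK))
  have hG : K0.index * (fs K0).card = q * n := by
    rw [index_mul_card_fs, h.cardG]
  have hqn : 0 < q * n := Nat.mul_pos (by omega) (by omega)
  have hN1 : K0.index ≠ 1 := fun e => hK0top (AddSubgroup.index_eq_one.1 e)
  have hN0' : K0.index ≠ 0 := by
    intro e
    rw [e, zero_mul] at hG
    omega
  have hN2 : 2 ≤ K0.index := by omega
  have hc : A'.card ≤ (fs K0).card := by
    apply Finset.card_le_card_of_injOn (fun x => x - x0)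
    · intro x hx
      simp only [mem_coe, mem_fs]
      exact hK0 x hx x0 hx0
    · intro x _ y _ hxy
      exact sub_left_injective hxy
  have hNq : K0.index ≤ q := num4 hq hn hG hc h.big
  -- the small set `J`
  set F := A.filter (fun x => x - x0 ∉ K0) with hF
  obtain ⟨J, hJF, hJ1, hJ2⟩ := exists_small_sum F
    (fun x => (QuotientAddGroup.mk (x - x0) : G ⧸ K0))
  have hcard : Fintype.card (G ⧸ K0) = K0.index := by
    rw [AddSubgroup.index, Nat.card_eq_fintype_card]
  rw [hcard] at hJ1
  have hJA : J ⊆ A := fun x hx => (mem_filter.1 (hJF hx)).1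
  have hJd : Disjoint J A' := by
    rw [Finset.disjoint_left]
    intro x hx hx'
    exact (mem_filter.1 (hJF hx)).2 (hK0 x hx' x0 hx0)
  obtain ⟨m', hm'⟩ : ∃ m', J.card + m' = m := ⟨m - J.card, by omega⟩
  have hmm : q + 2 ≤ m' + K0.index := by omega
  have hm3 := num3 (by omega) hNq hmm
  -- (a)
  have ha : (∑ x ∈ A, x) - (∑ x ∈ J, x) - m' • x0 ∈ K0 := by
    have e1 : ∑ x ∈ A, (x - x0) = (∑ x ∈ A, x) - m • x0 := by
      rw [Finset.sum_sub_distrib, Finset.sum_const, h.cardA, add_nsmul, h.exp, zero_add]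
    have e2 : ∑ x ∈ J, (x - x0) = (∑ x ∈ J, x) - J.card • x0 := by
      rw [Finset.sum_sub_distrib, Finset.sum_const]
    have e3 : ∑ x ∈ A, (x - x0) = ∑ x ∈ F, (x - x0) +
        ∑ x ∈ A.filter (fun x => ¬ (x - x0 ∉ K0)), (x - x0) :=
      (Finset.sum_filter_add_sum_filter_not A (fun x => x - x0 ∉ K0) _).symm
    have e4 : ∑ x ∈ A.filter (fun x => ¬ (x - x0 ∉ K0)), (x - x0) ∈ K0 := by
      apply AddSubgroup.sum_mem
      intro x hx
      exact not_not.1 (mem_filter.1 hx).2
    have e5 : ∑ x ∈ F, (x - x0) - ∑ x ∈ J, (x - x0) ∈ K0 := by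
      have e6 : (QuotientAddGroup.mk' K0) (∑ x ∈ J, (x - x0)) =
          (QuotientAddGroup.mk' K0) (∑ x ∈ F, (x - x0)) := by
        rw [map_sum, map_sum]
        exact hJ2
      have e7 : -(∑ x ∈ J, (x - x0)) + ∑ x ∈ F, (x - x0) ∈ K0 :=
        QuotientAddGroup.eq.1 e6
      rwa [neg_add_eq_sub] at e7
    have e8 : (∑ x ∈ A, x) - (∑ x ∈ J, x) - m' • x0 =
        (∑ x ∈ F, (x - x0) - ∑ x ∈ J, (x - x0)) +
        ∑ x ∈ A.filter (fun x => ¬ (x - x0 ∉ K0)), (x - x0) := by
      have e9 : m • x0 = J.card • x0 + m' • x0 := by rw [← hm', add_nsmul]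
      have e10 : (∑ x ∈ F, (x - x0) - ∑ x ∈ J, (x - x0)) +
          ∑ x ∈ A.filter (fun x => ¬ (x - x0 ∉ K0)), (x - x0) =
          ∑ x ∈ A, (x - x0) - ∑ x ∈ J, (x - x0) := by
        rw [e3]; abel
      rw [e10, e1, e2, e9]
      abel
    rw [e8]
    exact K0.add_mem e5 e4
  -- (b)
  have hnot : ¬ ∀ y, y - m' • x0 ∈ K0 → y ∈ ms m' A' := by
    intro hall
    have h1 := hall _ ha
    have h2 := lemmaR2 h.sub h.rep h.dbl hJA hJd hm' h1
    apply h.no
    have e : ∑ x ∈ J, x + (∑ x ∈ A, x - ∑ x ∈ J, x) = ∑ x ∈ A, x := by abel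
    rwa [e] at h2
  -- (c)
  have hsub := D2_sub_coset (K := K0) (fun x hx => hK0 x hx x0 hx0) m'
  set T := ms m' A' with hT
  have hTne : T.Nonempty := ms_nonempty ⟨x0, hx0⟩ m'
  obtain ⟨t, ht⟩ := hTne
  have hHK : stab T ≤ K0 := by
    intro g hg
    have h1 := hsub t ht
    have h2 := hsub (g + t) ((hg t).2 ht)
    have e : g = (g + t - m' • x0) - (t - m' • x0) := by abel
    rw [e]
    exact K0.sub_mem h2 h1
  obtain ⟨N, hN⟩ : (fs (stab T)).card ∣ (fs K0).card := by
    rw [fs_card_eq, fs_card_eq]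
    exact AddSubgroup.card_dvd_of_le hHK
  have hTcard : T.card = (qim (stab T) T).card * (fs (stab T)).card := by
    rw [← card_add_fs, add_fs_stab _ _ le_rfl]
  have hTlt : T.card < (fs K0).card := by
    have himg : (T.image (fun y => y - m' • x0)) ⊂ fs K0 := by
      rw [Finset.ssubset_iff_subset_ne]
      constructor
      · intro z hz
        obtain ⟨y, hy, rfl⟩ := mem_image.1 hz
        rw [mem_fs]
        exact hsub y hy
      · intro e
        apply hnot
        intro y hy
        have h1 : y - m' • x0 ∈ T.image (fun y => y - m' • x0) := by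
          rw [e, mem_fs]
          exact hy
        obtain ⟨y', hy', e'⟩ := mem_image.1 h1
        have : y' = y := sub_left_injective e'
        rwa [← this]
    have h1 := Finset.card_lt_card himg
    rwa [Finset.card_image_of_injective _ sub_left_injective] at h1
  have hpos := fs_card_pos (stab T)
  have hqN : (qim (stab T) T).card < N := by
    rw [hTcard, hN, mul_comm (fs (stab T)).card N] at hTlt
    exact Nat.lt_of_mul_lt_mul_right hTlt
  have hkn : ∑ _i ∈ range m', ((qim (stab T) A').card - 1) + 1 ≤ (qim (stab T) T).card :=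
    kneser_quot (range m') (fun _ => A') (fun _ _ => ⟨x0, hx0⟩)
  rw [Finset.sum_const, card_range, smul_eq_mul] at hkn
  have hK' : m' * ((qim (stab T) A').card - 1) + 2 ≤ N := by omega
  have ha1 : 1 ≤ (qim (stab T) A').card := Finset.card_pos.2 (qim_nonempty ⟨x0, hx0⟩)
  have ha2 : 2 ≤ (qim (stab T) A').card := by
    by_contra hlt
    have h1 : (qim (stab T) A').card = 1 := by omega
    obtain ⟨z, hz⟩ := Finset.card_eq_one.1 h1
    have h2 : K0 ≤ stab T := by
      apply hmin
      intro x hx y hy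
      have hx1 : (x : G ⧸ stab T) ∈ qim (stab T) A' := mem_qim.2 ⟨x, hx, rfl⟩
      have hy1 : (y : G ⧸ stab T) ∈ qim (stab T) A' := mem_qim.2 ⟨y, hy, rfl⟩
      rw [hz, mem_singleton] at hx1 hy1
      have h3 : (y : G ⧸ stab T) = (x : G ⧸ stab T) := hy1.trans hx1.symm
      have h4 := QuotientAddGroup.eq.1 h3
      rwa [neg_add_eq_sub] at h4
    apply hnot
    intro y hy
    have h3 : y - t ∈ K0 := by
      have e : y - t = (y - m' • x0) - (t - m' • x0) := by abel
      rw [e]
      exact K0.sub_mem hy (hsub t ht)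
    have h4 := (h2 h3 t).2 ht
    rwa [sub_add_cancel] at h4
  have hcA : A'.card ≤ (qim (stab T) A').card * (fs (stab T)).card := by
    rw [← card_add_fs]
    apply Finset.card_le_card
    intro x hx
    exact mem_add.2 ⟨x, hx, 0, by simp, by simp⟩
  have hG' : K0.index * N * (fs (stab T)).card = q * n := by
    rw [← hG, hN]; ring
  have h1 := num1 hq hn hG' hNq hcA h.big hK' ha1 hm3 (by omega)
  exact num2 hN2 hNq hmm ha2 hK' h1.1

/-- The sumset is not everything. -/
theorem numbers_of_upp {q n m : ℕ} {A A' : Finset G} (h : Upp q n m A A') :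
    A'.Nonempty ∧ ms m A' ≠ univ := by
  refine ⟨D2_nonempty h, ?_⟩
  intro hu
  have h1 : (∑ x ∈ A, x) ∈ ms m A' := by rw [hu]; exact mem_univ _
  have h2 := lemmaR2 (U := ∅) (j := m) h.sub h.rep h.dbl (Finset.empty_subset _)
    (Finset.disjoint_empty_left _) (by simp) h1
  rw [Finset.sum_empty, zero_add] at h2
  exact h.no h2

end Pool.Agent.HB
end

section

/-!
# TASK HB B3: the last inequality of Lemma S

PROOF.  `R = closure P` (`0 ∈ P`).  If `R ≠ ⊤`: `e = R.index ≥ 2`, `|P| ≤ |R| = N / e`; `q |P| > r N` gives `q > r e`;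
`e ∣ N` (`AddSubgroup.index_dvd_card`).
If `R = ⊤`: `Q = stab (ms m P)`, `Q ≠ ⊤` (`stab_ne_top`), `e = Q.index ≥ 2`, `a = |qim Q P|`.  `a ≥ 2`: if `a = 1` then `P ⊆ Q`
(`0 ∈ P`), `Q = ⊤`.  Kneser for the family of `m` copies of `P` (`kneser_quot` with `s = range m`, and
`qim_card_lt_index`): `m (a - 1) + 2 ≤ e`.  `|P| ≤ a |Q|` (`card_add_fs`), `N = e |Q|` (`index_mul_card_fs`), so
`q a > r e ≥ 2 e ≥ 2 m (a - 1) + 4 ≥ 2 (q + 1) (a - 1) + 4`, i.e. `q (2 - a) > 2 a + 2`: impossible for `a ≥ 2`.
-/

set_option autoImplicit false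

open Finset
open scoped Pointwise

namespace Pool.Agent.HB

open Pool.Agent.Kneser

variable {G : Type*} [AddCommGroup G] [Fintype G] [DecidableEq G]

theorem exists_e {q m r : ℕ} (hm : q + 1 ≤ m) (hr : 2 ≤ r) {P : Finset G} (h0 : (0 : G) ∈ P)
    (hP : ms m P ≠ univ) (h : r * Fintype.card G < q * P.card) :
    ∃ e, 2 ≤ e ∧ e ∣ Fintype.card G ∧ e * r < q := by
  have hidx : ∀ K : AddSubgroup G, K ≠ ⊤ → 2 ≤ K.index := by
    intro K hK
    have h1 : K.index ≠ 0 := AddSubgroup.index_ne_zero_of_finite
    have h2 : K.index ≠ 1 := fun h => hK (AddSubgroup.index_eq_one.1 h)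
    omega
  have hdvd : ∀ K : AddSubgroup G, K.index ∣ Fintype.card G := by
    intro K
    exact ⟨_, (index_mul_card_fs K).symm⟩
  by_cases hR : AddSubgroup.closure (P : Set G) = ⊤
  · exfalso
    set Q := stab (ms m P) with hQ
    have hn : (ms m P).Nonempty := ms_nonempty ⟨0, h0⟩ m
    have hQt : Q ≠ ⊤ := stab_ne_top _ hP hn
    have h1 := kneser_quot (range m) (fun _ => P) (fun _ _ => ⟨0, h0⟩)
    have h2 := qim_card_lt_index (ms m P) hP
    have h3 : ∑ i ∈ range m, (fun _ => P) i = ms m P := rfl
    rw [h3, Finset.sum_const, card_range, smul_eq_mul] at h1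
    rw [← hQ] at h1 h2
    have ha1 : 1 ≤ (qim Q P).card := Finset.card_pos.2 (qim_nonempty ⟨0, h0⟩)
    have ha : 2 ≤ (qim Q P).card := by
      by_contra hlt
      have ha : (qim Q P).card = 1 := by omega
      obtain ⟨y, hy⟩ := Finset.card_eq_one.1 ha
      apply hQt
      rw [eq_top_iff, ← hR, AddSubgroup.closure_le]
      intro x hx
      have hx' : (QuotientAddGroup.mk x : G ⧸ Q) ∈ qim Q P := mem_qim.2 ⟨x, hx, rfl⟩
      have h0' : (QuotientAddGroup.mk 0 : G ⧸ Q) ∈ qim Q P := mem_qim.2 ⟨0, h0, rfl⟩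
      rw [hy, Finset.mem_singleton] at hx' h0'
      have he : (QuotientAddGroup.mk 0 : G ⧸ Q) = QuotientAddGroup.mk x := h0'.trans hx'.symm
      rw [QuotientAddGroup.eq] at he
      simpa using he
    have hf := fs_card_pos Q
    have h4 : P.card ≤ (qim Q P).card * (fs Q).card := by
      rw [← card_add_fs]
      apply Finset.card_le_card
      intro x hx
      rw [Finset.mem_add]
      exact ⟨x, hx, 0, by rw [mem_fs]; exact Q.zero_mem, add_zero x⟩
    have h5 := index_mul_card_fs Q
    have h6 : r * Q.index < q * (qim Q P).card := by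
      rw [← h5] at h
      have h7 : r * Q.index * (fs Q).card < q * (qim Q P).card * (fs Q).card := by
        calc r * Q.index * (fs Q).card = r * (Q.index * (fs Q).card) := by ring
          _ < q * P.card := h
          _ ≤ q * ((qim Q P).card * (fs Q).card) := Nat.mul_le_mul_left _ h4
          _ = _ := by ring
      exact Nat.lt_of_mul_lt_mul_right h7
    obtain ⟨a, hae⟩ : ∃ a, (qim Q P).card = a + 2 := ⟨(qim Q P).card - 2, by omega⟩
    rw [hae] at h1 h6
    have h8 : m * (a + 1) + 2 ≤ Q.index := by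
      have : a + 2 - 1 = a + 1 := rfl
      rw [this] at h1
      omega
    have h9 : (q + 1) * (a + 1) ≤ m * (a + 1) := Nat.mul_le_mul_right _ hm
    have h10 : 2 * Q.index ≤ r * Q.index := Nat.mul_le_mul_right _ hr
    nlinarith [h8, h9, h10, h6, Nat.zero_le (q * a)]
  · set R := AddSubgroup.closure (P : Set G) with hRd
    refine ⟨R.index, hidx R hR, hdvd R, ?_⟩
    have h1 := index_mul_card_fs R
    have h2 : P.card ≤ (fs R).card := by
      apply Finset.card_le_card
      intro x hx
      rw [mem_fs]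
      exact AddSubgroup.subset_closure hx
    rw [← h1] at h
    have h7 : R.index * r * (fs R).card < q * (fs R).card := by
      calc R.index * r * (fs R).card = r * (R.index * (fs R).card) := by ring
        _ < q * P.card := h
        _ ≤ q * (fs R).card := Nat.mul_le_mul_left _ h2
    exact Nat.lt_of_mul_lt_mul_right h7

end Pool.Agent.HB
end

section

/-!
# TASK HB A4: atoms with two elements

PROOF.  `x ≠ 0`, and at most one element of `B + {x}` is not in `B`.
If `B + {x} ⊆ B`, then `B` is periodic under `K := zmultiples x` (finite order: `B + {x} = B`), `B + fs K = B`, `|K| ≥ 2`,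
`|B| < N` since `2 |B| ≤ N` and `B` is nonempty: second alternative.
Otherwise let `b1 ∈ B`, `b1 + x ∉ B`; every other element `b` of `B` has `b + x ∈ B`.  `K := zmultiples x`, `o = addOrderOf x ≥ 2`.
(1) If `b ∈ B`, `b - b1 ∉ K`, then `b + i • x ∈ B` for all `i`: the coset of `b` is contained in `B`.
(2) The set of `i < o` with `b1 - i • x ∈ B` is closed downwards (if `i ≥ 1`, `b1 - i • x ∈ B` is not `b1`, so its successor
`b1 - (i - 1) • x` is in `B`), contains `0`, does not contain `o - 1` (`b1 - (o - 1) • x = b1 + x`): it is `{0, .., t}`, `t + 1 < o`.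
So `|B + fs K| = |B| + |K| - (t + 1)`.
If `K = ⊤`, then `B = {b1 + i • (-x) : i ≤ t}`, `t + 1 = |B|`: first alternative (with `-x`).
If `K ≠ ⊤`: `2 |K| ≤ N` (Lagrange), `|B + fs K| ≤ |B| + |K| - 1 ≤ N - 1`: second alternative.
-/

set_option autoImplicit false

open Finset
open scoped Pointwise

namespace Pool.Agent.HB

open Pool.Agent.Kneser

variable {G : Type*} [AddCommGroup G] [Fintype G] [DecidableEq G]

omit [Fintype G] in
private theorem A4_card_ge {x : G} [Fintype G] (hx : x ≠ 0) :
    2 ≤ (fs (AddSubgroup.zmultiples x)).card := by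
  have h1 : ({0, x} : Finset G) ⊆ fs (AddSubgroup.zmultiples x) := by
    intro y hy
    rw [mem_insert, mem_singleton] at hy
    rw [mem_fs]
    rcases hy with rfl | rfl
    · exact zero_mem _
    · exact AddSubgroup.mem_zmultiples y
  have h2 := card_le_card h1
  rwa [card_pair (Ne.symm hx)] at h2

private theorem A4_mem {x y : G} (h : y ∈ AddSubgroup.zmultiples x) :
    ∃ i < addOrderOf x, i • x = y := by
  have h1 := (mem_zmultiples_iff_mem_range_addOrderOf).1 h
  rw [mem_image] at h1
  obtain ⟨i, hi, rfl⟩ := h1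
  exact ⟨i, mem_range.1 hi, rfl⟩

private theorem A4_card_fs (x : G) : (fs (AddSubgroup.zmultiples x)).card = addOrderOf x := by
  rw [fs_card_eq, Nat.card_zmultiples]

theorem concl_of_pair {B : Finset G} {x : G} (hx : x ≠ 0) (hB : B.Nonempty)
    (hN : 2 * B.card ≤ Fintype.card G) (h : ((B + {x}) \ B).card ≤ 1) : Concl B := by
  have hB0 : 0 < B.card := card_pos.2 hB
  have hK2 := A4_card_ge hx
  by_cases hall : ∀ b ∈ B, b + x ∈ B
  · right
    refine ⟨AddSubgroup.zmultiples x, hK2, ?_⟩
    have h1 : ∀ b ∈ B, ∀ i : ℕ, b + i • x ∈ B := by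
      intro b hb i
      induction i with
      | zero => simpa using hb
      | succ i ih =>
        have h2 := hall _ ih
        rwa [add_assoc, ← succ_nsmul] at h2
    have h2 : B + fs (AddSubgroup.zmultiples x) = B := by
      apply Subset.antisymm
      · intro y hy
        obtain ⟨b, hb, k, hk, rfl⟩ := mem_add.1 hy
        obtain ⟨i, _, rfl⟩ := A4_mem (mem_fs.1 hk)
        exact h1 b hb i
      · intro y hy
        exact mem_add.2 ⟨y, hy, 0, mem_fs.2 (zero_mem _), add_zero y⟩
    rw [h2]
    constructor <;> omega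
  · push Not at hall
    obtain ⟨b1, hb1, hb1x⟩ := hall
    have huniq : ∀ b ∈ B, b ≠ b1 → b + x ∈ B := by
      intro b hb hne
      by_contra hbx
      have h1 : ({b + x, b1 + x} : Finset G) ⊆ (B + {x}) \ B := by
        intro y hy
        rw [mem_insert, mem_singleton] at hy
        rw [mem_sdiff]
        rcases hy with rfl | rfl
        · exact ⟨mem_add.2 ⟨b, hb, x, mem_singleton_self x, rfl⟩, hbx⟩
        · exact ⟨mem_add.2 ⟨b1, hb1, x, mem_singleton_self x, rfl⟩, hb1x⟩
      have h2 := card_le_card h1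
      rw [card_pair (fun he => hne (add_right_cancel he))] at h2
      omega
    have hcos : ∀ b ∈ B, b - b1 ∉ AddSubgroup.zmultiples x → ∀ i : ℕ, b + i • x ∈ B := by
      intro b hb hnb i
      induction i with
      | zero => simpa using hb
      | succ i ih =>
        have hne : b + i • x ≠ b1 := by
          intro he
          apply hnb
          rw [← he]
          have h3 : b - (b + i • x) = -(i • x) := by abel
          rw [h3]
          exact neg_mem (AddSubgroup.nsmul_mem _ (AddSubgroup.mem_zmultiples x) i)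
        have h2 := huniq _ ih hne
        rwa [add_assoc, ← succ_nsmul] at h2
    set o := addOrderOf x with ho
    have hoK : (fs (AddSubgroup.zmultiples x)).card = o := A4_card_fs x
    have ho2 : 2 ≤ o := hoK ▸ hK2
    have hox : o • x = 0 := addOrderOf_nsmul_eq_zero x
    have hex : ∃ i : ℕ, b1 - i • x ∉ B := by
      refine ⟨o - 1, ?_⟩
      have h3 : b1 - (o - 1) • x = b1 + x := by
        have h4 : (o - 1) • x + x = 0 := by
          rw [← succ_nsmul, Nat.sub_add_cancel (by omega), hox]
        rw [eq_neg_of_add_eq_zero_left h4]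
        abel
      rw [h3]
      exact hb1x
    classical
    set s := Nat.find hex with hs
    have hs1 : b1 - s • x ∉ B := Nat.find_spec hex
    have hs2 : ∀ i < s, b1 - i • x ∈ B := fun i hi => not_not.1 (Nat.find_min hex hi)
    have hs0 : 1 ≤ s := by
      by_contra h0
      have h1 : s = 0 := by omega
      rw [h1, zero_nsmul, sub_zero] at hs1
      exact hs1 hb1
    have hso : s + 1 ≤ o := by
      have h3 : s ≤ o - 1 := by
        refine Nat.find_min' hex ?_
        have h3 : b1 - (o - 1) • x = b1 + x := by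
          have h4 : (o - 1) • x + x = 0 := by
            rw [← succ_nsmul, Nat.sub_add_cancel (by omega), hox]
          rw [eq_neg_of_add_eq_zero_left h4]
          abel
        rw [h3]
        exact hb1x
      omega
    have hdown : ∀ i, i < o → b1 - i • x ∈ B → i < s := by
      intro i
      induction i with
      | zero => intro _ _; omega
      | succ i ih =>
        intro hi hiB
        have hne : b1 - (i + 1) • x ≠ b1 := by
          intro he
          have h3 : (i + 1) • x = 0 := by
            have := sub_eq_self.1 he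
            exact this
          have h4 := addOrderOf_le_of_nsmul_eq_zero (Nat.succ_pos i) h3
          omega
        have h3 := huniq _ hiB hne
        have h4 : b1 - (i + 1) • x + x = b1 - i • x := by
          rw [succ_nsmul]
          abel
        rw [h4] at h3
        have h5 := ih (by omega) h3
        by_contra h6
        have h7 : i + 1 = s := by omega
        rw [h7] at hiB
        exact hs1 hiB
    by_cases htop : AddSubgroup.zmultiples x = ⊤
    · left
      have hBeq : B = (range s).image fun i => b1 + i • (-x) := by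
        ext y
        rw [mem_image]
        constructor
        · intro hy
          have h3 : b1 - y ∈ AddSubgroup.zmultiples x := by rw [htop]; exact AddSubgroup.mem_top _
          obtain ⟨i, hi, hiy⟩ := A4_mem h3
          have h4 : y = b1 - i • x := by rw [hiy]; abel
          refine ⟨i, mem_range.2 (hdown i hi (h4 ▸ hy)), ?_⟩
          rw [h4, smul_neg]
          abel
        · rintro ⟨i, hi, rfl⟩
          have h3 : b1 + i • (-x) = b1 - i • x := by rw [smul_neg]; abel
          rw [h3]
          exact hs2 i (mem_range.1 hi)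
      have hcard : B.card = s := by
        rw [hBeq, card_image_of_injOn, card_range]
        intro i hi j hj hij
        rw [coe_range, Set.mem_Iio] at hi hj
        have h3 : i • x = j • x := by
          have h4 : b1 + i • (-x) = b1 + j • (-x) := hij
          have h5 := add_left_cancel h4
          rw [smul_neg, smul_neg] at h5
          exact neg_injective h5
        have h4 := nsmul_injOn_Iio_addOrderOf (x := x) (Set.mem_Iio.2 (by omega : i < addOrderOf x))
          (Set.mem_Iio.2 (by omega : j < addOrderOf x)) h3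
        exact h4
      refine ⟨b1, -x, ?_, ?_⟩
      · rw [AddSubgroup.zmultiples_neg, htop]
      · rw [hcard]
        exact hBeq
    · right
      refine ⟨AddSubgroup.zmultiples x, hK2, ?_⟩
      have hsub : B + fs (AddSubgroup.zmultiples x) ⊆
          B ∪ (Ico s o).image fun i => b1 - i • x := by
        intro y hy
        obtain ⟨b, hb, k, hk, rfl⟩ := mem_add.1 hy
        rw [mem_fs] at hk
        by_cases hbK : b - b1 ∈ AddSubgroup.zmultiples x
        · have h3 : b1 - (b + k) ∈ AddSubgroup.zmultiples x := by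
            have h4 : b1 - (b + k) = -((b - b1) + k) := by abel
            rw [h4]
            exact neg_mem (add_mem hbK hk)
          obtain ⟨i, hi, hiy⟩ := A4_mem h3
          have h4 : b + k = b1 - i • x := by rw [hiy]; abel
          rw [mem_union]
          by_cases hy2 : b + k ∈ B
          · exact Or.inl hy2
          · right
            rw [mem_image]
            refine ⟨i, mem_Ico.2 ⟨?_, hi⟩, h4.symm⟩
            by_contra h5
            push Not at h5
            exact hy2 (h4 ▸ hs2 i h5)
        · obtain ⟨i, _, rfl⟩ := A4_mem hk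
          exact mem_union_left _ (hcos b hb hbK i)
      have hcard : (B + fs (AddSubgroup.zmultiples x)).card ≤ B.card + (o - s) := by
        refine (card_le_card hsub).trans ((card_union_le _ _).trans ?_)
        have h3 : ((Ico s o).image fun i => b1 - i • x).card ≤ o - s := by
          refine card_image_le.trans ?_
          rw [Nat.card_Ico]
        omega
      have hidx : 2 * (fs (AddSubgroup.zmultiples x)).card ≤ Fintype.card G := by
        rw [← index_mul_card_fs (AddSubgroup.zmultiples x)]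
        refine Nat.mul_le_mul_right _ ?_
        have h3 : (AddSubgroup.zmultiples x).index ≠ 1 := fun h4 =>
          htop (AddSubgroup.index_eq_one.1 h4)
        have h4 : (AddSubgroup.zmultiples x).index ≠ 0 := AddSubgroup.index_ne_zero_of_finite
        omega
      rw [hoK] at hidx ⊢
      constructor <;> omega

end Pool.Agent.HB
end

section

/-!
# TASK HB A3: Sidon sets and subgroups

PROOFS.  Let `m_i` be the sizes of the traces of `M` on the cosets of `Q` which it meets, `c = |qim Q M|` their number.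
The pairs `(a, b) ∈ M × M` with `a ≠ b`, `a - b ∈ Q` are mapped injectively into `fs Q` minus `0` by `a - b` (`Sidon`: equal
differences give `a = c`, then `b = d`), and there are `∑ m_i (m_i - 1)` of them:
`∑ m_i (m_i - 1) ≤ |Q| - 1`  (P).
* `sidon_card`: `m - 1 ≤ m (m - 1)`, so `|M| - c ≤ |Q| - 1`.
* `sidon_sq`: Cauchy-Schwarz (`sq_sum_le_card_mul_sum_sq` or `Finset.inner_mul_le_norm_mul_norm`):
  `|M| ^ 2 = (∑ m_i) ^ 2 ≤ c ∑ m_i ^ 2 ≤ c (|Q| - 1 + |M|)`.
* `sidon_two`: two different translates of `M` have at most one common element: `|M + {x, y}| ≥ 2 |M| - 1`.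
* `sidon_three`: three different translates: `|M + {x, y, z}| ≥ 3 |M| - 3`.
-/

set_option autoImplicit false

open Finset
open scoped Pointwise

namespace Pool.Agent.HB

open Pool.Agent.Kneser

variable {G : Type*} [AddCommGroup G] [Fintype G] [DecidableEq G]

omit [Fintype G] in
private theorem A3_sum (M : Finset G) (Q : AddSubgroup G) [DecidableEq (G ⧸ Q)] :
    ∑ i ∈ qim Q M, (M.filter fun a => (QuotientAddGroup.mk a : G ⧸ Q) = i).card = M.card := by
  rw [← Finset.card_eq_sum_card_fiberwise]
  intro a ha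
  exact mem_qim.mpr ⟨a, ha, rfl⟩

private theorem A3_pairs {M : Finset G} (hM : Sidon M) (Q : AddSubgroup G)
    [DecidableEq (G ⧸ Q)] :
    ∑ i ∈ qim Q M, (M.filter fun a => (QuotientAddGroup.mk a : G ⧸ Q) = i).card ^ 2 + 1 ≤
      (fs Q).card + M.card := by
  have h1 : ((qim Q M).biUnion fun i =>
      (M.filter fun a => (QuotientAddGroup.mk a : G ⧸ Q) = i).offDiag).card =
      ∑ i ∈ qim Q M, (M.filter fun a => (QuotientAddGroup.mk a : G ⧸ Q) = i).offDiag.card := by
    apply Finset.card_biUnion
    intro i _ j _ hij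
    rw [Function.onFun, Finset.disjoint_left]
    rintro ⟨a, b⟩ h1 h2
    rw [mem_offDiag, mem_filter, mem_filter] at h1 h2
    exact hij (h1.1.2.symm.trans h2.1.2)
  have h2 : ((qim Q M).biUnion fun i =>
      (M.filter fun a => (QuotientAddGroup.mk a : G ⧸ Q) = i).offDiag).card ≤
      ((fs Q).erase 0).card := by
    apply Finset.card_le_card_of_injOn (fun p : G × G => p.1 - p.2)
    · rintro ⟨a, b⟩ hp
      rw [mem_coe, mem_biUnion] at hp
      obtain ⟨i, _, hi⟩ := hp
      rw [mem_offDiag, mem_filter, mem_filter] at hi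
      rw [mem_coe, mem_erase, mem_fs]
      refine ⟨fun h => hi.2.2 (sub_eq_zero.mp h), ?_⟩
      have h3 : (QuotientAddGroup.mk b : G ⧸ Q) = QuotientAddGroup.mk a :=
        hi.2.1.2.trans hi.1.2.symm
      rw [QuotientAddGroup.eq] at h3
      have h4 : a - b = -b + a := by abel
      show a - b ∈ Q
      rw [h4]
      exact h3
    · rintro ⟨a, b⟩ hp ⟨c, d⟩ hq h
      rw [mem_coe, mem_biUnion] at hp hq
      obtain ⟨i, _, hi⟩ := hp
      obtain ⟨j, _, hj⟩ := hq
      rw [mem_offDiag, mem_filter, mem_filter] at hi hj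
      have h' : a - b = c - d := h
      have hac : a = c := hM a hi.1.1 b hi.2.1.1 c hj.1.1 d hj.2.1.1 h' hi.2.2
      subst hac
      have hbd : b = d := sub_right_injective h'
      rw [hbd]
  rw [h1, Finset.card_erase_of_mem (mem_fs.mpr Q.zero_mem)] at h2
  have h3 := fs_card_pos Q
  have h4 : ∀ i ∈ qim Q M, (M.filter fun a => (QuotientAddGroup.mk a : G ⧸ Q) = i).card ^ 2 =
      (M.filter fun a => (QuotientAddGroup.mk a : G ⧸ Q) = i).offDiag.card +
      (M.filter fun a => (QuotientAddGroup.mk a : G ⧸ Q) = i).card := by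
    intro i _
    rw [offDiag_card, pow_two]
    have : (M.filter fun a => (QuotientAddGroup.mk a : G ⧸ Q) = i).card ≤
      (M.filter fun a => (QuotientAddGroup.mk a : G ⧸ Q) = i).card *
      (M.filter fun a => (QuotientAddGroup.mk a : G ⧸ Q) = i).card := Nat.le_mul_self _
    omega
  rw [Finset.sum_congr rfl h4, Finset.sum_add_distrib, A3_sum]
  omega

theorem sidon_card {M : Finset G} (hM : Sidon M) (hn : M.Nonempty) (Q : AddSubgroup G) :
    M.card + 1 ≤ (fs Q).card + (qim Q M).card := by
  classical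
  have h1 := A3_pairs hM Q
  have h2 := A3_sum M Q
  have h3 : ∑ i ∈ qim Q M, 2 * (M.filter fun a => (QuotientAddGroup.mk a : G ⧸ Q) = i).card ≤
      ∑ i ∈ qim Q M, ((M.filter fun a => (QuotientAddGroup.mk a : G ⧸ Q) = i).card ^ 2 + 1) := by
    refine Finset.sum_le_sum fun i _ => ?_
    have : ∀ m : ℕ, 2 * m ≤ m ^ 2 + 1 := by
      intro m
      have h4 : (0 : ℤ) ≤ ((m : ℤ) - 1) ^ 2 := sq_nonneg _
      zify
      nlinarith
    exact this _
  rw [← Finset.mul_sum, h2, Finset.sum_add_distrib, Finset.sum_const, smul_eq_mul, mul_one] at h3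
  omega

theorem sidon_sq {M : Finset G} (hM : Sidon M) (Q : AddSubgroup G) :
    M.card ^ 2 ≤ (qim Q M).card * ((fs Q).card - 1 + M.card) := by
  classical
  have h1 := A3_pairs hM Q
  have h2 := A3_sum M Q
  have h3 := fs_card_pos Q
  have h4 := sq_sum_le_card_mul_sum_sq (s := qim Q M)
    (f := fun i => (M.filter fun a => (QuotientAddGroup.mk a : G ⧸ Q) = i).card)
  rw [h2] at h4
  refine h4.trans (Nat.mul_le_mul_left _ ?_)
  omega

omit [Fintype G] in
private theorem A3_inter {M : Finset G} (hM : Sidon M) {x y : G} (hxy : x ≠ y) :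
    (M.image (fun a => a + x) ∩ M.image (fun a => a + y)).card ≤ 1 := by
  rw [Finset.card_le_one]
  intro u hu v hv
  rw [mem_inter, mem_image, mem_image] at hu hv
  obtain ⟨⟨a, ha, hau⟩, b, hb, hbu⟩ := hu
  obtain ⟨⟨c, hc, hcv⟩, d, hd, hdv⟩ := hv
  have h1 : a - b = y - x := by
    have : a + x = b + y := hau.trans hbu.symm
    rw [sub_eq_sub_iff_add_eq_add, this, add_comm]
  have h2 : c - d = y - x := by
    have : c + x = d + y := hcv.trans hdv.symm
    rw [sub_eq_sub_iff_add_eq_add, this, add_comm]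
  have h3 : a ≠ b := by
    intro h
    rw [h, sub_self] at h1
    exact hxy (sub_eq_zero.mp h1.symm).symm
  have h4 : a = c := hM a ha b hb c hc d hd (h1.trans h2.symm) h3
  rw [← hau, ← hcv, h4]

omit [Fintype G] in
private theorem A3_card (M : Finset G) (x : G) : (M.image (fun a => a + x)).card = M.card :=
  Finset.card_image_of_injective _ (add_left_injective x)

omit [Fintype G] in
private theorem A3_sub {M T : Finset G} {x : G} (hx : x ∈ T) :
    M.image (fun a => a + x) ⊆ M + T := by
  intro u hu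
  rw [mem_image] at hu
  obtain ⟨a, ha, rfl⟩ := hu
  exact add_mem_add ha hx

theorem sidon_two {M T : Finset G} (hM : Sidon M) (hT : 2 ≤ T.card) :
    2 * M.card ≤ (M + T).card + 1 := by
  obtain ⟨x, hx, y, hy, hxy⟩ := Finset.one_lt_card.mp hT
  have h1 := A3_inter hM hxy
  have h2 := Finset.card_union_add_card_inter (M.image (fun a => a + x))
    (M.image (fun a => a + y))
  rw [A3_card, A3_card] at h2
  have h3 : (M.image (fun a => a + x) ∪ M.image (fun a => a + y)).card ≤ (M + T).card :=
    Finset.card_le_card (Finset.union_subset (A3_sub hx) (A3_sub hy))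
  omega

theorem sidon_three {M T : Finset G} (hM : Sidon M) (hT : 3 ≤ T.card) :
    3 * M.card ≤ (M + T).card + 3 := by
  obtain ⟨x, y, z, hx, hy, hz, hxy, hxz, hyz⟩ := Finset.two_lt_card_iff.mp hT
  have h1 := A3_inter hM hxy
  have h1' := A3_inter hM hxz
  have h1'' := A3_inter hM hyz
  have h2 := Finset.card_union_add_card_inter (M.image (fun a => a + x))
    (M.image (fun a => a + y))
  rw [A3_card, A3_card] at h2
  have h2' := Finset.card_union_add_card_inter
    (M.image (fun a => a + x) ∪ M.image (fun a => a + y)) (M.image (fun a => a + z))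
  rw [A3_card, Finset.union_inter_distrib_right] at h2'
  have h4 := Finset.card_union_le (M.image (fun a => a + x) ∩ M.image (fun a => a + z))
    (M.image (fun a => a + y) ∩ M.image (fun a => a + z))
  have h3 : (M.image (fun a => a + x) ∪ M.image (fun a => a + y) ∪
      M.image (fun a => a + z)).card ≤ (M + T).card :=
    Finset.card_le_card (Finset.union_subset (Finset.union_subset (A3_sub hx) (A3_sub hy))
      (A3_sub hz))
  omega

end Pool.Agent.HB
end

section

/-!
# TASK HB A5: adding a Sidon set inside a coset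

PROOF of `coset_growth`.  `L = closure M`.  Let `Q = stab (C + M)`.  Kneser (`kneser`): `|C + fs Q| + |M + fs Q| ≤ |C + M| + |Q|`,
and `|C| ≤ |C + fs Q|`, `|M + fs Q| = c |Q|` with `c = |qim Q M|` (`card_add_fs`).
If `c = 1`: `M ⊆ Q` since `0 ∈ M`, so `L ≤ Q`, and `C + M = C + M + fs L ⊇ C + fs L` and `C + M ⊆ C + fs L`: first alternative.
If `c ≥ 2`: `|M| - 1 ≤ |Q| + c - 2 ≤ (c - 1) |Q|` by `sidon_card` (`(c - 2) ≤ (c - 2) |Q|`), so
`|C| + |M| ≤ |C| + (c - 1) |Q| + 1 ≤ |C + M| + 1`.
-/

set_option autoImplicit false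

open Finset
open scoped Pointwise

namespace Pool.Agent.HB

open Pool.Agent.Kneser

variable {G : Type*} [AddCommGroup G] [Fintype G] [DecidableEq G]

theorem coset_growth {M C : Finset G} (hM : Sidon M) (h0 : (0 : G) ∈ M) (hC : C.Nonempty) :
    C + M = C + fs (AddSubgroup.closure (M : Set G)) ∨ C.card + M.card ≤ (C + M).card + 1 := by
  have hMne : M.Nonempty := ⟨0, h0⟩
  set Q := stab (C + M) with hQ
  have hk := kneser C M hC hMne
  rw [← hQ] at hk
  have h1 : C.card ≤ (C + fs Q).card := by
    apply Finset.card_le_card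
    intro x hx
    rw [Finset.mem_add]
    exact ⟨x, hx, 0, by rw [mem_fs]; exact Q.zero_mem, add_zero x⟩
  have h2 := card_add_fs Q M
  have h3 := sidon_card hM hMne Q
  have h4 := fs_card_pos Q
  have h5 : 1 ≤ (qim Q M).card := (qim_nonempty hMne).card_pos
  rcases Nat.lt_or_ge 1 (qim Q M).card with hc | hc
  · right
    obtain ⟨c, hc'⟩ : ∃ c, (qim Q M).card = c + 2 := ⟨(qim Q M).card - 2, by omega⟩
    rw [hc'] at h2 h3
    have h6 : c ≤ c * (fs Q).card := Nat.le_mul_of_pos_right c h4
    have h7 : (c + 2) * (fs Q).card = c * (fs Q).card + 2 * (fs Q).card := by ring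
    omega
  · left
    have hc1 : (qim Q M).card = 1 := le_antisymm hc h5
    have hMQ : ∀ x ∈ M, x ∈ Q := by
      intro x hx
      obtain ⟨y, hy⟩ := Finset.card_eq_one.1 hc1
      have hx1 : (QuotientAddGroup.mk x : G ⧸ Q) ∈ qim Q M := mem_qim.2 ⟨x, hx, rfl⟩
      have h01 : (QuotientAddGroup.mk (0 : G) : G ⧸ Q) ∈ qim Q M := mem_qim.2 ⟨0, h0, rfl⟩
      rw [hy, Finset.mem_singleton] at hx1 h01
      have h8 : (QuotientAddGroup.mk (0 : G) : G ⧸ Q) = QuotientAddGroup.mk x := h01.trans hx1.symm
      have h9 := QuotientAddGroup.eq.1 h8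
      simpa using h9
    have hL : AddSubgroup.closure (M : Set G) ≤ Q := by
      rw [AddSubgroup.closure_le]
      intro x hx
      exact hMQ x hx
    have h10 := add_fs_stab (C + M) (AddSubgroup.closure (M : Set G)) hL
    apply Finset.Subset.antisymm
    · apply Finset.add_subset_add_left
      intro x hx
      rw [mem_fs]
      exact AddSubgroup.subset_closure hx
    · calc C + fs (AddSubgroup.closure (M : Set G))
          ⊆ (C + M) + fs (AddSubgroup.closure (M : Set G)) := by
            apply Finset.add_subset_add_right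
            intro x hx
            rw [Finset.mem_add]
            exact ⟨x, hx, 0, h0, add_zero x⟩
        _ = C + M := h10
        _ ⊆ C + M := Finset.Subset.refl _

end Pool.Agent.HB
end

section

/-!
# TASK HB A6: Sidon atoms which do not generate the group

PROOF.  `L = closure M ≠ ⊤`, `|L| ≥ |M| ≥ 2`, `2 |L| ≤ N`.  Conclusion: the second alternative of `Concl` with `K = L`.
For every class `c ∈ qim L B` let `B_c = B.filter (class = c)`; the sets `B_c + M` are disjoint with union `B + M`, and so are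
`B_c + fs L` (with union `B + fs L`, `|B_c + fs L| = |L|`).  By `coset_growth` for `B_c`: `B_c + M = B_c + fs L` or
`|B_c + M| ≥ |B_c| + |M| - 1`; always `|B_c + M| ≥ |B_c|`.  `∑ (|B_c + M| - |B_c|) = |B + M| - |B| ≤ |M| - 1`.
Case 1: `B_c + M = B_c + fs L` for all `c`: `B + fs L = B + M`, so `|B + fs L| ≤ |M| + |B| - 1 ≤ |L| + |B| - 1` and `< N`.
Case 2: for some `c0` not: `|B_c0 + M| - |B_c0| ≥ |M| - 1`, so `|B_c + M| = |B_c|` for all `c ≠ c0`; then `B_c + M = B_c` has
(`0 ∈ M`) all elements of `M` in its stabiliser, so `B_c = B_c + fs L`, `|B_c| = |L|`.  `|B + fs L| = ∑_c |L| = |B| - |B_c0| + |L|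
≤ |B| + |L| - 1 < N` (`2 |B| ≤ N`, `2 |L| ≤ N`).
-/

set_option autoImplicit false

open Finset
open scoped Pointwise

namespace Pool.Agent.HB

open Pool.Agent.Kneser

variable {G : Type*} [AddCommGroup G] [Fintype G] [DecidableEq G]

theorem concl_of_sidon {B M : Finset G} (hM : Sidon M) (h0 : (0 : G) ∈ M) (h2 : 2 ≤ M.card)
    (hL : AddSubgroup.closure (M : Set G) ≠ ⊤) (hB : B.Nonempty)
    (hN : 2 * B.card ≤ Fintype.card G) (h1 : (B + M).card + 1 ≤ B.card + M.card)
    (h3 : (B + M).card + 2 ≤ Fintype.card G) : Concl B := by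
  classical
  obtain ⟨L, hLdef⟩ : ∃ L, L = AddSubgroup.closure (M : Set G) := ⟨_, rfl⟩
  rw [← hLdef] at hL
  have hML : ∀ x ∈ M, x ∈ L := fun x hx => by
    rw [hLdef]
    exact AddSubgroup.subset_closure hx
  have hMfs : M ⊆ fs L := fun x hx => mem_fs.2 (hML x hx)
  have hMc : M.card ≤ (fs L).card := card_le_card hMfs
  have hLN : 2 * (fs L).card ≤ Fintype.card G := by
    rw [← index_mul_card_fs L]
    have h4 : 2 ≤ L.index := by
      have h5 : L.index ≠ 1 := fun h => hL (AddSubgroup.index_eq_one.1 h)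
      have h6 : L.index ≠ 0 := AddSubgroup.index_ne_zero_of_finite
      omega
    exact Nat.mul_le_mul_right _ h4
  let Bc : G ⧸ L → Finset G := fun c => B.filter (fun x => (QuotientAddGroup.mk x : G ⧸ L) = c)
  have hsum : ∀ X : Finset G, (∀ x ∈ X, x ∈ L) →
      (B + X).card = ∑ c ∈ qim L B, (Bc c + X).card := by
    intro X hX
    have hmap : ∀ z ∈ B + X, (QuotientAddGroup.mk z : G ⧸ L) ∈ qim L B := by
      intro z hz
      obtain ⟨b, hb, x, hx, rfl⟩ := mem_add.1 hz
      rw [mem_qim]
      refine ⟨b, hb, ?_⟩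
      rw [QuotientAddGroup.eq]
      simpa using hX x hx
    rw [card_eq_sum_card_fiberwise hmap]
    refine sum_congr rfl fun c _ => ?_
    congr 1
    ext z
    rw [mem_filter, mem_add, mem_add]
    constructor
    · rintro ⟨⟨b, hb, x, hx, rfl⟩, hz⟩
      refine ⟨b, mem_filter.2 ⟨hb, ?_⟩, x, hx, rfl⟩
      rw [← hz, QuotientAddGroup.eq]
      simpa using hX x hx
    · rintro ⟨b, hb, x, hx, rfl⟩
      obtain ⟨hb1, hb2⟩ := mem_filter.1 hb
      refine ⟨⟨b, hb1, x, hx, rfl⟩, ?_⟩
      rw [← hb2, eq_comm, QuotientAddGroup.eq]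
      simpa using hX x hx
  have hB0 : B.card = ∑ c ∈ qim L B, (Bc c).card :=
    card_eq_sum_card_fiberwise (fun b hb => mem_qim.2 ⟨b, hb, rfl⟩)
  have hBcne : ∀ c ∈ qim L B, (Bc c).Nonempty := by
    intro c hc
    obtain ⟨b, hb, hbc⟩ := mem_qim.1 hc
    exact ⟨b, mem_filter.2 ⟨hb, hbc⟩⟩
  have hle : ∀ c, (Bc c).card ≤ (Bc c + M).card := by
    intro c
    refine card_le_card fun b hb => ?_
    rw [mem_add]
    exact ⟨b, hb, 0, h0, add_zero b⟩
  have hgr : ∀ c ∈ qim L B, Bc c + M = Bc c + fs L ∨
      (Bc c).card + M.card ≤ (Bc c + M).card + 1 := by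
    intro c hc
    have h4 := coset_growth hM h0 (hBcne c hc)
    rwa [← hLdef] at h4
  have hsM := hsum M hML
  have hsL := hsum (fs L) (fun x hx => mem_fs.1 hx)
  refine Or.inr ⟨L, h2.trans hMc, ?_⟩
  by_cases hall : ∀ c ∈ qim L B, Bc c + M = Bc c + fs L
  · have h4 : (B + fs L).card = (B + M).card := by
      rw [hsL, hsM]
      exact sum_congr rfl fun c hc => by rw [hall c hc]
    rw [h4]
    constructor
    · omega
    · omega
  · push Not at hall
    obtain ⟨c0, hc0, hne⟩ := hall
    have hg0 : (Bc c0).card + M.card ≤ (Bc c0 + M).card + 1 := by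
      rcases hgr c0 hc0 with h | h
      · exact absurd h hne
      · exact h
    have heq : ∀ c ∈ qim L B, c ≠ c0 → (Bc c + M).card ≤ (Bc c).card := by
      intro c1 hc1 hne1
      by_contra hlt
      have h4 : ∑ c ∈ qim L B, ((Bc c).card + (if c = c0 then M.card - 1 else 0) +
          (if c = c1 then 1 else 0)) ≤ ∑ c ∈ qim L B, (Bc c + M).card := by
        refine sum_le_sum fun c _ => ?_
        by_cases e0 : c = c0
        · subst e0
          rw [if_pos rfl, if_neg (fun h => hne1 h.symm)]
          omega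
        · by_cases e1 : c = c1
          · subst e1
            rw [if_neg e0, if_pos rfl]
            omega
          · rw [if_neg e0, if_neg e1]
            have := hle c
            omega
      rw [sum_add_distrib, sum_add_distrib, ← hB0, ← hsM, sum_ite_eq' (qim L B) c0,
        sum_ite_eq' (qim L B) c1, if_pos hc0, if_pos hc1] at h4
      omega
    have hper : ∀ c ∈ qim L B, c ≠ c0 → Bc c + fs L = Bc c := by
      intro c hc hne1
      have h4 : Bc c = Bc c + M := by
        refine eq_of_subset_of_card_le (fun b hb => ?_) (heq c hc hne1)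
        rw [mem_add]
        exact ⟨b, hb, 0, h0, add_zero b⟩
      refine add_fs_stab _ _ ?_
      rw [hLdef, AddSubgroup.closure_le]
      intro x hx
      refine mem_stab_of_add_subset (Bc c) x fun a ha => ?_
      rw [h4, mem_add]
      exact ⟨a, ha, x, hx, add_comm a x⟩
    have hone : (Bc c0 + fs L).card ≤ (fs L).card := by
      obtain ⟨b0, hb0⟩ := hBcne c0 hc0
      have hb0' := (mem_filter.1 hb0).2
      have h4 : Bc c0 + fs L ⊆ (fs L).image (fun x => b0 + x) := by
        intro z hz
        obtain ⟨b, hb, x, hx, rfl⟩ := mem_add.1 hz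
        have hb' := (mem_filter.1 hb).2
        rw [mem_image]
        refine ⟨-b0 + b + x, ?_, by abel⟩
        rw [mem_fs]
        refine L.add_mem ?_ (mem_fs.1 hx)
        rw [← QuotientAddGroup.eq, hb0', hb']
      exact (card_le_card h4).trans card_image_le
    have hpos : 1 ≤ (Bc c0).card := card_pos.2 (hBcne c0 hc0)
    have h4 : ∑ c ∈ qim L B, ((Bc c + fs L).card + (if c = c0 then 1 else 0)) ≤
        ∑ c ∈ qim L B, ((Bc c).card + (if c = c0 then (fs L).card else 0)) := by
      refine sum_le_sum fun c hc => ?_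
      by_cases e0 : c = c0
      · subst e0
        rw [if_pos rfl, if_pos rfl]
        omega
      · rw [if_neg e0, if_neg e0, hper c hc e0]
    rw [sum_add_distrib, sum_add_distrib, ← hB0, ← hsL, sum_ite_eq' (qim L B) c0,
      sum_ite_eq' (qim L B) c0, if_pos hc0, if_pos hc0] at h4
    constructor
    · omega
    · exact h4

end Pool.Agent.HB
end
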