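import Pool.Agent.Lib.MP_249d2a_co.HB.Defs

section

/-!
# TASK HB D5: from the cyclic quotient to the divisor

PROOF of `index_dvd`.  `x` with `CycQ K`: the class of `x` generates `G ⧸ K`, so its order is `Nat.card (G ⧸ K) = K.index`
(`addOrderOf_eq_card_of_forall_mem_zmultiples`), and `n • mk x = mk (n • x) = 0` (in `ZMod q × ZMod n` with `q ∣ n`).

PROOF of `dset_of_SC`.  `K, l` from `SC`; `d = K.index`, `d ∣ n`, `d < q (l + 1)`, `d ≥ m l + 1 > q l`: `d / q = l`, `r := d % q = d - q l ≥ (m - q) l + 1 ≥ 2`,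
`d ≥ q + 2`: `d ∈ Dset q n`.
(a) `m l + 2 ≤ d`: `m ≤ (d - 2) / l ≤ fv q d` (`Nat.le_div_iff_mul_le`).
(b) `m l + 1 = d`, `e ≥ 2`, `e ∣ Nat.card K`, `e r < q`.  `p = e.minFac` is prime, `p ∣ e`, `p ≤ e`, `p r < q`.  `Nat.card K * d = q n`, `n = d t`: `Nat.card K = q t`,
so `p ∣ q` or `p ∣ t`.
 * `p ∣ q`: `q.minFac ≤ p`, so `q.minFac * r < q`, `fv q d = (d - 2 + 1) / l = (m l) / l = m`.
 * `p ∣ t`: `d' = p d` divides `n`, `d' = q (p l) + p r`, `p r < q`: `d' / q = p l`, `d' % q = p r ≥ 2`, `d' ≥ q + 2`: `d' ∈ Dset q n`;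
   `d' - 2 = p (m l + 1) - 2 ≥ m (p l)`, so `m ≤ (d' - 2) / (p l) ≤ fv q d'`.

PROOF of `fv_le`: `d = q l + r`, `l ≥ 1`, `r ≤ q - 1`: `d - 2 + 1 ≤ q l + q - 2 < (2 q - 1) l` when .. : `q l + q - 2 < (2 q - 1) l` iff `q - 2 < (q - 1) l`.
PROOF of `le_fv`: `d - 2 ≥ q l` since `r ≥ 2`.
-/

set_option autoImplicit false

open Finset

namespace Pool.Agent.HB

theorem index_dvd {q n : ℕ} [NeZero q] [NeZero n] (hqn : q ∣ n)
    {K : AddSubgroup (ZMod q × ZMod n)} (hK : CycQ K) : K.index ∣ n := by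
  obtain ⟨x, hx⟩ := hK
  have h1 : ∀ y : (ZMod q × ZMod n) ⧸ K, y ∈ AddSubgroup.zmultiples (QuotientAddGroup.mk x : (ZMod q × ZMod n) ⧸ K) := by
    intro y
    obtain ⟨y, rfl⟩ := QuotientAddGroup.mk_surjective y
    obtain ⟨k, hk⟩ := hx y
    refine AddSubgroup.mem_zmultiples_iff.2 ⟨(k : ℤ), ?_⟩
    rw [natCast_zsmul, ← QuotientAddGroup.mk_nsmul, QuotientAddGroup.eq]
    have h2 : -(k • x) + y = y - k • x := by abel
    rw [h2]
    exact hk
  have h3 := addOrderOf_eq_card_of_forall_mem_zmultiples h1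
  have h4 : n • (QuotientAddGroup.mk x : (ZMod q × ZMod n) ⧸ K) = 0 := by
    rw [← QuotientAddGroup.mk_nsmul]
    have h5 : n • x = 0 := by
      ext
      · obtain ⟨c, hc⟩ := hqn
        have h6 : ((n : ℕ) : ZMod q) = 0 := (ZMod.natCast_eq_zero_iff n q).2 ⟨c, hc⟩
        simp [h6]
      · simp
    rw [h5]
    rfl
  have h7 := addOrderOf_dvd_of_nsmul_eq_zero h4
  rw [h3] at h7
  exact h7

private theorem D5_divmod {q l d : ℕ} (h1 : q * l ≤ d) (h2 : d < q * (l + 1)) :
    d / q = l ∧ d % q = d - q * l := by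
  have h3 : d / q = l := Nat.div_eq_of_lt_le (by rwa [mul_comm]) (by rwa [mul_comm])
  refine ⟨h3, ?_⟩
  have h4 := Nat.div_add_mod d q
  rw [h3] at h4
  omega

private theorem D5_mem {q n d : ℕ} (hn : n ≠ 0) (h1 : d ∣ n) (h2 : q + 2 ≤ d) (h3 : 2 ≤ d % q) : d ∈ Dset q n :=
  Finset.mem_filter.2 ⟨Nat.mem_divisors.2 ⟨h1, hn⟩, h2, h3⟩

theorem dset_of_SC {q n m : ℕ} [NeZero q] [NeZero n] (hq : 4 ≤ q) (hqn : q ∣ n)
    (hm : q + 1 ≤ m) (h : SC q m (ZMod q × ZMod n)) : ∃ d ∈ Dset q n, m ≤ fv q d := by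
  obtain ⟨K, l, hl, hK, hlt, hc⟩ := h
  have hn : n ≠ 0 := NeZero.ne n
  have hdvd := index_dvd hqn hK
  have hml : q * l + l ≤ m * l := by nlinarith
  have hlb : q * l ≤ K.index ∧ l + 1 ≤ K.index - q * l ∧ q + 2 ≤ K.index := by
    have h5 : q ≤ q * l := by nlinarith
    rcases hc with h1 | ⟨h1, -⟩ <;> omega
  obtain ⟨hdiv, hmod⟩ := D5_divmod hlb.1 hlt
  have hmem : K.index ∈ Dset q n := D5_mem hn hdvd hlb.2.2 (by omega)
  rcases hc with h1 | ⟨h1, e, he2, hecard, her⟩
  · refine ⟨K.index, hmem, ?_⟩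
    unfold fv
    rw [hdiv, Nat.le_div_iff_mul_le (by omega)]
    omega
  · have hprime : e.minFac.Prime := Nat.minFac_prime (by omega)
    have hpe : e.minFac ∣ e := Nat.minFac_dvd e
    have hple : e.minFac ≤ e := Nat.minFac_le (by omega)
    set p := e.minFac with hp
    set r := K.index - q * l with hr
    have hpr : p * r < q := lt_of_le_of_lt (Nat.mul_le_mul_right r hple) her
    have hdpos : 0 < K.index := by omega
    obtain ⟨t, ht⟩ := hdvd
    have hcard : Nat.card K * K.index = q * n := by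
      rw [AddSubgroup.card_mul_index, Nat.card_prod, Nat.card_zmod, Nat.card_zmod]
    have hcardK : Nat.card K = q * t := by
      have : Nat.card K * K.index = (q * t) * K.index :=
        calc Nat.card K * K.index = q * n := hcard
          _ = q * (K.index * t) := congrArg (q * ·) ht
          _ = (q * t) * K.index := by ring
      exact Nat.eq_of_mul_eq_mul_right hdpos this
    have hpdvd : p ∣ q * t := by rw [← hcardK]; exact hpe.trans hecard
    rcases (Nat.Prime.dvd_mul hprime).1 hpdvd with hpq | hpt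
    · refine ⟨K.index, hmem, ?_⟩
      have hmin : q.minFac ≤ p := Nat.minFac_le_of_dvd hprime.two_le hpq
      have hlt2 : q.minFac * (K.index % q) < q := by
        rw [hmod]
        exact lt_of_le_of_lt (Nat.mul_le_mul_right r hmin) hpr
      unfold fv
      rw [if_pos hlt2, hdiv, Nat.le_div_iff_mul_le (by omega)]
      omega
    · obtain ⟨s, hs⟩ := hpt
      have hp2 : 2 ≤ p := hprime.two_le
      have hidx : K.index = q * l + r := by omega
      have hd' : p * K.index = q * (p * l) + p * r := by rw [hidx]; ring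
      have hr2 : 2 ≤ r := by omega
      have hpr2 : 2 ≤ p * r := by nlinarith
      obtain ⟨hdiv', hmod'⟩ := D5_divmod (q := q) (l := p * l) (d := p * K.index) (by omega)
        (by rw [hd', mul_add, mul_one]; omega)
      have hmem' : p * K.index ∈ Dset q n := by
        refine D5_mem hn ?_ ?_ ?_
        · refine ⟨s, ?_⟩
          calc n = K.index * t := ht
            _ = K.index * (p * s) := congrArg (K.index * ·) hs
            _ = p * K.index * s := by ring
        · nlinarith [hlb.2.2]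
        · rw [hmod', hd']
          omega
      refine ⟨p * K.index, hmem', ?_⟩
      unfold fv
      rw [hdiv', Nat.le_div_iff_mul_le (by positivity)]
      have h8 : p * K.index = m * (p * l) + p := by rw [← h1]; ring
      omega

theorem fv_le {q n d : ℕ} (hq : 4 ≤ q) (hd : d ∈ Dset q n) : fv q d ≤ 2 * q - 2 := by
  obtain ⟨-, h1, h2⟩ := Finset.mem_filter.1 hd
  have hdm := Nat.div_add_mod d q
  have hmod := Nat.mod_lt d (show 0 < q by omega)
  have hl : 1 ≤ d / q := (Nat.one_le_div_iff (by omega)).2 (by omega)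
  unfold fv
  set l := d / q with hldef
  set r := d % q with hrdef
  have h3 : (d - 2 + (if q.minFac * r < q then 1 else 0)) / l < 2 * q - 1 := by
    rw [Nat.div_lt_iff_lt_mul (by omega)]
    have h4 : d - 2 + (if q.minFac * r < q then 1 else 0) ≤ d - 1 := by
      split_ifs <;> omega
    have h5 : (2 * q - 1) * l = q * l + (q - 1) * l := by
      have : 2 * q - 1 = q + (q - 1) := by omega
      rw [this]; ring
    have h6 : q - 1 ≤ (q - 1) * l := Nat.le_mul_of_pos_right _ (by omega)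
    omega
  omega

theorem le_fv {q n d : ℕ} (hq : 4 ≤ q) (hd : d ∈ Dset q n) : q ≤ fv q d := by
  obtain ⟨-, h1, h2⟩ := Finset.mem_filter.1 hd
  have hdm := Nat.div_add_mod d q
  have hl : 1 ≤ d / q := (Nat.one_le_div_iff (by omega)).2 (by omega)
  unfold fv
  set l := d / q with hldef
  rw [Nat.le_div_iff_mul_le (by omega)]
  omega

end Pool.Agent.HB
end

section

/-!
# TASK HB E0: complements; the function tau

PROOF of `ZF_iff`.  `B ⊆ A`, `|B| = n`, `∑ B = 0` corresponds to `A \ B ⊆ A`, `|A \ B| = m`, `∑ (A \ B) = ∑ A` (`Finset.sum_sdiff`, `Finset.card_sdiff_of_subset`).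

PROOF of `le_tau_iff`.  The set of the sizes `k` is bounded by `|G|` and contains `0` (`ZF n ∅` as `n ≥ 1`), so its `sSup` belongs to it
(`Nat.sSup_mem`); a subset of a `ZF n` set is `ZF n` (`Finset.exists_subset_card_eq`).

PROOF of `tau_le`: contraposition of `le_tau_iff` (`tau = k' ≥ k + 1`, so there is `A` with `|A| = k + 1`).

PROOF of `le_tau_of_RS`: `ZF_iff` and `le_tau_iff`.
-/

set_option autoImplicit false

open Finset

namespace Pool.Agent.HB

variable {G : Type*} [AddCommGroup G] [Fintype G] [DecidableEq G]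

omit [Fintype G] in
theorem ZF_iff {n m : ℕ} {A : Finset G} (h : A.card = n + m) :
    ZF n A ↔ ¬ RS m A (∑ x ∈ A, x) := by
  constructor
  · rintro hZ ⟨B, hBA, hBc, hBs⟩
    refine hZ (A \ B) sdiff_subset ?_ ?_
    · rw [card_sdiff_of_subset hBA, h, hBc]
      omega
    · have h1 := sum_sdiff (f := fun x : G => x) hBA
      rw [hBs] at h1
      exact left_eq_add.mp (by rw [add_comm]; exact h1.symm)
  · intro hR B hBA hBc hBs
    refine hR ⟨A \ B, sdiff_subset, ?_, ?_⟩
    · rw [card_sdiff_of_subset hBA, h, hBc]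
      omega
    · have h1 := sum_sdiff (f := fun x : G => x) hBA
      rw [hBs, add_zero] at h1
      exact h1

omit [DecidableEq G] in
theorem le_tau_iff {n k : ℕ} (hn : 1 ≤ n) :
    k ≤ tau G n ↔ ∃ A : Finset G, A.card = k ∧ ZF n A := by
  have hbdd : BddAbove {k | ∃ A : Finset G, A.card = k ∧ ZF n A} := by
    refine ⟨Fintype.card G, ?_⟩
    rintro k ⟨A, rfl, -⟩
    exact card_le_univ A
  have hne : {k | ∃ A : Finset G, A.card = k ∧ ZF n A}.Nonempty := by
    refine ⟨0, ∅, rfl, ?_⟩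
    intro B hB hBc
    rw [subset_empty] at hB
    subst hB
    rw [card_empty] at hBc
    omega
  constructor
  · intro hk
    obtain ⟨A, hAc, hAZ⟩ : tau G n ∈ {k | ∃ A : Finset G, A.card = k ∧ ZF n A} := Nat.sSup_mem hne hbdd
    obtain ⟨B, hBA, hBc⟩ := exists_subset_card_eq (hk.trans hAc.ge)
    exact ⟨B, hBc, fun D hD hDc => hAZ D (hD.trans hBA) hDc⟩
  · rintro ⟨A, hAc, hAZ⟩
    exact le_csSup hbdd ⟨A, hAc, hAZ⟩

theorem le_tau_of_RS {n m : ℕ} (hn : 1 ≤ n) {A : Finset G} (h : A.card = n + m)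
    (h' : ¬ RS m A (∑ x ∈ A, x)) : n + m ≤ tau G n :=
  (le_tau_iff hn).mpr ⟨A, h, (ZF_iff h).mpr h'⟩

theorem tau_le_of_RS {n m : ℕ} (hn : 1 ≤ n)
    (h : ∀ A : Finset G, A.card = n + (m + 1) → RS (m + 1) A (∑ x ∈ A, x)) :
    tau G n ≤ n + m := by
  by_contra hcon
  have h1 : n + (m + 1) ≤ tau G n := by omega
  obtain ⟨A, hA, hZ⟩ := (le_tau_iff hn).mp h1
  exact (ZF_iff hA).mp hZ (h A hA)

end Pool.Agent.HB
end

section

/-!
# TASK HB E1: levels

`lev d g = g.2.val % d` for `g ∈ ZMod q × ZMod n`, `d ∣ n`; `n = d t`.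

PROOFS.
* `card_level`, `card_level_dvd`: the elements `(x, y)` with `y.val % d = j` and `x` arbitrary (`q` choices), or `e ∣ x.val` (`f = q / e` choices: `x.val = e i`, `i < f`),
  `y.val = j + d i`, `i < t` (`t` choices): product (`Finset.card_product`, bijections with `range`).
* `card_below`, `sum_below`: sums over the levels `j < L` (`Finset.card_eq_sum_card_fiberwise`, `Finset.sum_fiberwise_of_maps_to`).
* `lev_sum_modEq`: `(∑ g.2).val ≡ ∑ g.2.val [MOD n]` (`ZMod.natCast_eq_natCast_iff`, `ZMod.natCast_zmod_val`), `d ∣ n`, `g.2.val ≡ lev d g [MOD d]`.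
* `exists_W`: `l = 0`: `ρ = 0`, take `w` elements of level `0`.  `l ≥ 1`: `w' = ρ / l ≤ w`, `ρ' = ρ % l`.  `ρ' = 0`: `w'` elements of level `l` and `w - w'` of level
  `0`.  `ρ' > 0`: then `w' < w` (`ρ ≤ w l`); `w'` elements of level `l`, one of level `ρ'` (`0 < ρ' < l`), `w - w' - 1` of level `0`.  The three levels are different.
  (`Finset.exists_subset_card_eq`.)
-/

set_option autoImplicit false

open Finset

namespace Pool.Agent.HB

private theorem E1_lev {n d t : ℕ} [NeZero n] (hd : n = d * t) {j : ℕ} (hj : j < d) :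
    (univ.filter fun y : ZMod n => y.val % d = j).card = t := by
  have hd0 : 0 < d := by omega
  symm
  rw [← card_range t]
  have hlt : ∀ i < t, j + d * i < n := by
    intro i hi
    rw [hd]
    have h1 : d * (i + 1) ≤ d * t := Nat.mul_le_mul_left d hi
    rw [Nat.mul_add, Nat.mul_one] at h1
    omega
  refine Finset.card_bij (fun i _ => ((j + d * i : ℕ) : ZMod n)) ?_ ?_ ?_
  · intro i hi
    rw [mem_range] at hi
    rw [mem_filter]
    refine ⟨mem_univ _, ?_⟩
    rw [ZMod.val_natCast_of_lt (hlt i hi), Nat.add_mul_mod_self_left, Nat.mod_eq_of_lt hj]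
  · intro i hi i' hi' h
    rw [mem_range] at hi hi'
    have h1 := congrArg ZMod.val h
    rw [ZMod.val_natCast_of_lt (hlt i hi), ZMod.val_natCast_of_lt (hlt i' hi')] at h1
    exact Nat.eq_of_mul_eq_mul_left hd0 (Nat.add_left_cancel h1)
  · intro y hy
    rw [mem_filter] at hy
    refine ⟨y.val / d, mem_range.2 (Nat.div_lt_of_lt_mul (by rw [← hd]; exact ZMod.val_lt y)), ?_⟩
    rw [← hy.2, Nat.mod_add_div, ZMod.natCast_zmod_val]

theorem card_level {q n d t : ℕ} [NeZero q] [NeZero n] (hd : n = d * t) {j : ℕ} (hj : j < d) :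
    (univ.filter fun g : ZMod q × ZMod n => lev d g = j).card = q * t := by
  have h1 : (univ.filter fun g : ZMod q × ZMod n => lev d g = j) =
      (univ : Finset (ZMod q)) ×ˢ (univ.filter fun y : ZMod n => y.val % d = j) := by
    ext g
    rw [mem_product]
    constructor
    · intro h
      exact ⟨mem_univ _, mem_filter.2 ⟨mem_univ _, (mem_filter.1 h).2⟩⟩
    · rintro ⟨-, h⟩
      exact mem_filter.2 ⟨mem_univ _, (mem_filter.1 h).2⟩
  rw [h1, card_product, E1_lev hd hj, card_univ, ZMod.card]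

theorem card_level_dvd {q n d t e f : ℕ} [NeZero q] [NeZero n] (hd : n = d * t)
    (hq : q = e * f) {j : ℕ} (hj : j < d) :
    (univ.filter fun g : ZMod q × ZMod n => lev d g = j ∧ e ∣ g.1.val).card = f * t := by
  have he : 0 < e := by
    rcases Nat.eq_zero_or_pos e with h | h
    · exact absurd (by rw [hq, h, zero_mul]) (NeZero.ne q)
    · exact h
  have h1 : (univ.filter fun g : ZMod q × ZMod n => lev d g = j ∧ e ∣ g.1.val) =
      (univ.filter fun x : ZMod q => x.val % e = 0) ×ˢ (univ.filter fun y : ZMod n => y.val % d = j) := by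
    ext g
    simp only [lev, mem_filter, mem_univ, true_and, mem_product, Nat.dvd_iff_mod_eq_zero]
    exact and_comm
  rw [h1, card_product, E1_lev hd hj, E1_lev hq he]

theorem card_below {q n d t : ℕ} [NeZero q] [NeZero n] (hd : n = d * t) {L : ℕ} (hL : L ≤ d) :
    (univ.filter fun g : ZMod q × ZMod n => lev d g < L).card = L * (q * t) := by
  rw [Finset.card_eq_sum_card_fiberwise (f := lev d) (t := range L) (fun g hg => by
    rw [mem_coe, mem_filter] at hg
    exact mem_coe.2 (mem_range.2 hg.2))]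
  rw [Finset.sum_congr rfl (g := fun _ => q * t) ?_, sum_const, card_range, smul_eq_mul]
  intro j hj
  rw [mem_range] at hj
  rw [← card_level (q := q) hd (lt_of_lt_of_le hj hL), filter_filter]
  congr 1
  ext g
  rw [mem_filter, mem_filter]
  constructor
  · rintro ⟨h1, -, h2⟩
    exact ⟨h1, h2⟩
  · rintro ⟨h1, h2⟩
    exact ⟨h1, by rw [h2]; exact hj, h2⟩

theorem sum_below {q n d t : ℕ} [NeZero q] [NeZero n] (hd : n = d * t) {L : ℕ} (hL : L ≤ d) :
    ∑ g ∈ univ.filter (fun g : ZMod q × ZMod n => lev d g < L), lev d g =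
      q * t * (L * (L - 1) / 2) := by
  rw [← Finset.sum_fiberwise_of_maps_to (g := lev d) (t := range L) (fun g hg => by
    rw [mem_filter] at hg
    exact mem_range.2 hg.2)]
  rw [Finset.sum_congr rfl (g := fun j => q * t * j) ?_, ← mul_sum, sum_range_id]
  intro j hj
  rw [mem_range] at hj
  have h1 : ((univ.filter fun g : ZMod q × ZMod n => lev d g < L).filter fun g => lev d g = j) =
      univ.filter fun g : ZMod q × ZMod n => lev d g = j := by
    rw [filter_filter]
    ext g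
    rw [mem_filter, mem_filter]
    constructor
    · rintro ⟨h1, -, h2⟩
      exact ⟨h1, h2⟩
    · rintro ⟨h1, h2⟩
      exact ⟨h1, by rw [h2]; exact hj, h2⟩
  rw [h1, Finset.sum_const_nat (m := j) (fun g hg => (mem_filter.1 hg).2), card_level (q := q) hd (lt_of_lt_of_le hj hL)]

theorem lev_sum_modEq {q n d : ℕ} [NeZero q] [NeZero n] (hd : d ∣ n)
    {A B : Finset (ZMod q × ZMod n)} (h : ∑ x ∈ B, x = ∑ x ∈ A, x) :
    ∑ x ∈ B, lev d x ≡ ∑ x ∈ A, lev d x [MOD d] := by
  have h1 : ∀ C : Finset (ZMod q × ZMod n), ((∑ x ∈ C, x.2.val : ℕ) : ZMod n) = (∑ x ∈ C, x).2 := by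
    intro C
    rw [Nat.cast_sum, Prod.snd_sum]
    exact sum_congr rfl fun x _ => ZMod.natCast_zmod_val _
  have h2 : (∑ x ∈ B, x.2.val) ≡ (∑ x ∈ A, x.2.val) [MOD n] := by
    rw [← ZMod.natCast_eq_natCast_iff, h1, h1, h]
  have h3 : ∀ C : Finset (ZMod q × ZMod n), (∑ x ∈ C, lev d x) ≡ (∑ x ∈ C, x.2.val) [MOD d] := by
    intro C
    induction C using Finset.induction_on with
    | empty => rfl
    | insert a C ha ih =>
      rw [sum_insert ha, sum_insert ha]
      exact (Nat.mod_modEq _ _).add ih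
  exact (h3 B).trans ((h2.of_dvd hd).trans (h3 A).symm)

theorem exists_W {α : Type*} [DecidableEq α] (lv : α → ℕ) (T : Finset α) {w ρ l : ℕ}
    (hT : ∀ j ≤ l, w ≤ (T.filter fun x => lv x = j).card) (hρ : ρ ≤ w * l) :
    ∃ W ⊆ T, W.card = w ∧ (∀ x ∈ W, lv x ≤ l) ∧ ∑ x ∈ W, lv x = ρ := by
  rcases Nat.eq_zero_or_pos l with hl | hl
  · subst hl
    obtain ⟨W, hW, hc⟩ := Finset.exists_subset_card_eq (hT 0 le_rfl)
    have hz : ∀ x ∈ W, lv x = 0 := fun x hx => (mem_filter.1 (hW hx)).2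
    refine ⟨W, hW.trans (filter_subset _ _), hc, fun x hx => (hz x hx).le, ?_⟩
    rw [sum_eq_zero hz]
    omega
  · have hdiv := Nat.div_add_mod ρ l
    have hmod := Nat.mod_lt ρ hl
    set w' := ρ / l with hw'
    set ρ' := ρ % l with hρ'
    have hw : w' ≤ w := by
      by_contra h
      have h1 : l * (w + 1) ≤ l * w' := Nat.mul_le_mul_left l (not_le.1 h)
      rw [Nat.mul_add, Nat.mul_one, Nat.mul_comm l w] at h1
      omega
    obtain ⟨W1, hW1, hc1⟩ := Finset.exists_subset_card_eq (hw.trans (hT l le_rfl))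
    have hz1 : ∀ x ∈ W1, lv x = l := fun x hx => (mem_filter.1 (hW1 hx)).2
    rcases Nat.eq_zero_or_pos ρ' with hr | hr
    · obtain ⟨W0, hW0, hc0⟩ := Finset.exists_subset_card_eq ((Nat.sub_le w w').trans (hT 0 (Nat.zero_le _)))
      have hz0 : ∀ x ∈ W0, lv x = 0 := fun x hx => (mem_filter.1 (hW0 hx)).2
      have hdis : Disjoint W1 W0 := disjoint_left.2 fun x h1 h2 => by
        have := hz1 x h1
        have := hz0 x h2
        omega
      refine ⟨W1 ∪ W0, union_subset (hW1.trans (filter_subset _ _)) (hW0.trans (filter_subset _ _)), ?_, ?_, ?_⟩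
      · rw [card_union_of_disjoint hdis, hc1, hc0]
        omega
      · intro x hx
        rcases mem_union.1 hx with h1 | h1
        · exact (hz1 x h1).le
        · rw [hz0 x h1]; exact Nat.zero_le _
      · rw [sum_union hdis, Finset.sum_const_nat hz1, Finset.sum_eq_zero hz0, hc1, Nat.mul_comm w' l]
        omega
    · have hw2 : w' < w := by
        by_contra h
        have h1 : w = w' := le_antisymm (not_lt.1 h) hw
        rw [h1, Nat.mul_comm w' l] at hρ
        omega
      obtain ⟨W2, hW2, hc2⟩ := Finset.exists_subset_card_eq ((show 1 ≤ w by omega).trans (hT ρ' hmod.le))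
      have hz2 : ∀ x ∈ W2, lv x = ρ' := fun x hx => (mem_filter.1 (hW2 hx)).2
      obtain ⟨W0, hW0, hc0⟩ := Finset.exists_subset_card_eq ((Nat.sub_le w (w' + 1)).trans (hT 0 (Nat.zero_le _)))
      have hz0 : ∀ x ∈ W0, lv x = 0 := fun x hx => (mem_filter.1 (hW0 hx)).2
      have hdis12 : Disjoint W1 W2 := disjoint_left.2 fun x h1 h2 => by
        have := hz1 x h1
        have := hz2 x h2
        omega
      have hdis : Disjoint (W1 ∪ W2) W0 := disjoint_left.2 fun x h1 h2 => by
        have h3 := hz0 x h2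
        rcases mem_union.1 h1 with h4 | h4
        · have := hz1 x h4
          omega
        · have := hz2 x h4
          omega
      refine ⟨W1 ∪ W2 ∪ W0, union_subset (union_subset (hW1.trans (filter_subset _ _)) (hW2.trans (filter_subset _ _)))
        (hW0.trans (filter_subset _ _)), ?_, ?_, ?_⟩
      · rw [card_union_of_disjoint hdis, card_union_of_disjoint hdis12, hc1, hc2, hc0]
        omega
      · intro x hx
        rcases mem_union.1 hx with h1 | h1
        · rcases mem_union.1 h1 with h2 | h2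
          · exact (hz1 x h2).le
          · rw [hz2 x h2]; exact hmod.le
        · rw [hz0 x h1]; exact Nat.zero_le _
      · rw [sum_union hdis, sum_union hdis12, Finset.sum_const_nat hz1, Finset.sum_const_nat hz2, Finset.sum_eq_zero hz0,
          hc1, hc2, Nat.mul_comm w' l]
        omega

end Pool.Agent.HB
end

section

/-!
# TASK HB E2: the constructions INT and INT1

Write `h = q t`.

PROOF of `INT`.  `T = {lev < l + 1}` (`l + 1 ≤ d`), `|T| = (l + 1) h`, `∑_T lev = h ((l + 1) l / 2)`.  Every level `j ≤ l` has `h ≥ w` elements: `exists_W` gives `W ⊆ T`,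
`|W| = w`, `∑_W lev = ρ`.  `A = T \ W`, `|A| = n + m`, `∑_A lev + ρ = h (l (l + 1) / 2)`, so `∑_A lev ≡ c [MOD d]` (`Nat.ModEq.add_right_cancel'`).  If `RS m A (∑ A)`: `B ⊆ A`,
`|B| = m`, `∑ B = ∑ A`; `∑_B lev ≤ m l < c < d` and `∑_B lev ≡ c [MOD d]` (`lev_sum_modEq`): contradiction (both are `< d`).  `le_tau_of_RS`.

PROOF of `INT1`.  The same with `T = {lev < l + 1} ∪ {g0}`, `g0` an element of level `l + 1 < d` (`g0 = (0, l + 1)`), `W ⊆ {lev < l + 1}`: `|A| = (l + 1) h + 1 - w = n + m`,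
`∑_A lev + ρ = h (l (l + 1) / 2) + (l + 1)`, and `m` elements of `A` have level sum at most `m l + 1 < c` (at most one of them has level `l + 1`).

PROOF of `INT_big`.  `INT` with `c = d - 1` and `ρ = (q t (l (l + 1) / 2) + 1) % d ≤ d - 1 ≤ w l`.
PROOF of `INT1_big`.  `INT1` with `c = d - 1` and `ρ = (q t (l (l + 1) / 2) + (l + 1) + 1) % d ≤ d - 1 ≤ w l`.
-/

set_option autoImplicit false

open Finset

namespace Pool.Agent.HB

private theorem E2_level_count {q n d t l w : ℕ} [NeZero q] [NeZero n] (hd : n = d * t) (hl : l + 1 ≤ d)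
    (hwh : w ≤ q * t) : ∀ j ≤ l, w ≤ ((univ.filter fun g : ZMod q × ZMod n => lev d g < l + 1).filter
      fun x => lev d x = j).card := by
  intro j hj
  have h1 : ((univ.filter fun g : ZMod q × ZMod n => lev d g < l + 1).filter fun x => lev d x = j) =
      univ.filter fun g : ZMod q × ZMod n => lev d g = j := by
    ext g
    simp only [mem_filter, mem_univ, true_and]
    constructor
    · intro h
      exact h.2
    · intro h
      exact ⟨by omega, h⟩
  rw [h1, card_level hd (by omega)]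
  exact hwh

private theorem E2_mod {d X : ℕ} (hd : 1 ≤ d) : d - 1 + (X + 1) % d ≡ X [MOD d] := by
  have h1 : d - 1 + (X + 1) % d ≡ d - 1 + (X + 1) [MOD d] := (Nat.ModEq.refl _).add (Nat.mod_modEq _ _)
  have h2 : d - 1 + (X + 1) = X + d := by omega
  rw [h2] at h1
  exact h1.trans (by simp [Nat.ModEq])

theorem INT {q n d t l m w ρ c : ℕ} [NeZero q] [NeZero n] (hd : n = d * t) (hl : l + 1 ≤ d)
    (hw : n + m + w = (l + 1) * (q * t)) (hwh : w ≤ q * t) (hρ : ρ ≤ w * l)
    (hc : m * l + 1 ≤ c) (hc' : c + 1 ≤ d)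
    (hs : c + ρ ≡ q * t * (l * (l + 1) / 2) [MOD d]) : n + m ≤ tau (ZMod q × ZMod n) n := by
  classical
  have hn : 1 ≤ n := Nat.pos_of_ne_zero (NeZero.ne n)
  obtain ⟨W, hWT, hWc, -, hWs⟩ := exists_W (lev d) (univ.filter fun g : ZMod q × ZMod n => lev d g < l + 1)
    (E2_level_count hd hl hwh) hρ
  have hTc := card_below (q := q) hd hl
  have hTs := sum_below (q := q) hd hl
  have hAc : ((univ.filter fun g : ZMod q × ZMod n => lev d g < l + 1) \ W).card = n + m := by
    rw [card_sdiff_of_subset hWT, hTc, hWc]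
    omega
  have hAs : ∑ x ∈ (univ.filter fun g : ZMod q × ZMod n => lev d g < l + 1) \ W, lev d x + ρ =
      q * t * (l * (l + 1) / 2) := by
    rw [← hWs, sum_sdiff hWT, hTs]
    congr 2
    rw [Nat.add_sub_cancel, mul_comm]
  have hAm : c ≡ ∑ x ∈ (univ.filter fun g : ZMod q × ZMod n => lev d g < l + 1) \ W, lev d x [MOD d] := by
    rw [← hAs] at hs
    exact Nat.ModEq.add_right_cancel' _ hs
  refine le_tau_of_RS hn hAc ?_
  rintro ⟨B, hBA, hBm, hBs⟩
  have h1 := lev_sum_modEq (d := d) ⟨t, hd⟩ hBs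
  have h2 : ∑ x ∈ B, lev d x ≤ m * l := by
    rw [← hBm, ← smul_eq_mul]
    refine sum_le_card_nsmul _ _ _ fun x hx => ?_
    have h3 := (mem_filter.mp (mem_sdiff.mp (hBA hx)).1).2
    omega
  have h3 : ∑ x ∈ B, lev d x ≡ c [MOD d] := h1.trans hAm.symm
  have h4 := Nat.ModEq.eq_of_lt_of_lt h3 (by omega) (by omega)
  omega

theorem INT_big {q n d t l m w : ℕ} [NeZero q] [NeZero n] (hd : n = d * t) (hl : l + 1 ≤ d)
    (hw : n + m + w = (l + 1) * (q * t)) (hwh : w ≤ q * t) (hwd : d ≤ w * l + 1)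
    (hm : m * l + 2 ≤ d) : n + m ≤ tau (ZMod q × ZMod n) n := by
  have hd1 : 1 ≤ d := by omega
  have h1 : (q * t * (l * (l + 1) / 2) + 1) % d < d := Nat.mod_lt _ (by omega)
  refine INT (c := d - 1) (ρ := (q * t * (l * (l + 1) / 2) + 1) % d) hd hl hw hwh (by omega) (by omega) (by omega) ?_
  exact E2_mod hd1

theorem INT1 {q n d t l m w ρ c : ℕ} [NeZero q] [NeZero n] (hd : n = d * t) (hl : l + 2 ≤ d)
    (hm : 1 ≤ m) (hw : n + m + w = (l + 1) * (q * t) + 1) (hwh : w ≤ q * t) (hρ : ρ ≤ w * l)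
    (hc : m * l + 2 ≤ c) (hc' : c + 1 ≤ d)
    (hs : c + ρ ≡ q * t * (l * (l + 1) / 2) + (l + 1) [MOD d]) :
    n + m ≤ tau (ZMod q × ZMod n) n := by
  classical
  have hn : 1 ≤ n := Nat.pos_of_ne_zero (NeZero.ne n)
  have hq : 1 ≤ q := Nat.pos_of_ne_zero (NeZero.ne q)
  have ht : 1 ≤ t := by
    rcases Nat.eq_zero_or_pos t with h | h
    · rw [h, mul_zero] at hd
      omega
    · exact h
  have hl' : l + 1 ≤ d := by omega
  obtain ⟨W, hWT, hWc, -, hWs⟩ := exists_W (lev d) (univ.filter fun g : ZMod q × ZMod n => lev d g < l + 1)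
    (E2_level_count hd hl' hwh) hρ
  have hTc := card_below (q := q) hd hl'
  have hTs := sum_below (q := q) hd hl'
  obtain ⟨g0, hg0⟩ : ∃ g0 : ZMod q × ZMod n, lev d g0 = l + 1 := by
    have h1 : 0 < (univ.filter fun g : ZMod q × ZMod n => lev d g = l + 1).card := by
      rw [card_level hd (by omega)]
      exact Nat.mul_pos hq ht
    obtain ⟨g, hg⟩ := card_pos.mp h1
    exact ⟨g, (mem_filter.mp hg).2⟩
  have hg0T : g0 ∉ (univ.filter fun g : ZMod q × ZMod n => lev d g < l + 1) \ W := by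
    intro h
    have h1 := (mem_filter.mp (mem_sdiff.mp h).1).2
    omega
  have hWle : w ≤ (l + 1) * (q * t) := by
    rw [← hTc, ← hWc]
    exact card_le_card hWT
  have hAc : (insert g0 ((univ.filter fun g : ZMod q × ZMod n => lev d g < l + 1) \ W)).card = n + m := by
    rw [card_insert_of_notMem hg0T, card_sdiff_of_subset hWT, hTc, hWc]
    omega
  have hAs : ∑ x ∈ insert g0 ((univ.filter fun g : ZMod q × ZMod n => lev d g < l + 1) \ W), lev d x + ρ =
      q * t * (l * (l + 1) / 2) + (l + 1) := by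
    rw [sum_insert hg0T, hg0, add_assoc, ← hWs, sum_sdiff hWT, hTs, add_comm]
    congr 3
    rw [Nat.add_sub_cancel, mul_comm]
  have hAm : c ≡ ∑ x ∈ insert g0 ((univ.filter fun g : ZMod q × ZMod n => lev d g < l + 1) \ W), lev d x
      [MOD d] := by
    rw [← hAs] at hs
    exact Nat.ModEq.add_right_cancel' _ hs
  refine le_tau_of_RS hn hAc ?_
  rintro ⟨B, hBA, hBm, hBs⟩
  have h1 := lev_sum_modEq (d := d) ⟨t, hd⟩ hBs
  have h5 : ∀ C : Finset (ZMod q × ZMod n), C ⊆ B → g0 ∉ C → ∑ x ∈ C, lev d x ≤ C.card * l := by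
    intro C hC hg
    rw [← smul_eq_mul]
    refine sum_le_card_nsmul _ _ _ fun x hx => ?_
    have h3 := hBA (hC hx)
    rw [mem_insert] at h3
    rcases h3 with h3 | h3
    · exact absurd (h3 ▸ hx) hg
    · have h4 := (mem_filter.mp (mem_sdiff.mp h3).1).2
      omega
  have h2 : ∑ x ∈ B, lev d x ≤ m * l + 1 := by
    by_cases hg : g0 ∈ B
    · have h6 := h5 (B.erase g0) (erase_subset _ _) (notMem_erase _ _)
      rw [card_erase_of_mem hg, hBm] at h6
      have h7 := add_sum_erase B (fun x => lev d x) hg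
      rw [← h7, hg0]
      obtain ⟨m', rfl⟩ : ∃ m', m = m' + 1 := ⟨m - 1, by omega⟩
      rw [Nat.add_sub_cancel] at h6
      have h8 : (m' + 1) * l = m' * l + l := by ring
      omega
    · have h6 := h5 B (Subset.refl _) hg
      rw [hBm] at h6
      omega
  have h3 : ∑ x ∈ B, lev d x ≡ c [MOD d] := h1.trans hAm.symm
  have h4 := Nat.ModEq.eq_of_lt_of_lt h3 (by omega) (by omega)
  omega

theorem INT1_big {q n d t l m w : ℕ} [NeZero q] [NeZero n] (hd : n = d * t) (hl : l + 2 ≤ d)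
    (hm : 1 ≤ m) (hw : n + m + w = (l + 1) * (q * t) + 1) (hwh : w ≤ q * t)
    (hwd : d ≤ w * l + 1) (hml : m * l + 3 ≤ d) : n + m ≤ tau (ZMod q × ZMod n) n := by
  have hd1 : 1 ≤ d := by omega
  have h1 : (q * t * (l * (l + 1) / 2) + (l + 1) + 1) % d < d := Nat.mod_lt _ (by omega)
  refine INT1 (c := d - 1) (ρ := (q * t * (l * (l + 1) / 2) + (l + 1) + 1) % d) hd hl hm hw hwh (by omega) (by omega)
    (by omega) ?_
  exact E2_mod hd1

end Pool.Agent.HB
end

section

/-!
# TASK HB E4: the constructions KK and EV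

PROOF of `KK`.  `q` even, `n = q k`, `k` odd; `k < n`.  `A = {(x, y) : y.val ≤ k}`, `|A| = q (k + 1) = n + q`.  `∑ A = 0`: second coordinate
`∑ = q (0 + 1 + .. + k) = q k ((k + 1) / 2) = n (k + 1) / 2 = 0` in `ZMod n`; first coordinate `(k + 1) ∑_{x ∈ ZMod q} x` and `2 ∑_{x} x = 0` (substitute `-x`),
`k + 1` even: `0`.  Suppose `RS q A 0`: `B ⊆ A`, `|B| = q`, `∑ B = 0`.  `∑_B y.val ≤ q k = n` and `n ∣ ∑_B y.val`.  So it is `0` or `n`: all `y.val = 0`, or all
`y.val = k`.  So `B` is contained in `{(x, y0)}`, which has `q` elements, `B = ZMod q × {y0}`, and the first coordinate of its sum is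
`∑_{x ∈ ZMod q} x = q (q - 1) / 2 = (q / 2) (q - 1)`, which is not `0` in `ZMod q` (`q ∣ (q / 2) (q - 1)` would give `2 ∣ q - 1`).  `le_tau_of_RS`.

PROOF of `EV`.  `n` even, `2 ≤ q ≤ n`.  `A = {(0, y)} ∪ {(1, y) : y.val < q - 1}`, `|A| = n + (q - 1)` (`0 ≠ 1` in `ZMod q`).  Suppose `RS (q - 1) A (∑ A)`: `B ⊆ A`, `|B| = q - 1`,
`∑ B = ∑ A`.  First coordinates: the number of the elements `(1, y)` of `B`, at most `q - 1`, is `≡ q - 1 [MOD q]`, so it is `q - 1` and
`B = {(1, y) : y.val < q - 1}`.  So `∑_{y ∈ ZMod n} y = 0`; but this sum is `n (n - 1) / 2 = (n / 2) (n - 1)`, not `0` in `ZMod n` as above.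
(The sum of all elements of `ZMod (2 k)`: `∑_{i < 2 k} i = k (2 k - 1)`, `Finset.sum_range_id`; transfer with `ZMod.val`, e.g. `Fin.sum_univ_eq_sum_range`, or by an
explicit `Finset.sum_bij`.)
-/

set_option autoImplicit false

open Finset

namespace Pool.Agent.HB

private theorem E4_sum {n : ℕ} [NeZero n] {M : Type*} [AddCommMonoid M] (f : ZMod n → M) {L : ℕ} (hL : L ≤ n) :
    ∑ x ∈ univ.filter (fun x : ZMod n => x.val < L), f x = ∑ i ∈ range L, f (i : ZMod n) := by
  refine Finset.sum_nbij' (fun x => x.val) (fun i => (i : ZMod n)) ?_ ?_ ?_ ?_ ?_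
  · intro x hx
    exact mem_range.mpr (mem_filter.mp hx).2
  · intro i hi
    have hi' := mem_range.mp hi
    rw [mem_filter]
    refine ⟨mem_univ _, ?_⟩
    rw [ZMod.val_cast_of_lt (hi'.trans_le hL)]
    exact hi'
  · intro x _
    exact ZMod.natCast_zmod_val x
  · intro i hi
    exact ZMod.val_cast_of_lt ((mem_range.mp hi).trans_le hL)
  · intro x _
    rw [ZMod.natCast_zmod_val]

private theorem E4_card {n : ℕ} [NeZero n] {L : ℕ} (hL : L ≤ n) :
    (univ.filter (fun x : ZMod n => x.val < L)).card = L := by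
  rw [card_eq_sum_ones, E4_sum (fun _ => 1) hL]
  simp

private theorem E4_univ {n : ℕ} [NeZero n] : (univ.filter (fun x : ZMod n => x.val < n)) = univ := by
  ext x
  simp [ZMod.val_lt x]

theorem sum_univ_ne_zero {n : ℕ} [NeZero n] (hn : 2 ∣ n) : ∑ x : ZMod n, x ≠ 0 := by
  intro h
  have h1 := E4_sum (n := n) (fun x => x) le_rfl
  rw [E4_univ, h] at h1
  have h2 : ((∑ i ∈ range n, i : ℕ) : ZMod n) = 0 := by
    push_cast
    exact h1.symm
  rw [ZMod.natCast_eq_zero_iff] at h2
  obtain ⟨c, hc⟩ := h2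
  obtain ⟨k, hk⟩ := hn
  have h3 := Finset.sum_range_id_mul_two n
  have hn0 : 0 < n := Nat.pos_of_ne_zero (NeZero.ne n)
  rw [hc, mul_assoc] at h3
  have h4 := Nat.eq_of_mul_eq_mul_left hn0 h3
  omega

private theorem E4_two_sum {q : ℕ} [NeZero q] : (2 : ℕ) • ∑ x : ZMod q, x = 0 := by
  have h1 : ∑ x : ZMod q, x = ∑ x : ZMod q, -x := (Equiv.sum_comp (Equiv.neg (ZMod q)) (fun x => x)).symm
  rw [Finset.sum_neg_distrib] at h1
  rw [two_nsmul]
  nth_rewrite 1 [h1]
  exact neg_add_cancel _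

theorem KK {q n k : ℕ} [NeZero q] [NeZero n] (hq : 2 ∣ q) (hn : n = q * k) (hk : Odd k) :
    n + q ≤ tau (ZMod q × ZMod n) n := by
  have hq0 : 0 < q := Nat.pos_of_ne_zero (NeZero.ne q)
  have hn0 : 0 < n := Nat.pos_of_ne_zero (NeZero.ne n)
  have hq2 : 2 ≤ q := Nat.le_of_dvd hq0 hq
  have hk0 : 0 < k := hk.pos
  have hkn : k + 1 ≤ n := by
    rw [hn]
    nlinarith
  set Y : Finset (ZMod n) := univ.filter (fun y => y.val < k + 1) with hY
  have hYc : Y.card = k + 1 := E4_card hkn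
  have hAc : ((univ : Finset (ZMod q)) ×ˢ Y).card = n + q := by
    rw [card_product, hYc, card_univ, ZMod.card, hn]
    ring
  refine le_tau_of_RS hn0 hAc ?_
  have hsum : ∑ x ∈ (univ : Finset (ZMod q)) ×ˢ Y, x = 0 := by
    apply Prod.ext
    · rw [Prod.fst_sum, sum_product]
      simp only [sum_const, hYc, Prod.fst_zero]
      rw [← Finset.smul_sum]
      obtain ⟨j, hj⟩ := hk
      have h1 : k + 1 = (j + 1) * 2 := by omega
      rw [h1, mul_smul, E4_two_sum, smul_zero]
    · rw [Prod.snd_sum, sum_product]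
      simp only [sum_const, Prod.snd_zero]
      rw [card_univ, ZMod.card, hY, E4_sum (fun y => y) hkn]
      have h2 : (q • ∑ i ∈ range (k + 1), (i : ZMod n)) = ((q * ∑ i ∈ range (k + 1), i : ℕ) : ZMod n) := by
        push_cast
        rw [nsmul_eq_mul]
      rw [h2, ZMod.natCast_eq_zero_iff]
      obtain ⟨j, hj⟩ := hk
      have h3 := Finset.sum_range_id_mul_two (k + 1)
      refine ⟨j + 1, ?_⟩
      have h4 : ∑ i ∈ range (k + 1), i = k * (j + 1) := by
        have h5 : (∑ i ∈ range (k + 1), i) * 2 = (k * (j + 1)) * 2 := by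
          rw [h3, Nat.add_sub_cancel]
          have : k + 1 = (j + 1) * 2 := by omega
          rw [this]
          ring
        omega
      rw [h4, hn]
      ring
  rw [hsum]
  rintro ⟨B, hBA, hBc, hBs⟩
  have hval : ∀ g ∈ B, g.2.val ≤ k := by
    intro g hg
    have h1 := mem_product.mp (hBA hg)
    have h2 := (mem_filter.mp h1.2).2
    omega
  have hdvd : n ∣ ∑ g ∈ B, g.2.val := by
    rw [← ZMod.natCast_eq_zero_iff]
    push_cast
    simp only [ZMod.natCast_zmod_val]
    have h1 := congrArg Prod.snd hBs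
    rw [Prod.snd_sum] at h1
    exact h1
  have hle : ∑ g ∈ B, g.2.val ≤ n := by
    calc ∑ g ∈ B, g.2.val ≤ ∑ _g ∈ B, k := sum_le_sum hval
      _ = n := by rw [sum_const, hBc, hn, smul_eq_mul]
  have hy0 : ∃ y0 : ZMod n, ∀ g ∈ B, g.2 = y0 := by
    rcases Nat.eq_zero_or_pos (∑ g ∈ B, g.2.val) with h0 | h0
    · refine ⟨0, fun g hg => ?_⟩
      have h1 := (sum_eq_zero_iff.mp h0) g hg
      exact (ZMod.val_eq_zero _).mp h1
    · have h1 : ∑ g ∈ B, g.2.val = n := le_antisymm hle (Nat.le_of_dvd h0 hdvd)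
      have h2 : ∀ g ∈ B, g.2.val = k := by
        have h3 : ∑ g ∈ B, g.2.val = ∑ _g ∈ B, k := by
          rw [h1, sum_const, hBc, hn, smul_eq_mul]
        exact (sum_eq_sum_iff_of_le hval).mp h3
      refine ⟨(k : ZMod n), fun g hg => ?_⟩
      rw [← h2 g hg, ZMod.natCast_zmod_val]
  obtain ⟨y0, hy0⟩ := hy0
  have hB : B = (univ : Finset (ZMod q)) ×ˢ {y0} := by
    apply eq_of_subset_of_card_le
    · intro g hg
      rw [mem_product]
      exact ⟨mem_univ _, mem_singleton.mpr (hy0 g hg)⟩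
    · rw [card_product, card_univ, ZMod.card, card_singleton, hBc, mul_one]
  have h1 := congrArg Prod.fst hBs
  rw [Prod.fst_sum, hB, sum_product] at h1
  simp only [sum_singleton, Prod.fst_zero] at h1
  exact sum_univ_ne_zero hq h1

theorem EV {q n : ℕ} [NeZero q] [NeZero n] (hq : 2 ≤ q) (hqn : q ≤ n) (hn : 2 ∣ n) :
    n + (q - 1) ≤ tau (ZMod q × ZMod n) n := by
  have hn0 : 0 < n := Nat.pos_of_ne_zero (NeZero.ne n)
  have h10 : (1 : ZMod q) ≠ 0 := by
    intro h
    have h1 : ((1 : ℕ) : ZMod q) = 0 := by rw [Nat.cast_one]; exact h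
    rw [ZMod.natCast_eq_zero_iff] at h1
    have := Nat.le_of_dvd one_pos h1
    omega
  set Y : Finset (ZMod n) := univ.filter (fun y => y.val < q - 1) with hY
  have hYc : Y.card = q - 1 := E4_card (by omega)
  set A0 : Finset (ZMod q × ZMod n) := {0} ×ˢ univ with hA0
  set A1 : Finset (ZMod q × ZMod n) := {1} ×ˢ Y with hA1
  have hdis : Disjoint A0 A1 := by
    rw [disjoint_left]
    intro g h0 h1
    have h2 := mem_singleton.mp (mem_product.mp h0).1
    have h3 := mem_singleton.mp (mem_product.mp h1).1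
    rw [h2] at h3
    exact h10 h3.symm
  have hA0c : A0.card = n := by
    rw [hA0, card_product, card_singleton, card_univ, ZMod.card, one_mul]
  have hA1c : A1.card = q - 1 := by
    rw [hA1, card_product, card_singleton, hYc, one_mul]
  have hAc : (A0 ∪ A1).card = n + (q - 1) := by
    rw [card_union_of_disjoint hdis, hA0c, hA1c]
  refine le_tau_of_RS hn0 hAc ?_
  rintro ⟨B, hBA, hBc, hBs⟩
  have hcase : ∀ g ∈ B, g ∈ A0 ∨ g ∈ A1 := fun g hg => mem_union.mp (hBA hg)
  -- the first coordinates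
  have hf0 : ∀ g ∈ A0, g.1 = 0 := fun g hg => mem_singleton.mp (mem_product.mp hg).1
  have hf1 : ∀ g ∈ A1, g.1 = 1 := fun g hg => mem_singleton.mp (mem_product.mp hg).1
  have hsA : ∑ g ∈ A0 ∪ A1, g.1 = ((q - 1 : ℕ) : ZMod q) := by
    rw [sum_union hdis, sum_congr rfl hf0, sum_congr rfl hf1]
    simp [hA1c]
  have hsB : ∑ g ∈ B, g.1 = (((B.filter fun g => g ∈ A1).card : ℕ) : ZMod q) := by
    have h1 : ∀ g ∈ B, g.1 = if g ∈ A1 then 1 else 0 := by
      intro g hg
      split_ifs with h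
      · exact hf1 g h
      · rcases hcase g hg with h2 | h2
        · exact hf0 g h2
        · exact absurd h2 h
    rw [sum_congr rfl h1, sum_boole]
  have h2 := congrArg Prod.fst hBs
  rw [Prod.fst_sum, Prod.fst_sum, hsA, hsB, ZMod.natCast_eq_natCast_iff] at h2
  have hle : (B.filter fun g => g ∈ A1).card ≤ q - 1 := by
    rw [← hBc]
    exact card_filter_le _ _
  have h3 : (B.filter fun g => g ∈ A1).card = q - 1 :=
    Nat.ModEq.eq_of_lt_of_lt h2 (by omega) (by omega)
  have h4 : B.filter (fun g => g ∈ A1) = B := by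
    apply eq_of_subset_of_card_le (filter_subset _ _)
    rw [h3, hBc]
  have h5 : B ⊆ A1 := by
    intro g hg
    rw [← h4] at hg
    exact (mem_filter.mp hg).2
  have h6 : B = A1 := eq_of_subset_of_card_le h5 (by rw [hA1c, hBc])
  rw [h6, sum_union hdis] at hBs
  have h7 : ∑ x ∈ A0, x = 0 := by
    have h8 : (0 : ZMod q × ZMod n) + ∑ x ∈ A1, x = ∑ x ∈ A0, x + ∑ x ∈ A1, x := by
      rw [zero_add]
      exact hBs
    exact (add_right_cancel h8).symm
  have h9 := congrArg Prod.snd h7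
  rw [Prod.snd_sum, hA0, sum_product] at h9
  simp only [sum_singleton, Prod.snd_zero] at h9
  exact sum_univ_ne_zero hn h9

end Pool.Agent.HB
end
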