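import Pool.Agent.Lib.MP_249d2a_co.Mg.G001
import Pool.Agent.Lib.MP_249d2a_co.Mg.G002
import Pool.Agent.Lib.MP_249d2a_co.Mg.G006

section

/-!
# TASK HB A1: fragments and atoms

PROOFS.
* `exists_atom`: fragments exist (minimise `(|X + B| : ℤ) - |X|` over the finite set of admissible sets,
  `Finset.exists_min_image`), then minimise the cardinality.  To get `0 ∈ M`: take `x ∈ M` and translate by `-x`
  (`Atom.translate`).
* `Atom.translate`: `|M + {x}| = |M|`, `(M + {x}) + B = (M + B) + {x}`.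
* `star`: `F` a fragment, `Y := univ \ (F + B)`, `Z := Y.image (- ·)`.  `Z + B` and `F.image (- ·)` are disjoint
  (`-y + b = -f` gives `y = f + b`), so `|Z + B| ≤ N - |F|`; `|Z| = N - |F + B| ≥ 2`, `N - |Z + B| ≥ |F| ≥ 2`: `Z` is
  admissible.  `|Z + B| - |Z| ≤ N - |F| - N + |F + B| = |F + B| - |F|`, so `Z` is a fragment and
  `|M| ≤ |Z| = N - |F + B|`.
* `inter`: `M` atom, `F` fragment, `2 ≤ |M ∩ F|`.  Let `k = |M + B| - |M| = |F + B| - |F|` (both are fragments; use the two
  inequalities between them, in ℕ as equations of sums).  `(M ∪ F) + B = (M + B) ∪ (F + B)` (`Finset.union_add`) and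
  `(M ∩ F) + B ⊆ (M + B) ∩ (F + B)`, so `|(M ∪ F) + B| + |(M ∩ F) + B| ≤ |M + B| + |F + B|`
  (`Finset.card_union_add_card_inter`).  `M ∩ F` is admissible (subset of `M`), so `|(M ∩ F) + B| ≥ |M ∩ F| + k`.
  `N - |(M ∪ F) + B| ≥ N - (|M| + k) - (|F| + k) + (|M ∩ F| + k) = (N - |F + B|) - |M| + |M ∩ F| ≥ |M ∩ F| ≥ 2` by `star`.
  So `M ∪ F` is admissible and `|(M ∪ F) + B| ≥ |M ∪ F| + k`, hence `|(M ∩ F) + B| ≤ |M ∩ F| + k`: `M ∩ F` is a
  fragment, `|M ∩ F| ≥ |M|`, `M ⊆ F`.
-/

set_option autoImplicit false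

open Finset
open scoped Pointwise

namespace Pool.Agent.HB

open Pool.Agent.Kneser

variable {G : Type*} [AddCommGroup G] [Fintype G] [DecidableEq G]

theorem Atom.translate {B M : Finset G} (h : Atom B M) (x : G) : Atom B (M + {x}) := by
  have e : ∀ X : Finset G, X + {x} + B = (X + B) + {x} := fun X => add_right_comm X {x} B
  have hadm : ∀ X : Finset G, Adm B X → Adm B (X + {x}) := by
    rintro X ⟨h1, h2⟩
    refine ⟨by rwa [card_add_singleton'], ?_⟩
    rwa [e, card_add_singleton']
  obtain ⟨⟨h1, h2⟩, h3⟩ := h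
  refine ⟨⟨hadm M h1, fun Y hY => ?_⟩, fun F hF => ?_⟩
  · rw [e, card_add_singleton', card_add_singleton']
    exact h2 Y hY
  · rw [card_add_singleton']
    exact h3 F hF

theorem exists_atom {B X : Finset G} (hX : Adm B X) : ∃ M, Atom B M ∧ (0 : G) ∈ M := by
  classical
  have hne : (univ.filter fun Y : Finset G => Adm B Y).Nonempty := ⟨X, by simp [hX]⟩
  obtain ⟨F, hF, hFmin⟩ := Finset.exists_min_image (univ.filter fun Y : Finset G => Adm B Y)
    (fun Y => ((Y + B).card : ℤ) - (Y.card : ℤ)) hne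
  have hFrag : Frag B F := by
    refine ⟨(mem_filter.1 hF).2, fun Y hY => ?_⟩
    have := hFmin Y (by simp [hY])
    omega
  have hne2 : (univ.filter fun Y : Finset G => Frag B Y).Nonempty := ⟨F, by simp [hFrag]⟩
  obtain ⟨M, hM, hMmin⟩ := Finset.exists_min_image (univ.filter fun Y : Finset G => Frag B Y)
    (fun Y => Y.card) hne2
  have hMf : Frag B M := (mem_filter.1 hM).2
  have hAtom : Atom B M := ⟨hMf, fun F hF => hMmin F (by simp [hF])⟩
  have hMne : M.Nonempty := Finset.card_pos.1 (by have := hMf.1.1; omega)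
  obtain ⟨x, hx⟩ := hMne
  refine ⟨M + {-x}, hAtom.translate (-x), ?_⟩
  rw [mem_add]
  exact ⟨x, hx, -x, mem_singleton_self _, by simp⟩

theorem star {B M F : Finset G} (hM : Atom B M) (hF : Frag B F) :
    M.card + (F + B).card ≤ Fintype.card G := by
  obtain ⟨⟨hF1, hF2⟩, hF3⟩ := hF
  set N := Fintype.card G with hN
  set Z : Finset G := ((univ \ (F + B)).image fun y => -y) with hZ
  have hinj : ∀ S : Finset G, (S.image fun y => -y).card = S.card := fun S =>
    Finset.card_image_of_injective S neg_injective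
  have hZc : Z.card + (F + B).card = N := by
    rw [hZ, hinj, Finset.card_univ_sdiff]
    have : (F + B).card ≤ N := Finset.card_le_univ _
    omega
  have hdisj : Disjoint (Z + B) (F.image fun y => -y) := by
    rw [Finset.disjoint_left]
    intro w hw hw'
    rw [mem_add] at hw
    obtain ⟨z, hz, b, hb, hzb⟩ := hw
    rw [hZ, mem_image] at hz
    obtain ⟨y, hy, rfl⟩ := hz
    rw [mem_image] at hw'
    obtain ⟨f, hf, hfw⟩ := hw'
    rw [mem_sdiff] at hy
    apply hy.2
    rw [mem_add]
    refine ⟨f, hf, b, hb, ?_⟩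
    have h1 : -y + b = -f := by rw [hzb, hfw]
    have h2 : f + b = y := by
      have : f = -(-y + b) := by rw [h1, neg_neg]
      rw [this]; abel
    exact h2
  have hZB : (Z + B).card + F.card ≤ N := by
    have h1 := Finset.card_union_of_disjoint hdisj
    have h2 : ((Z + B) ∪ (F.image fun y => -y)).card ≤ N := Finset.card_le_univ _
    rw [h1, hinj] at h2
    exact h2
  have hZadm : Adm B Z := ⟨by omega, by omega⟩
  have hZfrag : Frag B Z := by
    refine ⟨hZadm, fun Y hY => ?_⟩
    have := hF3 Y hY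
    omega
  have := hM.2 Z hZfrag
  omega

theorem inter {B M F : Finset G} (hM : Atom B M) (hF : Frag B F) (h : 2 ≤ (M ∩ F).card) :
    M ⊆ F := by
  obtain ⟨hMf, hMmin⟩ := hM
  have hst : M.card + (F + B).card ≤ Fintype.card G := star ⟨hMf, hMmin⟩ hF
  obtain ⟨⟨hM1, hM2⟩, hM3⟩ := hMf
  obtain ⟨⟨hF1, hF2⟩, hF3⟩ := id hF
  have k1 := hM3 F ⟨hF1, hF2⟩
  have k2 := hF3 M ⟨hM1, hM2⟩
  have hU : (M ∪ F) + B = (M + B) ∪ (F + B) := Finset.union_add
  have hI : (M ∩ F) + B ⊆ (M + B) ∩ (F + B) := Finset.inter_add_subset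
  have hIc := Finset.card_le_card hI
  have hUI := Finset.card_union_add_card_inter (M + B) (F + B)
  have hMF := Finset.card_union_add_card_inter M F
  rw [← hU] at hUI
  have hIM : (M ∩ F) + B ⊆ M + B := Finset.add_subset_add_right Finset.inter_subset_left
  have hIMc := Finset.card_le_card hIM
  have hIadm : Adm B (M ∩ F) := ⟨h, by omega⟩
  have k3 := hM3 _ hIadm
  have hMcard : (M ∩ F).card ≤ M.card := Finset.card_le_card Finset.inter_subset_left
  have hUadm : Adm B (M ∪ F) := by
    refine ⟨?_, by omega⟩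
    have := Finset.card_le_card (Finset.subset_union_left : M ⊆ M ∪ F)
    omega
  have k4 := hM3 _ hUadm
  have hIfrag : Frag B (M ∩ F) := by
    refine ⟨hIadm, fun Y hY => ?_⟩
    have := hM3 Y hY
    omega
  have k5 := hMmin _ hIfrag
  have heq : M ∩ F = M := Finset.eq_of_subset_of_card_le Finset.inter_subset_left k5
  exact Finset.inter_eq_left.1 heq

end Pool.Agent.HB
end

section

/-!
# TASK HB A2: an atom is a subgroup or a Sidon set

PROOF of `atom_dichotomy`.  If some `x ≠ 0` has `M + {x} = M`: let `S = stab M ≠ ⊥`.  For `x ∈ M`: `M ∩ (M + {x})`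
contains `x + s` for all `s ∈ S` (`0 + s ∈ M`, `x + s ∈ M`), so it has at least `|S| ≥ 2` elements, and
`M ⊆ M + {x}` by `inter` for the fragment `M + {x}` (`Atom.translate`); equal cardinality gives `M + {x} = M`, `x ∈ S`.
So `M ⊆ S`, and `S ⊆ M` because `0 ∈ M`: `M = fs S`.
Otherwise, if `a - b = c - d` with `a ≠ b` and `a ≠ c`, let `x = a - b ≠ 0`; `a` and `c` are in `M ∩ (M + {x})`, so by `inter`
`M ⊆ M + {x}`, `M = M + {x}`, a contradiction.
-/

set_option autoImplicit false

open Finset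
open scoped Pointwise

namespace Pool.Agent.HB

open Pool.Agent.Kneser

variable {G : Type*} [AddCommGroup G] [Fintype G] [DecidableEq G]

private theorem A2_mem {M : Finset G} {x y : G} : y ∈ M + {x} ↔ ∃ z ∈ M, z + x = y := by
  simp only [mem_add, mem_singleton]
  constructor
  · rintro ⟨z, hz, w, rfl, rfl⟩
    exact ⟨z, hz, rfl⟩
  · rintro ⟨z, hz, rfl⟩
    exact ⟨z, hz, x, rfl, rfl⟩

private theorem A2_key {B M : Finset G} (hM : Atom B M) {x a b : G} (hab : a ≠ b) (ha : a ∈ M)
    (hb : b ∈ M) (ha2 : a ∈ M + {x}) (hb2 : b ∈ M + {x}) : M + {x} = M := by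
  have h1 : M ⊆ M + {x} := by
    apply inter hM (hM.translate x).1
    have h2 : ({a, b} : Finset G) ⊆ M ∩ (M + {x}) := by
      intro y hy
      rw [mem_insert, mem_singleton] at hy
      rw [mem_inter]
      rcases hy with rfl | rfl
      · exact ⟨ha, ha2⟩
      · exact ⟨hb, hb2⟩
    calc 2 = ({a, b} : Finset G).card := (card_pair hab).symm
      _ ≤ _ := card_le_card h2
  symm
  apply eq_of_subset_of_card_le h1
  rw [card_add_singleton]

private theorem A2_stab {M : Finset G} {x : G} : M + {x} = M ↔ x ∈ stab M := by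
  rw [mem_stab]
  constructor
  · intro h y
    constructor
    · intro hy
      rw [← h, A2_mem] at hy
      obtain ⟨z, hz, hzy⟩ := hy
      rw [add_comm x y] at hzy
      rwa [← add_right_cancel hzy]
    · intro hy
      rw [← h, A2_mem]
      exact ⟨y, hy, add_comm _ _⟩
  · intro h
    ext y
    rw [A2_mem]
    constructor
    · rintro ⟨z, hz, rfl⟩
      rw [add_comm]
      exact (h z).2 hz
    · intro hy
      refine ⟨y - x, ?_, by abel⟩
      rw [← h (y - x)]
      rwa [add_sub_cancel]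

theorem atom_dichotomy {B M : Finset G} (hM : Atom B M) (h0 : (0 : G) ∈ M) :
    (∃ K : AddSubgroup G, M = fs K) ∨ Sidon M := by
  by_cases hx : ∃ x : G, x ≠ 0 ∧ M + {x} = M
  · left
    obtain ⟨x, hx0, hx⟩ := hx
    refine ⟨stab M, ?_⟩
    have hxs : x ∈ stab M := A2_stab.1 hx
    ext a
    rw [mem_fs]
    constructor
    · intro ha
      rw [← A2_stab]
      apply A2_key hM (a := a) (b := x + a)
      · intro h
        apply hx0
        have h2 : 0 + a = x + a := by rw [zero_add]; exact h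
        exact (add_right_cancel h2).symm
      · exact ha
      · exact (mem_stab.1 hxs a).2 ha
      · rw [A2_mem]
        exact ⟨0, h0, zero_add _⟩
      · rw [A2_mem]
        refine ⟨x, ?_, rfl⟩
        have := (mem_stab.1 hxs 0).2 h0
        rwa [add_zero] at this
    · intro ha
      have := (mem_stab.1 ha 0).2 h0
      rwa [add_zero] at this
  · right
    intro a ha b hb c hc d hd he hab
    by_contra hac
    apply hx
    refine ⟨a - b, sub_ne_zero.2 hab, ?_⟩
    apply A2_key hM hac ha hc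
    · rw [A2_mem]
      exact ⟨b, hb, by abel⟩
    · rw [A2_mem]
      exact ⟨d, hd, by rw [he]; abel⟩

end Pool.Agent.HB
end

section

/-!
# TASK HB A7: there is no generating Sidon atom with three elements

PROOF.  `closure M = ⊤`.  `B` is admissible for `M` (`Adm M B`: `2 ≤ |B|`, `|B + M| + 2 ≤ N`).  Let `T` be an atom for `M`
(`Atom M T`), `0 ∈ T` (`exists_atom`).  Minimality against `B`: `|T + M| + |B| ≤ |B + M| + |T|`, so `|T + M| + 1 ≤ |T| + |M|`.
`2 ≤ |T|`, `|T + M| + 2 ≤ N`.  `atom_dichotomy`: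
* `T = fs K`: `c = |qim K M|`.  `|T + M| = c |K|` (`card_add_fs`), so `(c - 1) |K| + 1 ≤ |M|`.  `c ≥ 2`: otherwise `M ⊆ K` (`0 ∈ M`),
  `K = ⊤`, `|T + M| = N`.  `sidon_card`: `|M| ≤ |K| + c - 1`, so `(c - 2) |K| ≤ c - 2`, `c = 2` as `|K| ≥ 2`.  Then `|K| ≤ |M| - 1`,
  and `sidon_sq`: `|M| ^ 2 ≤ 2 (|K| - 1 + |M|) ≤ 4 |M| - 4`, `|M| = 2`, a contradiction.
* `T` Sidon, `|T| = 2`: `sidon_two`: `2 |M| ≤ |M + T| + 1 ≤ |M| + 2`, a contradiction.
* `T` Sidon, `|T| ≥ 3`: `sidon_three` twice: `3 |M| ≤ |M + T| + 3`, `3 |T| ≤ |T + M| + 3`, sum: `|M| + |T| ≤ 4`, a contradiction.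
-/

set_option autoImplicit false

open Finset
open scoped Pointwise

namespace Pool.Agent.HB

open Pool.Agent.Kneser

variable {G : Type*} [AddCommGroup G] [Fintype G] [DecidableEq G]

theorem no_big_atom {B M : Finset G} (hM : Sidon M) (h0 : (0 : G) ∈ M) (h3 : 3 ≤ M.card)
    (hL : AddSubgroup.closure (M : Set G) = ⊤) (hB : 2 ≤ B.card)
    (h1 : (B + M).card + 1 ≤ B.card + M.card)
    (h2 : (B + M).card + 2 ≤ Fintype.card G) : False := by
  obtain ⟨T, hT, h0T⟩ := exists_atom (B := M) (X := B) ⟨hB, h2⟩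
  have hadm : Adm M T := hT.1.1
  have hmin := hT.1.2 B ⟨hB, h2⟩
  have hT2 : 2 ≤ T.card := hadm.1
  have hTN : (T + M).card + 2 ≤ Fintype.card G := hadm.2
  have hTM : (T + M).card + 1 ≤ T.card + M.card := by omega
  rcases atom_dichotomy hT h0T with ⟨K, hK⟩ | hS
  · have hc := card_add_fs K M
    rw [add_comm M (fs K), ← hK] at hc
    have hcard := sidon_card hM ⟨0, h0⟩ K
    have hsq := sidon_sq hM K
    rw [← hK] at hcard hsq
    have hc1 : 1 ≤ (qim K M).card := Finset.card_pos.2 (qim_nonempty ⟨0, h0⟩)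
    rcases Nat.lt_or_ge (qim K M).card 2 with hlt | hge
    · have hone : (qim K M).card = 1 := by omega
      have hMK : ∀ x ∈ M, x ∈ K := by
        intro x hx
        obtain ⟨z, hz⟩ := Finset.card_eq_one.1 hone
        have e1 : (QuotientAddGroup.mk x : G ⧸ K) = z := by
          have : (QuotientAddGroup.mk x : G ⧸ K) ∈ qim K M := mem_qim.2 ⟨x, hx, rfl⟩
          rw [hz] at this
          exact Finset.mem_singleton.1 this
        have e2 : (QuotientAddGroup.mk (0 : G) : G ⧸ K) = z := by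
          have : (QuotientAddGroup.mk (0 : G) : G ⧸ K) ∈ qim K M := mem_qim.2 ⟨0, h0, rfl⟩
          rw [hz] at this
          exact Finset.mem_singleton.1 this
        have e3 := QuotientAddGroup.eq.1 (e2.trans e1.symm)
        simpa using e3
      have hKtop : K = ⊤ := by
        rw [eq_top_iff, ← hL, AddSubgroup.closure_le]
        exact fun x hx => hMK x hx
      have hTN' : T.card = Fintype.card G := by
        rw [hK, hKtop, ← Finset.card_univ]
        congr 1
        ext x
        simp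
      have h4 : T.card ≤ (T + M).card := Finset.card_le_card fun x hx => by
        have := add_mem_add hx h0
        rwa [add_zero] at this
      omega
    · obtain ⟨c, hc'⟩ : ∃ c, (qim K M).card = c + 2 := ⟨(qim K M).card - 2, by omega⟩
      obtain ⟨k, hk⟩ : ∃ k, T.card = k + 2 := ⟨T.card - 2, by omega⟩
      rw [hc'] at hc hcard hsq
      rw [hk] at hc hcard hsq hTM
      have e1 : c * (k + 2) ≤ c := by nlinarith
      have e2 : c = 0 := by nlinarith
      subst e2
      have e3 : M.card = k + 3 := by omega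
      rw [e3] at hsq
      have e4 : k + 2 - 1 = k + 1 := by omega
      rw [e4] at hsq
      nlinarith
  · rcases Nat.lt_or_ge T.card 3 with hlt | hge
    · have h5 := sidon_two hM hT2
      rw [add_comm M T] at h5
      omega
    · have h5 := sidon_three hM hge
      have h6 := sidon_three hS h3
      rw [add_comm M T] at h5
      omega

end Pool.Agent.HB
end

section

/-!
# TASK HB A8: the isoperimetric lemma (Lemma H)

PROOF.  Let `M` be an atom for `B`, `0 ∈ M` (`exists_atom`).  Minimality against `X`: `|M + B| + 1 ≤ |M| + |B|`; `2 ≤ |M|`,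
`|M + B| + 2 ≤ N`.  `atom_dichotomy`: if `M = fs K`: second alternative of `Concl` (`add_comm`).  Sidon: if `|M| = 2`, `M = {0, x}`,
`B + M = B ∪ (B + {x})`, so `|(B + {x}) \ B| ≤ 1`: `concl_of_pair`.  If `|M| ≥ 3`: `closure M ≠ ⊤` by `no_big_atom`, and then
`concl_of_sidon`.
-/

set_option autoImplicit false

open Finset
open scoped Pointwise

namespace Pool.Agent.HB

open Pool.Agent.Kneser

variable {G : Type*} [AddCommGroup G] [Fintype G] [DecidableEq G]

theorem lemmaH {B X : Finset G} (hB : 2 ≤ B.card) (hN : 2 * B.card ≤ Fintype.card G)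
    (hX : Adm B X) (h : (X + B).card + 1 ≤ X.card + B.card) : Concl B := by
  obtain ⟨M, hM, h0⟩ := exists_atom hX
  have h1 := hM.1.2 X hX
  have h2 : 2 ≤ M.card := hM.1.1.1
  have h3 : (M + B).card + 2 ≤ Fintype.card G := hM.1.1.2
  have h4 : (M + B).card + 1 ≤ M.card + B.card := by omega
  have hBn : B.Nonempty := Finset.card_pos.1 (by omega)
  rcases atom_dichotomy hM h0 with ⟨K, hK⟩ | hS
  · subst hK
    rw [add_comm (fs K) B] at h3 h4
    exact Or.inr ⟨K, h2, by omega, by omega⟩
  · rw [add_comm M B] at h3 h4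
    by_cases h5 : M.card = 2
    · obtain ⟨a, b, hab, hMab⟩ := Finset.card_eq_two.1 h5
      obtain ⟨x, hx, hMx⟩ : ∃ x : G, x ≠ 0 ∧ M = {0, x} := by
        rw [hMab, Finset.mem_insert, Finset.mem_singleton] at h0
        rcases h0 with h0 | h0
        · exact ⟨b, fun hb => hab (h0.symm.trans hb.symm), by rw [hMab, ← h0]⟩
        · exact ⟨a, fun ha => hab (ha.trans h0), by rw [hMab, ← h0, Finset.pair_comm]⟩
      have h6 : B + M = (B + {x}) ∪ B := by
        rw [hMx, Finset.insert_eq, Finset.add_union, Finset.add_singleton]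
        rw [Finset.union_comm]
        congr 1
        ext y
        simp
      have h7 := Finset.card_sdiff_add_card (B + {x}) B
      rw [← h6] at h7
      exact concl_of_pair hx hBn hN (by omega)
    · have h6 : 3 ≤ M.card := by omega
      refine concl_of_sidon hS h0 h2 (fun hL => ?_) hBn hN (by omega) h3
      exact no_big_atom hS h0 h6 hL hB (by omega) h3

end Pool.Agent.HB
end

section

/-!
# TASK HB B4: existence of a critical pair, and the isoperimetric lemma for iterated sumsets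

PROOF of `concl_of_ms`.  `c j = |ms j B|`, `l = |B| - 1`.  `exists_critical` gives `1 ≤ j ≤ m - 2` with `|ms (j + 1) B| = |ms j B| + l`.
`X = ms j B`: `X + B = ms (j + 1) B`, `|X| ≥ |B| ≥ 2` (`card_le_ms`), `|X + B| + 2 ≤ N`: hypothesis `hlt` for `j + 1 ≤ m - 1`.  `lemmaH`.

PROOF of `ap_ms`: `B = {b + i x : i ≤ l}`, `zmultiples x = ⊤`.  `ms m B = {m b + i x : i ≤ m l}` (only `⊇` is needed: write `i ≤ m l`
as a sum of `m` numbers `≤ l`, induction on `m`), so if `m l + 1 ≥ N` it is everything (every element is `m b + i x` with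
`i < N`).  `CycQ ⊥`, and `CycQ K` for all `K`: every `y` is `k • x` with `k : ℕ` (finite group).
-/

set_option autoImplicit false

open Finset
open scoped Pointwise

namespace Pool.Agent.HB

open Pool.Agent.Kneser

variable {G : Type*} [AddCommGroup G] [Fintype G] [DecidableEq G]

theorem concl_of_ms {B : Finset G} {m : ℕ} (hm : 3 ≤ m) (hB : 2 ≤ B.card)
    (hN : 2 * B.card ≤ Fintype.card G)
    (hg : ∀ j, 1 ≤ j → j < m → (ms j B).card + B.card ≤ (ms (j + 1) B).card + 1)
    (hlt : ∀ j, j < m → (ms j B).card + 2 ≤ Fintype.card G)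
    (hc : (ms m B).card + 2 ≤ m * B.card) : Concl B := by
  have hBl : B.card - 1 + 1 = B.card := by omega
  have hBne : B.Nonempty := Finset.card_pos.mp (by omega)
  obtain ⟨j, hj1, hj2, hj3⟩ := exists_critical (c := fun j => (ms j B).card) (l := B.card - 1) hm
    (by simp only [ms_one]; exact hBl.symm)
    (by
      intro j hj hjm
      have := hg j hj hjm
      omega)
    (by
      rw [hBl]
      exact hc)
  have hX1 : 2 ≤ (ms j B).card := le_trans hB (card_le_ms hBne hj1)
  have hX2 := hlt (j + 1) (by omega)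
  rw [ms_succ] at hX2 hj3
  refine lemmaH hB hN (X := ms j B) ⟨hX1, hX2⟩ ?_
  omega

private theorem B4_exists_nsmul {x : G} (hx : AddSubgroup.zmultiples x = ⊤) (y : G) :
    ∃ k : ℕ, k < Fintype.card G ∧ k • x = y := by
  have hy : y ∈ AddSubgroup.zmultiples x := by
    rw [hx]
    exact AddSubgroup.mem_top y
  rw [mem_zmultiples_iff_mem_range_addOrderOf, Finset.mem_image] at hy
  obtain ⟨k, hk, hky⟩ := hy
  exact ⟨k, lt_of_lt_of_le (Finset.mem_range.mp hk) addOrderOf_le_card_univ, hky⟩

omit [Fintype G] in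
private theorem B4_mem {B : Finset G} {b x : G} (hB : B = (range B.card).image fun i => b + i • x)
    (hB0 : B.Nonempty) : ∀ (m i : ℕ), i ≤ m * (B.card - 1) → m • b + i • x ∈ ms m B := by
  have hpos : 0 < B.card := Finset.card_pos.mpr hB0
  have hmem : ∀ i, i < B.card → b + i • x ∈ B := by
    intro i hi
    have h : b + i • x ∈ (range B.card).image fun i => b + i • x :=
      Finset.mem_image.mpr ⟨i, Finset.mem_range.mpr hi, rfl⟩
    rwa [← hB] at h
  intro m
  induction m with
  | zero =>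
    intro i hi
    have hi0 : i = 0 := by simpa using hi
    subst hi0
    rw [ms_zero]
    simp
  | succ m ih =>
    intro i hi
    rw [ms_succ]
    have hi' : i ≤ m * (B.card - 1) + (B.card - 1) := by
      rw [Nat.succ_mul] at hi
      exact hi
    obtain ⟨i1, i2, h1, h2, h3⟩ : ∃ i1 i2 : ℕ, i1 ≤ B.card - 1 ∧ i2 ≤ m * (B.card - 1) ∧ i = i2 + i1 := by
      rcases le_total i (B.card - 1) with h | h
      · exact ⟨i, 0, h, Nat.zero_le _, by omega⟩
      · exact ⟨B.card - 1, i - (B.card - 1), le_refl _, by omega, by omega⟩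
    have heq : (m + 1) • b + i • x = (m • b + i2 • x) + (b + i1 • x) := by
      rw [h3, add_nsmul, add_nsmul, one_nsmul]
      abel
    rw [heq]
    exact Finset.add_mem_add (ih i2 h2) (hmem i1 (by omega))

theorem ap_ms {B : Finset G} {b x : G} (hx : AddSubgroup.zmultiples x = ⊤)
    (hB : B = (range B.card).image fun i => b + i • x) (hB0 : B.Nonempty) {m : ℕ}
    (hm : ms m B ≠ univ) : m * (B.card - 1) + 2 ≤ Fintype.card G := by
  by_contra hcon
  apply hm
  rw [Finset.eq_univ_iff_forall]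
  intro y
  obtain ⟨k, hk, hky⟩ := B4_exists_nsmul hx (y - m • b)
  have h := B4_mem hB hB0 m k (by omega)
  rw [hky] at h
  have h2 : m • b + (y - m • b) = y := by abel
  rwa [h2] at h

theorem cycQ_of_zmultiples {x : G} (hx : AddSubgroup.zmultiples x = ⊤) (K : AddSubgroup G) :
    CycQ K := by
  refine ⟨x, fun y => ?_⟩
  obtain ⟨k, _, hky⟩ := B4_exists_nsmul hx y
  exact ⟨k, by rw [hky, sub_self]; exact K.zero_mem⟩

end Pool.Agent.HB
end

section

/-!
# TASK HB E3: the construction QP

`n = d t`, `d = m l + 1`, `q = e f`, `h = q t`.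
PROOF of `QP`.  `T = {lev < l} ∪ {lev = l, e ∣ x}` (`x = g.1.val`), `|T| = l h + f t` (`card_below`, `card_level_dvd`), `∑_T lev = h (l (l - 1) / 2) + f t l`.
`exists_W` for `w - 1`: the levels `j < l` of `T` have `h ≥ f t` elements (`card_level`), the level `l` has `f t ≥ w`: `W' ⊆ T`, `|W'| = w - 1`, `∑_{W'} lev = ρ`.
Let `π : ZMod q →+ ZMod e` be the reduction (`ZMod.castHom`), `z = π (∑_T g.1 - ∑_{W'} g.1)`.  The elements of level `0` (`0 < l`, so they are in `T`) with
`π g.1 ≠ z` are at least `h - f t = (e - 1) f t ≥ w` (those with `π g.1 = z` are `f t`: translate of `card_level_dvd`, or count directly; or: the elements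
of level `0` with `e ∣ g.1.val` are `f t` and those with `e ∣ (g.1 - 1).val` are `f t`, disjoint as `e ≥ 2`, and each of these two classes has a nonempty
part outside `W'`, `|W'| = w - 1 < f t`; one of the two classes has `π g.1 = 0`, the other `π g.1 = 1`, so one of them is not `z`).  So there is `g0 ∈ T \ W'` of level `0` with
`π g0.1 ≠ z`.  `A = T \ insert g0 W'`: `|A| = n + m`, `∑_A lev + ρ = ∑_T lev`, `π (∑_A g.1) = z - π g0.1 ≠ 0`.
If `RS m A (∑ A)`: `B ⊆ A`, `|B| = m`, `∑ B = ∑ A`.  `∑_B lev ≤ m l < d`, and `∑_B lev ≡ ∑_A lev ≡ m l [MOD d]` (add `ρ` and use `hs`: `∑_T lev + 1 ≡ ρ`,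
`m l + 1 = d`).  So `∑_B lev = m l`, all elements of `B` have level `l`, hence (they are in `T`) `e ∣ g.1.val`, `π g.1 = 0`, `π (∑_B g.1) = 0`: contradiction.
`le_tau_of_RS`.

PROOF of `QP_big`.  `QP` with `ρ = (q t (l (l - 1) / 2) + f t l + 1) % d ≤ d - 1 ≤ (w - 1) l`.
-/

set_option autoImplicit false

open Finset

namespace Pool.Agent.HB

theorem QP {q n d t l m w ρ e f : ℕ} [NeZero q] [NeZero n] (hd : n = d * t)
    (hdm : d = m * l + 1) (hq : q = e * f) (he : 2 ≤ e) (hl : 1 ≤ l) (hm : 1 ≤ m)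
    (hw : n + m + w = l * (q * t) + f * t) (hw1 : 1 ≤ w) (hwh : w ≤ f * t)
    (hρ : ρ ≤ (w - 1) * l)
    (hs : q * t * (l * (l - 1) / 2) + f * t * l + 1 ≡ ρ [MOD d]) :
    n + m ≤ tau (ZMod q × ZMod n) n := by
  classical
  have hn0 : 0 < n := Nat.pos_of_ne_zero (NeZero.ne n)
  have hq0 : 0 < q := Nat.pos_of_ne_zero (NeZero.ne q)
  have hld : l < d := by
    rw [hdm]
    nlinarith
  have heq : e ∣ q := ⟨f, hq⟩
  have hftq : f * t ≤ q * t := by
    apply Nat.mul_le_mul_right
    rw [hq]
    exact Nat.le_mul_of_pos_left f (by omega)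
  have : NeZero e := ⟨by omega⟩
  set T1 : Finset (ZMod q × ZMod n) := univ.filter (fun g => lev d g < l) with hT1
  set T2 : Finset (ZMod q × ZMod n) := univ.filter (fun g => lev d g = l ∧ e ∣ g.1.val) with hT2
  have hdis : Disjoint T1 T2 := by
    rw [disjoint_left]
    intro g h1 h2
    have h3 := (mem_filter.mp h1).2
    have h4 := (mem_filter.mp h2).2.1
    omega
  have hT1c : T1.card = l * (q * t) := card_below hd hld.le
  have hT2c : T2.card = f * t := card_level_dvd hd hq hld
  set T : Finset (ZMod q × ZMod n) := T1 ∪ T2 with hT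
  have hTc : T.card = l * (q * t) + f * t := by
    rw [hT, card_union_of_disjoint hdis, hT1c, hT2c]
  have hTs : ∑ g ∈ T, lev d g = q * t * (l * (l - 1) / 2) + f * t * l := by
    rw [hT, sum_union hdis, hT1, sum_below hd hld.le]
    congr 1
    have h1 : ∀ g ∈ T2, lev d g = l := fun g hg => (mem_filter.mp hg).2.1
    rw [sum_congr rfl h1, sum_const, hT2c, smul_eq_mul]
  have hTle : ∀ g ∈ T, lev d g ≤ l := by
    intro g hg
    rcases mem_union.mp hg with h | h
    · exact ((mem_filter.mp h).2).le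
    · exact ((mem_filter.mp h).2.1).le
  have hW : ∀ j ≤ l, w - 1 ≤ (T.filter fun x => lev d x = j).card := by
    intro j hj
    rcases Nat.lt_or_ge j l with h | h
    · have h1 : (univ.filter fun g : ZMod q × ZMod n => lev d g = j) ⊆ T.filter fun x => lev d x = j := by
        intro g hg
        have h2 := (mem_filter.mp hg).2
        rw [mem_filter]
        refine ⟨mem_union_left _ (mem_filter.mpr ⟨mem_univ _, ?_⟩), h2⟩
        omega
      have h2 := card_le_card h1
      rw [card_level hd (h.trans hld)] at h2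
      omega
    · have h1 : T2 ⊆ T.filter fun x => lev d x = j := by
        intro g hg
        rw [mem_filter]
        refine ⟨mem_union_right _ hg, ?_⟩
        have := (mem_filter.mp hg).2.1
        omega
      have h2 := card_le_card h1
      rw [hT2c] at h2
      omega
  obtain ⟨W, hWT, hWc, -, hWs⟩ := exists_W (lev d) T hW hρ
  set π : ZMod q →+* ZMod e := ZMod.castHom heq (ZMod e) with hπ
  have hπ0 : ∀ x : ZMod q, e ∣ x.val → π x = 0 := by
    intro x hx
    rw [hπ, ZMod.castHom_apply, ZMod.cast_eq_val, ZMod.natCast_eq_zero_iff]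
    exact hx
  set z : ZMod e := π (∑ g ∈ T, g.1 - ∑ g ∈ W, g.1) with hz
  -- the element `g0`
  set S0 : Finset (ZMod q × ZMod n) := univ.filter (fun g => lev d g = 0 ∧ e ∣ g.1.val) with hS0
  have hS0c : S0.card = f * t := card_level_dvd hd hq (by omega)
  set S1 : Finset (ZMod q × ZMod n) := S0.image (fun g => (g.1 + 1, g.2)) with hS1
  have hS1c : S1.card = f * t := by
    rw [hS1, card_image_of_injective, hS0c]
    intro a b hab
    have h1 := congrArg Prod.fst hab
    have h2 := congrArg Prod.snd hab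
    exact Prod.ext (add_right_cancel h1) h2
  have h01 : (1 : ZMod e) ≠ 0 := by
    intro h
    have h1 : ((1 : ℕ) : ZMod e) = 0 := by rw [Nat.cast_one]; exact h
    rw [ZMod.natCast_eq_zero_iff] at h1
    have := Nat.le_of_dvd one_pos h1
    omega
  have hg0 : ∃ g0 ∈ T, g0 ∉ W ∧ lev d g0 = 0 ∧ π g0.1 ≠ z := by
    have hpick : ∃ S : Finset (ZMod q × ZMod n), S.card = f * t ∧ ∀ g ∈ S, lev d g = 0 ∧ π g.1 ≠ z := by
      by_cases hz0 : z = 0
      · refine ⟨S1, hS1c, ?_⟩
        intro g hg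
        obtain ⟨g', hg', rfl⟩ := mem_image.mp hg
        have h1 := (mem_filter.mp hg').2
        refine ⟨h1.1, ?_⟩
        change π (g'.1 + 1) ≠ z
        rw [map_add, map_one, hπ0 _ h1.2, zero_add, hz0]
        exact h01
      · refine ⟨S0, hS0c, ?_⟩
        intro g hg
        have h1 := (mem_filter.mp hg).2
        refine ⟨h1.1, ?_⟩
        rw [hπ0 _ h1.2]
        exact fun h => hz0 h.symm
    obtain ⟨S, hSc, hS⟩ := hpick
    have h1 : ∃ g0 ∈ S, g0 ∉ W := by
      by_contra hcon
      push Not at hcon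
      have h2 := card_le_card (show S ⊆ W from hcon)
      omega
    obtain ⟨g0, hg0S, hg0W⟩ := h1
    refine ⟨g0, ?_, hg0W, (hS g0 hg0S).1, (hS g0 hg0S).2⟩
    refine mem_union_left _ (mem_filter.mpr ⟨mem_univ _, ?_⟩)
    rw [(hS g0 hg0S).1]
    omega
  obtain ⟨g0, hg0T, hg0W, hg0l, hg0π⟩ := hg0
  have hins : insert g0 W ⊆ T := insert_subset hg0T hWT
  have hinsc : (insert g0 W).card = w := by
    rw [card_insert_of_notMem hg0W, hWc]
    omega
  set A : Finset (ZMod q × ZMod n) := T \ insert g0 W with hA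
  have hAc : A.card = n + m := by
    have h1 := card_sdiff_add_card_eq_card hins
    rw [hinsc, hTc] at h1
    rw [hA]
    omega
  have hAlev : ∑ g ∈ A, lev d g + ρ = q * t * (l * (l - 1) / 2) + f * t * l := by
    have h1 := sum_sdiff hins (f := fun g => lev d g)
    rw [sum_insert hg0W, hWs, hg0l, zero_add, hTs] at h1
    exact h1
  have hAfst : π (∑ g ∈ A, g.1) ≠ 0 := by
    have h1 := sum_sdiff hins (f := fun g => g.1)
    rw [sum_insert hg0W] at h1
    have h2 : ∑ g ∈ A, g.1 = (∑ g ∈ T, g.1 - ∑ g ∈ W, g.1) - g0.1 := by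
      rw [← h1]
      abel
    rw [h2, map_sub, ← hz, sub_ne_zero]
    exact fun h => hg0π h.symm
  refine le_tau_of_RS hn0 hAc ?_
  rintro ⟨B, hBA, hBc, hBs⟩
  have hBT : ∀ g ∈ B, g ∈ T := fun g hg => (mem_sdiff.mp (hBA hg)).1
  have hBle : ∀ g ∈ B, lev d g ≤ l := fun g hg => hTle g (hBT g hg)
  have h1 : ∑ g ∈ B, lev d g ≤ m * l := by
    calc ∑ g ∈ B, lev d g ≤ ∑ _g ∈ B, l := sum_le_sum hBle
      _ = m * l := by rw [sum_const, hBc, smul_eq_mul]
  have h2 := lev_sum_modEq (⟨t, hd⟩ : d ∣ n) hBs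
  have h3 : ∑ g ∈ B, lev d g + 1 ≡ 0 [MOD d] := by
    have h4 : ∑ g ∈ A, lev d g + 1 + ρ ≡ 0 + ρ [MOD d] := by
      rw [zero_add]
      have h5 : ∑ g ∈ A, lev d g + 1 + ρ = q * t * (l * (l - 1) / 2) + f * t * l + 1 := by
        omega
      rw [h5]
      exact hs
    exact (h2.add_right 1).trans (Nat.ModEq.add_right_cancel' ρ h4)
  have h6 : ∑ g ∈ B, lev d g = m * l := by
    have h7 : d ∣ ∑ g ∈ B, lev d g + 1 := (Nat.modEq_zero_iff_dvd).mp h3
    have h8 := Nat.le_of_dvd (by omega) h7
    omega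
  have h9 : ∀ g ∈ B, lev d g = l := by
    have h10 : ∑ g ∈ B, lev d g = ∑ _g ∈ B, l := by
      rw [h6, sum_const, hBc, smul_eq_mul]
    exact (sum_eq_sum_iff_of_le hBle).mp h10
  have h11 : ∀ g ∈ B, π g.1 = 0 := by
    intro g hg
    apply hπ0
    rcases mem_union.mp (hBT g hg) with h | h
    · have h12 := (mem_filter.mp h).2
      have h13 := h9 g hg
      omega
    · exact (mem_filter.mp h).2.2
  apply hAfst
  have h12 := congrArg Prod.fst hBs
  rw [Prod.fst_sum, Prod.fst_sum] at h12
  rw [← h12, map_sum]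
  exact sum_eq_zero h11

theorem QP_big {q n d t l m w e f : ℕ} [NeZero q] [NeZero n] (hd : n = d * t)
    (hdm : d = m * l + 1) (hq : q = e * f) (he : 2 ≤ e) (hl : 1 ≤ l) (hm : 1 ≤ m)
    (hw : n + m + w = l * (q * t) + f * t) (hw1 : 1 ≤ w) (hwh : w ≤ f * t)
    (hwd : d ≤ (w - 1) * l + 1) : n + m ≤ tau (ZMod q × ZMod n) n := by
  have hd0 : 0 < d := by omega
  have h1 := Nat.mod_lt (q * t * (l * (l - 1) / 2) + f * t * l + 1) hd0
  refine QP hd hdm hq he hl hm hw hw1 hwh
    (ρ := (q * t * (l * (l - 1) / 2) + f * t * l + 1) % d) (by omega) ?_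
  exact (Nat.mod_modEq _ _).symm

end Pool.Agent.HB
end
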