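import Pool.Agent.Lib.MP_249d2a_co.Mg.G006
import Pool.Agent.Lib.MP_249d2a_co.Mg.G003

section

/-!
# TASK HB E6: the lower bounds (1c) and (1d)

PROOF of `lower_c` (`q ∣ n`, `2 q ≤ n`).  `n` even: `EV`.  `n` odd: `l = n / q` is odd, `l ≥ 3` (`l ≥ 2`), `n = q l`.  `INT` with `d = n`, `t = 1`, `m = q - 1`, `w = 1`, `ρ = 1`, `c = n - 1`:
`n + (q - 1) + 1 = (l + 1) q`, `(q - 1) l + 1 ≤ n - 1` (`l ≥ 2`), `c + ρ = n ≡ 0 ≡ q * 1 * (l (l + 1) / 2) = n ((l + 1) / 2)`.

PROOF of `lower_d`.  `C = q ^ 2 (q ^ 2 + 2 q + 2)`.  `d ∈ Dset q n`, `l = d / q ≥ 1`, `r = d % q`, `2 ≤ r < q`, `d = q l + r`, `n = d t`, `m = fv q d ≥ q + 1`, `m ≤ 2 q`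
(`fv ≤ (d - 1) / l` and `d - 1 = q l + r - 1 < (2 q) l`).  `(q + 1) l ≤ m l ≤ d - 1 = q l + r - 1`, so `l ≤ r - 1`, `d < q ^ 2`, `t ≥ q ^ 2 + 2 q + 2`.
* If `m l + 2 ≤ d`: `INT_big` with `w = t (q - r) - m`: `(l + 1) q t = n + t (q - r)` (`q l + q = d + q - r`), `w ≥ t - m ≥ q ^ 2 ≥ d`, `w ≤ q t`, `l + 1 ≤ d`, `d ≤ w l + 1`.
* Otherwise `m l + 1 = d` (`m l ≤ d - 1`), and `fv q d = m > (d - 2) / l` forces the indicator in `fv` to be `1`: `q.minFac * r < q`.  `e = q.minFac ≥ 2`, `q = e f`, `r < f`.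
  `QP_big` with `w = t (f - r) - m`: `l q t + f t = n + t (f - r)` (`q l = d - r`), `w ≥ t - m ≥ q ^ 2 + 1`, `w ≤ f t`, `d ≤ (w - 1) l + 1`.
-/

set_option autoImplicit false

open Finset

namespace Pool.Agent.HB

theorem lower_c {q n : ℕ} [NeZero q] [NeZero n] (hq : 2 ≤ q) (hqn : q ∣ n) (h2 : 2 * q ≤ n) :
    n + (q - 1) ≤ tau (ZMod q × ZMod n) n := by
  by_cases hn : 2 ∣ n
  · exact EV hq (by omega) hn
  · obtain ⟨l, hl⟩ := hqn
    have hlodd : ¬ 2 ∣ l := fun h => hn (hl ▸ Dvd.dvd.mul_left h q)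
    have hl2 : 2 ≤ l := by
      by_contra hlt
      have h3 : l ≤ 1 := by omega
      have h4 : q * l ≤ q * 1 := Nat.mul_le_mul_left q h3
      omega
    have h5 : 2 * l ≤ q * l := Nat.mul_le_mul_right l hq
    obtain ⟨j, hj⟩ : ∃ j, l = 2 * j + 1 := ⟨l / 2, by omega⟩
    apply INT (d := n) (t := 1) (l := l) (w := 1) (ρ := 1) (c := n - 1)
    · rw [Nat.mul_one]
    · omega
    · have : (l + 1) * (q * 1) = q * l + q := by ring
      omega
    · omega
    · omega
    · have h6 : (q - 1) * l + l = q * l := by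
        have : (q - 1 + 1) * l = q * l := by
          congr 1
          omega
        rw [← this]
        ring
      omega
    · omega
    · have h7 : l * (l + 1) / 2 = l * (j + 1) := by
        have : l * (l + 1) = l * (j + 1) * 2 := by
          rw [hj]
          ring
        rw [this, Nat.mul_div_cancel _ (by norm_num)]
      have h8 : q * 1 * (l * (l + 1) / 2) = n * (j + 1) := by
        rw [h7, hl]
        ring
      rw [h8]
      have h9 : n - 1 + 1 = n := by omega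
      rw [h9]
      exact ((Nat.modEq_zero_iff_dvd.2 (dvd_refl n)).trans
        (Nat.modEq_zero_iff_dvd.2 (dvd_mul_right n (j + 1))).symm)

theorem lower_d {q : ℕ} (hq : 4 ≤ q) : ∃ C : ℕ, ∀ (n : ℕ) [NeZero q] [NeZero n], C ≤ n →
    ∀ d ∈ Dset q n, q + 1 ≤ fv q d → n + fv q d ≤ tau (ZMod q × ZMod n) n := by
  refine ⟨q ^ 2 * (q ^ 2 + 2 * q + 2), ?_⟩
  intro n _ _ hC d hd hfv
  unfold Dset at hd
  rw [Finset.mem_filter, Nat.mem_divisors] at hd
  obtain ⟨⟨⟨t, ht⟩, hn0⟩, hdq, hr2⟩ := hd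
  set m := fv q d with hm
  obtain ⟨l, hl⟩ : ∃ l, l = d / q := ⟨_, rfl⟩
  obtain ⟨r, hr⟩ : ∃ r, r = d % q := ⟨_, rfl⟩
  have hdlr : d = q * l + r := by
    rw [hl, hr]
    exact (Nat.div_add_mod d q).symm
  have hrq : r < q := by
    rw [hr]
    exact Nat.mod_lt _ (by omega)
  have hl1 : 1 ≤ l := by
    rw [hl]
    exact (Nat.one_le_div_iff (by omega)).2 (by omega)
  rw [← hr] at hr2
  have hml0 : m * l ≤ d - 2 + (if q.minFac * r < q then 1 else 0) := by
    rw [hm]
    unfold fv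
    rw [← hl, ← hr]
    exact Nat.div_mul_le_self _ _
  have hml1 : m * l + 1 ≤ d := by
    split_ifs at hml0 <;> omega
  have hqm : (q + 1) * l ≤ m * l := Nat.mul_le_mul_right l hfv
  have hlr : l + 1 ≤ r := by
    have : (q + 1) * l = q * l + l := by ring
    omega
  have hdq2 : d + 1 ≤ q ^ 2 := by
    have h1 : q * l ≤ q * (q - 2) := Nat.mul_le_mul_left q (by omega)
    have h2 : q * (q - 2) + 2 * q = q ^ 2 := by
      obtain ⟨k, hk⟩ : ∃ k, q = k + 2 := ⟨q - 2, by omega⟩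
      rw [hk]
      simp only [Nat.add_sub_cancel]
      ring
    omega
  have hm2q : m ≤ 2 * q := by
    by_contra hlt
    have h1 : (2 * q + 1) * l ≤ m * l := Nat.mul_le_mul_right l (by omega)
    have h2 : (2 * q + 1) * l = q * l + q * l + l := by ring
    have h3 : q * 1 ≤ q * l := Nat.mul_le_mul_left q hl1
    omega
  have htbig : q ^ 2 + 2 * q + 2 ≤ t := by
    by_contra hlt
    have h1 : t ≤ q ^ 2 + 2 * q + 1 := by omega
    have h2 : d * t ≤ q ^ 2 * (q ^ 2 + 2 * q + 1) := Nat.mul_le_mul (by omega) h1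
    have h3 : q ^ 2 * (q ^ 2 + 2 * q + 2) = q ^ 2 * (q ^ 2 + 2 * q + 1) + q ^ 2 := by ring
    have h4 : 0 < q ^ 2 := by positivity
    omega
  by_cases hcase : m * l + 2 ≤ d
  · -- the construction INT
    obtain ⟨s, hs⟩ : ∃ s, q = r + s := ⟨q - r, by omega⟩
    have hs1 : 1 ≤ s := by omega
    have hts : t * 1 ≤ t * s := Nat.mul_le_mul_left t hs1
    apply INT_big (d := d) (t := t) (l := l) (w := t * s - m) ht
    · have : 1 * l ≤ q * l := Nat.mul_le_mul_right l (by omega)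
      omega
    · have h1 : (l + 1) * (q * t) = d * t + t * s := by
        rw [hdlr]
        calc (l + 1) * (q * t) = q * l * t + q * t := by ring
          _ = q * l * t + (r + s) * t := by rw [← hs]
          _ = (q * l + r) * t + t * s := by ring
      rw [h1, ht]
      omega
    · have h1 : t * s ≤ q * t := by
        rw [Nat.mul_comm q t]
        exact Nat.mul_le_mul_left t (by omega)
      omega
    · have h1 : q ^ 2 ≤ t * s - m := by omega
      have h2 : (t * s - m) * 1 ≤ (t * s - m) * l := Nat.mul_le_mul_left _ hl1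
      omega
    · exact hcase
  · -- the construction QP
    have hdm : d = m * l + 1 := by omega
    have hind : q.minFac * r < q := by
      by_contra hcon
      rw [if_neg hcon] at hml0
      omega
    have he2 : 2 ≤ q.minFac := (Nat.minFac_prime (by omega)).two_le
    obtain ⟨f, hf⟩ := Nat.minFac_dvd q
    have hrf : r < f := by
      have h1 : q.minFac * r < q.minFac * f := by
        rw [← hf]
        exact hind
      exact Nat.lt_of_mul_lt_mul_left h1
    obtain ⟨s, hs⟩ : ∃ s, f = r + s := ⟨f - r, by omega⟩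
    have hs1 : 1 ≤ s := by omega
    have hts : t * 1 ≤ t * s := Nat.mul_le_mul_left t hs1
    apply QP_big (d := d) (t := t) (l := l) (w := t * s - m) (e := q.minFac) (f := f) ht hdm hf he2 hl1
    · omega
    · have h1 : l * (q * t) + f * t = d * t + t * s := by
        rw [hdlr, hs]
        ring
      rw [h1, ht]
      omega
    · omega
    · have h1 : t * s ≤ f * t := by
        rw [Nat.mul_comm f t]
        exact Nat.mul_le_mul_left t (by omega)
      omega
    · have h1 : q ^ 2 ≤ t * s - m - 1 := by omega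
      have h2 : (t * s - m - 1) * 1 ≤ (t * s - m - 1) * l := Nat.mul_le_mul_left _ hl1
      omega

end Pool.Agent.HB
end

section

/-!
# TASK HB E7: the lower bound (1e)

`C = 2 q (q + 3) q`.  Let `d ∈ Dset q n`, `l = d / q ≥ 1`, `r = d % q`, `2 ≤ r < q`, `d = q l + r`, `n = d t`.  `q ∣ n = t (q l + r)`, so `q ∣ t r` and `q ∣ t (q - r)`; `t (q - r) = q k` with `k ≥ 1`.
`(l + 1) q t = n + t (q - r) = n + q k`.  Everywhere `m = q`; note `q l + 2 ≤ d`, `l + 1 ≤ d`, `q k ≤ q t`.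

`e_big` (`k ≥ 3`): `INT_big` with `w = q (k - 1) ≥ 2 q`: `w l ≥ 2 q l ≥ q l + q > d - 1`.

`e_two` (`k = 2`, `r ≥ 3`, `l ≥ q`): `INT1_big` with `w = q + 1`: `n + q + (q + 1) = (l + 1) q t + 1`; `q + 1 ≤ q t` since `t ≥ 3` (`t (q - r) = 2 q`, `q - r < q`);
`d = q l + r ≤ (q + 1) l + 1` since `r ≤ q - 1 < l + 1`; `q l + 3 ≤ d`.

`e_two_six` (`q = 6`, `t = 3`, `d = 6 l + 2`, `l = 2 j + 1`): `n = 3 d`, `(l + 1) 18 = n + 12`.  `INT` with `w = 6`, `ρ = 6 j + 3 ≤ 6 l`, `c = d - 1 = 12 j + 7`: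
`18 (l (l + 1) / 2) = 18 (2 j + 1) (j + 1) = d (3 j + 2) + 6 j + 2` and `c + ρ = 18 j + 10 = d + 6 j + 2` (`d = 12 j + 8`).

`e_two_four_even` (`q = 4`, `d1 = 4 l1 + 1`, `n = 8 d1`, `l1 ≥ 1`): `QP` with `d = d1`, `t = 8`, `m = 4`, `l = l1`, `e = f = 2`, `w = 4`, `ρ = 2 ≤ 3 l1`:
`n + 4 + 4 = l1 * 32 + 16`; `32 (l1 (l1 - 1) / 2) + 16 l1 + 1 = 16 l1 ^ 2 + 1 = (4 l1 - 1) d1 + 2`.

`e_one` (`k = 1`: `t (q - r) = q`, so `t r = q (t - 1)`, `t ≥ 2`, `t ∣ q`; `n = q (t l + t - 1)`).  `(l + 1) q t = n + q`.  Assume `q` odd or `n / q` even (else `KK`).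
 * `t` is odd: if `q` is odd since `t ∣ q`; if `q` is even, `n / q = t (l + 1) - 1` is even, so `t` and `l + 1` are odd.  `t ≥ 3`.
 * `l` odd (so `q` is odd): `INT` with `w = 0`, `ρ = 0`, `c = d - r / 2`: `2 X = (l + 1) q t l = (n + q) l = t d l + q l = (t l + 1) d - r` where `X = q t (l (l + 1) / 2)`;
   `t l + 1 = 2 u` is even, so `r = 2 r1` is even and `X = u d - r1 ≡ d - r1`; `q l + 1 ≤ d - r1 ≤ d - 1`.
 * `l` even, `l = 2 l2`, `l2 ≥ 1`: `t = 2 u + 1`, `r (2 u + 1) = 2 u q`, so `r = 2 r2` is even, `d = 2 d2`, `d2 = q l2 + r2`, `r2 ≥ 2` (`r2 t = u q`: `t = 3`: `3 ∣ q`, `q ≥ 6`, `r2 = q / 3 ≥ 2`;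
   `t ≥ 5`: `u ≥ 2`, `r2 = u (q / t) ≥ 2`), `n = d2 (2 t)`, `2 t (q - r2) = 2 t q - t r = q (t + 1)`, `k2 = t + 1 ≥ 3`: `e_big`.

PROOF of `lower_e`.  `k ≥ 3`: `e_big`.  Otherwise `t ≤ 2 q` (`t ≤ t (q - r) ≤ 2 q`), so `d ≥ C / (2 q)`, `l ≥ q + 2`.  If `q` is even and `n / q` is odd: `KK`.  `k = 1`: `e_one`.
`k = 2`, `r ≥ 3`: `e_two`.  `k = 2`, `r = 2`: `t (q - 2) = 2 q`: `t ≤ 4` (as `4 (q - 2) ≥ 2 q`), `t ≥ 3`: `t = 3`, `q = 6` or `t = 4`, `q = 4`.
 * `q = 6`, `t = 3`: `d = 6 l + 2`, `n / 6 = 3 l + 1` even (otherwise `KK`), so `l` is odd: `e_two_six`.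
 * `q = 4`, `t = 4`: `d = 4 l + 2`, `n = 4 d`.  `l = 2 l1`: `e_two_four_even` (`d1 = d / 2`).  `l = 2 j + 1`: `d2 = d / 2 = 4 j + 3`, `n = 8 d2`, `r = 3`, `8 (4 - 3) = 4 * 2`, `j ≥ 4`: `e_two` for `d2`
   (choose `C` so that `l ≥ 9` if `q = 4`; e.g. `C = 2 q (q (2 q + 5))`).
-/

set_option autoImplicit false

open Finset

namespace Pool.Agent.HB

theorem e_big {q n l r t k : ℕ} [NeZero q] [NeZero n] (hn : n = (q * l + r) * t) (hr : 2 ≤ r)
    (hrq : r < q) (hl : 1 ≤ l) (hk : t * (q - r) = q * k) (hk3 : 3 ≤ k) :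
    n + q ≤ tau (ZMod q × ZMod n) n := by
  obtain ⟨u, rfl⟩ : ∃ u, q = r + u := ⟨q - r, by omega⟩
  have hu : r + u - r = u := by omega
  rw [hu] at hk
  obtain ⟨k', rfl⟩ : ∃ k', k = k' + 1 := ⟨k - 1, by omega⟩
  have hkt : k' + 1 ≤ t := by
    by_contra hcon
    push Not at hcon
    have h1 : t * u ≤ t * (r + u) := Nat.mul_le_mul_left _ (by omega)
    have h2 : (r + u) * t < (r + u) * (k' + 1) := Nat.mul_lt_mul_of_pos_left hcon (by omega)
    rw [Nat.mul_comm (r + u) t] at h2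
    omega
  refine INT_big (d := (r + u) * l + r) (t := t) (l := l) (m := r + u) (w := (r + u) * k') hn
    ?_ ?_ ?_ ?_ ?_
  · have : l ≤ (r + u) * l := Nat.le_mul_of_pos_left _ (by omega)
    omega
  · have h1 : (l + 1) * ((r + u) * t) = n + t * u := by rw [hn]; ring
    rw [h1, hk]; ring
  · exact Nat.mul_le_mul_left _ (by omega)
  · have h1 : (r + u) * l * 2 ≤ (r + u) * l * k' := Nat.mul_le_mul_left _ (by omega)
    have h2 : (r + u) * 1 ≤ (r + u) * l := Nat.mul_le_mul_left _ hl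
    have h3 : (r + u) * k' * l = (r + u) * l * k' := by ring
    omega
  · omega

theorem e_two {q n l r t : ℕ} [NeZero q] [NeZero n] (hn : n = (q * l + r) * t) (hr : 3 ≤ r)
    (hrq : r < q) (hl : q ≤ l) (hk : t * (q - r) = q * 2) :
    n + q ≤ tau (ZMod q × ZMod n) n := by
  obtain ⟨u, rfl⟩ : ∃ u, q = r + u := ⟨q - r, by omega⟩
  have hu : r + u - r = u := by omega
  rw [hu] at hk
  have ht : 2 ≤ t := by
    by_contra hcon
    push Not at hcon
    have h1 : t * u ≤ 1 * u := Nat.mul_le_mul_right _ (by omega)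
    omega
  refine INT1_big (d := (r + u) * l + r) (t := t) (l := l) (m := r + u) (w := r + u + 1) hn
    ?_ ?_ ?_ ?_ ?_ ?_
  · have : l ≤ (r + u) * l := Nat.le_mul_of_pos_left _ (by omega)
    omega
  · omega
  · have h1 : (l + 1) * ((r + u) * t) = n + t * u := by rw [hn]; ring
    rw [h1, hk]; ring
  · have h1 : (r + u) * 2 ≤ (r + u) * t := Nat.mul_le_mul_left _ ht
    omega
  · have h1 : (r + u + 1) * l = (r + u) * l + l := by ring
    omega
  · omega

theorem e_two_six {n j : ℕ} [NeZero n] (hn : n = (12 * j + 8) * 3) :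
    n + 6 ≤ tau (ZMod 6 × ZMod n) n := by
  refine INT (q := 6) (d := 12 * j + 8) (t := 3) (l := 2 * j + 1) (m := 6) (w := 6)
    (ρ := 6 * j + 3) (c := 12 * j + 7) hn ?_ ?_ ?_ ?_ ?_ ?_ ?_
  · omega
  · rw [hn]; ring
  · omega
  · omega
  · omega
  · omega
  · have h1 : (2 * j + 1) * (2 * j + 1 + 1) / 2 = (2 * j + 1) * (j + 1) := by
      apply Nat.div_eq_of_eq_mul_left (by norm_num)
      ring
    rw [h1, Nat.modEq_iff_dvd]
    refine ⟨3 * j + 1, ?_⟩
    push_cast
    ring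

theorem e_two_four_even {n l1 : ℕ} [NeZero n] (hn : n = (4 * l1 + 1) * 8) (hl : 1 ≤ l1) :
    n + 4 ≤ tau (ZMod 4 × ZMod n) n := by
  refine QP (q := 4) (d := 4 * l1 + 1) (t := 8) (l := l1) (m := 4) (w := 4)
    (ρ := 2) (e := 2) (f := 2) hn rfl (by norm_num) (by norm_num) hl (by norm_num) ?_
    (by norm_num) (by norm_num) (by omega) ?_
  · rw [hn]; ring
  · obtain ⟨a, rfl⟩ : ∃ a, l1 = a + 1 := ⟨l1 - 1, by omega⟩
    have h0 : Even ((a + 1) * a) := by
      rw [Nat.mul_comm]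
      exact Nat.even_mul_succ_self a
    obtain ⟨P, hP⟩ := h0
    have h1 : (a + 1) * (a + 1 - 1) / 2 = P := by
      have : a + 1 - 1 = a := by omega
      rw [this, hP]
      omega
    rw [h1, Nat.modEq_iff_dvd]
    refine ⟨-(4 * (a + 1 : ℤ) - 1), ?_⟩
    have h2 : ((a : ℤ) + 1) * a = P + P := by exact_mod_cast hP
    push_cast
    linear_combination 16 * h2

theorem e_one {q n l r t : ℕ} [NeZero q] [NeZero n] (hq : 4 ≤ q) (hn : n = (q * l + r) * t)
    (hr : 2 ≤ r) (hrq : r < q) (hl : 1 ≤ l) (hk : t * (q - r) = q) :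
    n + q ≤ tau (ZMod q × ZMod n) n := by
  have ht1 : 2 ≤ t := by
    by_contra hcon
    push Not at hcon
    have h1 : t * (q - r) ≤ 1 * (q - r) := Nat.mul_le_mul_right _ (by omega)
    omega
  have htr : t * r + q = q * t := by
    have h1 : t * (q - r) + t * r = t * q := by rw [← Nat.mul_add]; congr 1; omega
    have h2 : t * q = q * t := Nat.mul_comm _ _
    omega
  obtain ⟨t', rfl⟩ : ∃ t', t = t' + 1 := ⟨t - 1, by omega⟩
  have htr' : (t' + 1) * r = q * t' := by
    have : q * (t' + 1) = q * t' + q := by ring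
    omega
  have hnq : n = q * (l * (t' + 1) + t') := by
    rw [hn]
    calc (q * l + r) * (t' + 1) = q * l * (t' + 1) + (t' + 1) * r := by ring
      _ = q * l * (t' + 1) + q * t' := by rw [htr']
      _ = _ := by ring
  by_cases hKK : 2 ∣ q ∧ Odd (l * (t' + 1) + t')
  · exact KK hKK.1 hnq hKK.2
  · have hodd : Even t' := by
      rcases Nat.even_or_odd q with hqe | hqo
      · have h1 : ¬ Odd (l * (t' + 1) + t') := fun h => hKK ⟨hqe.two_dvd, h⟩
        rw [Nat.not_odd_iff_even] at h1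
        by_contra hcon
        rw [Nat.not_even_iff_odd] at hcon
        have h2 : Even (t' + 1) := hcon.add_one
        have h3 : Even (l * (t' + 1)) := h2.mul_left l
        exact (Nat.not_even_iff_odd.2 (h3.add_odd hcon)) h1
      · have h1 : Odd (t' + 1) := by
          rw [← hk] at hqo
          exact (Nat.odd_mul.1 hqo).1
        rcases Nat.even_or_odd t' with h2 | h2
        · exact h2
        · exact absurd h1 (Nat.not_odd_iff_even.2 h2.add_one)
    obtain ⟨b, hb⟩ := hodd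
    have hb' : t' = 2 * b := by omega
    subst hb'
    have hb1 : 1 ≤ b := by omega
    have hre : Even r := by
      have h1 : Even ((2 * b + 1) * r) := by
        rw [htr']
        exact ⟨q * b, by ring⟩
      rcases Nat.even_mul.1 h1 with h2 | h2
      · exact absurd h2 (by rw [Nat.not_even_iff_odd]; exact ⟨b, rfl⟩)
      · exact h2
    obtain ⟨r1, hr1⟩ := hre
    have hr1' : r = 2 * r1 := by omega
    subst hr1'
    have hqb : (2 * b + 1) * r1 = q * b := by
      have h1 : 2 * ((2 * b + 1) * r1) = 2 * (q * b) := by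
        calc 2 * ((2 * b + 1) * r1) = (2 * b + 1) * (2 * r1) := by ring
          _ = q * (2 * b) := htr'
          _ = _ := by ring
      omega
    rcases Nat.even_or_odd l with hle | hlo
    · obtain ⟨a, ha⟩ := hle
      have ha' : l = 2 * a := by omega
      subst ha'
      have hr2 : 2 ≤ r1 := by
        by_contra hcon
        have h1 : r1 = 1 := by omega
        rw [h1] at hqb
        have h2 : 4 * b ≤ q * b := Nat.mul_le_mul_right _ hq
        omega
      refine e_big (q := q) (n := n) (l := a) (r := r1) (t := 2 * (2 * b + 1))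
        (k := 2 * b + 1 + 1) ?_ hr2 (by omega) (by omega) ?_ (by omega)
      · rw [hn]; ring
      · obtain ⟨u, hu⟩ : ∃ u, q = r1 + u := ⟨q - r1, by omega⟩
        have hu' : q - r1 = u := by omega
        rw [hu']
        have h3 : (2 * b + 1) * r1 + (2 * b + 1) * u = (2 * b + 1) * q := by
          rw [← Nat.mul_add, hu]
        have h4 : 2 * (2 * b + 1) * u = 2 * ((2 * b + 1) * u) := by ring
        have h5 : (2 * b + 1) * q = 2 * (q * b) + q := by ring
        have h6 : q * (2 * b + 1 + 1) = 2 * (q * b) + 2 * q := by ring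
        omega
    · obtain ⟨a, ha⟩ := hlo
      subst ha
      refine INT (q := q) (d := q * (2 * a + 1) + 2 * r1) (t := 2 * b + 1) (l := 2 * a + 1)
        (m := q) (w := 0) (ρ := 0) (c := q * (2 * a + 1) + r1) hn ?_ ?_ ?_ ?_ ?_ ?_ ?_
      · have : 1 * (2 * a + 1) ≤ q * (2 * a + 1) := Nat.mul_le_mul_right _ (by omega)
        omega
      · rw [hnq]; ring
      · exact Nat.zero_le _
      · simp
      · omega
      · omega
      · have h1 : (2 * a + 1) * (2 * a + 1 + 1) / 2 = (2 * a + 1) * (a + 1) := by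
          apply Nat.div_eq_of_eq_mul_left (by norm_num)
          ring
        rw [h1, Nat.modEq_iff_dvd]
        refine ⟨2 * a * b + a + b, ?_⟩
        have h2 : ((2 * b + 1 : ℤ)) * r1 = q * b := by exact_mod_cast hqb
        push_cast
        linear_combination (-(2 * (a : ℤ) + 1)) * h2

theorem lower_e {q : ℕ} (hq : 4 ≤ q) : ∃ C : ℕ, ∀ (n : ℕ) [NeZero q] [NeZero n], C ≤ n →
    q ∣ n → (Dset q n).Nonempty → n + q ≤ tau (ZMod q × ZMod n) n := by
  refine ⟨2 * q * (q * (2 * q + 6)), ?_⟩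
  intro n _ _ hC hqn hD
  obtain ⟨d, hd⟩ := hD
  rw [Dset, mem_filter, Nat.mem_divisors] at hd
  obtain ⟨⟨⟨t, hdt⟩, hn0⟩, hd2, hdr⟩ := hd
  set l := d / q with hldef
  set r := d % q with hrdef
  have hdl : d = q * l + r := (Nat.div_add_mod d q).symm
  have hrq : r < q := Nat.mod_lt _ (by omega)
  have hl1 : 1 ≤ l := (Nat.one_le_div_iff (by omega)).2 (by omega)
  have ht1 : 1 ≤ t := by
    rcases Nat.eq_zero_or_pos t with h | h
    · rw [h, Nat.mul_zero] at hdt
      exact absurd hdt hn0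
    · exact h
  have hn : n = (q * l + r) * t := by rw [← hdl]; exact hdt
  have hsum : t * (q - r) + n = q * ((l + 1) * t) := by
    obtain ⟨u, hu⟩ : ∃ u, q = r + u := ⟨q - r, by omega⟩
    have hu' : q - r = u := by omega
    rw [hu', hn]
    calc t * u + (q * l + r) * t = (q * l + (r + u)) * t := by ring
      _ = (q * l + q) * t := by rw [← hu]
      _ = _ := by ring
  have hqk : q ∣ t * (q - r) := by
    have h1 : q ∣ t * (q - r) + n := by rw [hsum]; exact Dvd.intro _ rfl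
    exact (Nat.dvd_add_left hqn).1 h1
  obtain ⟨k, hk⟩ := hqk
  have hk1 : 1 ≤ k := by
    rcases Nat.eq_zero_or_pos k with h | h
    · rw [h, Nat.mul_zero] at hk
      have : 0 < t * (q - r) := Nat.mul_pos ht1 (by omega)
      omega
    · exact h
  rcases Nat.lt_or_ge k 3 with hk3 | hk3
  swap
  · exact e_big hn hdr hrq hl1 hk hk3
  have hk12 : k = 1 ∨ k = 2 := by omega
  rcases hk12 with rfl | rfl
  · exact e_one hq hn hdr hrq hl1 (by rw [hk, Nat.mul_one])
  -- k = 2
  have htq : t ≤ 2 * q := by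
    have h1 : t * 1 ≤ t * (q - r) := Nat.mul_le_mul_left _ (by omega)
    omega
  have hlbig : 2 * q + 5 ≤ l := by
    by_contra hcon
    push Not at hcon
    have h1 : d < q * (2 * q + 6) := by
      have h2 : q * l ≤ q * (2 * q + 4) := Nat.mul_le_mul_left _ (by omega)
      have h3 : q * (2 * q + 6) = q * (2 * q + 4) + 2 * q := by ring
      omega
    have h4 : d * t ≤ d * (2 * q) := Nat.mul_le_mul_left _ htq
    have h5 : d * (2 * q) < q * (2 * q + 6) * (2 * q) :=
      Nat.mul_lt_mul_of_pos_right h1 (by omega)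
    have h6 : q * (2 * q + 6) * (2 * q) = 2 * q * (q * (2 * q + 6)) := by ring
    omega
  rcases Nat.lt_or_ge r 3 with hr3 | hr3
  swap
  · exact e_two hn hr3 hrq (by omega) hk
  have hr2 : r = 2 := by omega
  rw [hr2] at hk hn
  obtain ⟨u, hu⟩ : ∃ u, q = u + 2 := ⟨q - 2, by omega⟩
  have hu' : q - 2 = u := by omega
  rw [hu'] at hk
  have ht4 : t ≤ 4 := by
    by_contra hcon
    push Not at hcon
    have h1 : 5 * u ≤ t * u := Nat.mul_le_mul_right _ hcon
    omega
  have ht3 : 3 ≤ t := by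
    by_contra hcon
    push Not at hcon
    have h1 : t * u ≤ 2 * u := Nat.mul_le_mul_right _ (by omega)
    omega
  have ht34 : t = 3 ∨ t = 4 := by omega
  rcases ht34 with rfl | rfl
  · have hq6 : q = 6 := by omega
    clear_value l r
    subst hq6
    rcases Nat.even_or_odd l with hle | hlo
    · obtain ⟨a, ha⟩ := hle
      exact KK (k := 3 * l + 1) (by norm_num) (by rw [hn]; ring) ⟨3 * a, by omega⟩
    · obtain ⟨j, hj⟩ := hlo
      exact e_two_six (j := j) (by rw [hn, hj]; ring)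
  · have hq4 : q = 4 := by omega
    clear_value l r
    subst hq4
    rcases Nat.even_or_odd l with hle | hlo
    · obtain ⟨a, ha⟩ := hle
      exact e_two_four_even (l1 := a) (by rw [hn, ha]; ring) (by omega)
    · obtain ⟨j, hj⟩ := hlo
      exact e_two (q := 4) (l := j) (r := 3) (t := 8) (by rw [hn, hj]; ring) (by norm_num)
        (by norm_num) (by omega) (by norm_num)

end Pool.Agent.HB
end
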