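import Pool.Agent.Lib.MP_249d2a_co.Mg.G001
import Pool.Agent.Lib.MP_249d2a_co.Mg.G002
import Pool.Agent.Lib.MP_249d2a_co.Mg.G003

section

/-!
# TASK HB B5: sets with a unique representation of 0; the aperiodic step, part 1

PROOF of `cyc_of_unique`.  `l = |C| - 1`, `d = |G|`.  `ms_growth_unique`: `|ms (j + 1) C| ≥ |ms j C| + l` for `j < m`, so
`d = |ms m C| ≥ m l + 1`, and `|ms j C| + l ≤ d` for `j < m`.  `C` has at least two elements (if `C = {0}`, `ms m C = {0} = univ`,
`d = 1`: then `⊤ = zmultiples 0`, first alternative; otherwise `AGen.two_le`).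
`l = 1`: `C = {0, x}`, and `AGen C` gives `zmultiples x = ⊤`.
`l ≥ 2`: `concl_of_ms`: `2 (l + 1) ≤ d` as `d ≥ 3 l + 1`, `|ms j C| + 2 ≤ d` for `j < m`, `d + 2 ≤ q (l + 1) + 1 ≤ m (l + 1)`.
`Concl C` is what we want.

PROOF of `concl_or`.  `l = |B| - 1 ≥ 1` (`N ≥ 2` because `ms m B ≠ univ` and `B` is nonempty; `AGen.two_le`).  `ms_growth`:
`m l + 1 ≤ |ms m B| ≤ N - 1`, and `|ms j B| + l ≤ |ms m B|` for `j < m`.  `concl_of_ms`: `2 (l + 1) ≤ N`, `|ms j B| + 2 ≤ N`,
`|ms m B| + 2 ≤ N + 1 ≤ q (l + 1) ≤ m (l + 1)`.
-/

set_option autoImplicit false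

open Finset
open scoped Pointwise

namespace Pool.Agent.HB

open Pool.Agent.Kneser

variable {G : Type*} [AddCommGroup G] [Fintype G] [DecidableEq G]

omit [Fintype G] in
private theorem B5_grow {C : Finset G} {m : ℕ} (hC : 1 ≤ C.card)
    (hg : ∀ j, j < m → (ms j C).card + C.card ≤ (ms (j + 1) C).card + 1) :
    (∀ j, j ≤ m → j * (C.card - 1) + 1 ≤ (ms j C).card) ∧
      ∀ j, j ≤ m → (ms j C).card ≤ (ms m C).card := by
  constructor
  · intro j
    induction j with
    | zero =>
      intro _
      rw [ms_zero, card_singleton]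
      omega
    | succ j ih =>
      intro hj
      have h1 := ih (by omega)
      have h2 := hg j (by omega)
      have e : (j + 1) * (C.card - 1) = j * (C.card - 1) + (C.card - 1) := by ring
      rw [e]
      omega
  · intro j hj
    obtain ⟨k, rfl⟩ := Nat.exists_eq_add_of_le hj
    clear hj
    induction k with
    | zero => exact le_rfl
    | succ k ih =>
      have h1 := ih (fun i hi => hg i (by omega))
      have h2 := hg (j + k) (by omega)
      have e : j + (k + 1) = j + k + 1 := by ring
      rw [e]
      omega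

theorem cyc_of_unique {q m : ℕ} (hq : 2 ≤ q) (hm : q + 1 ≤ m) {C : Finset G} (h0 : (0 : G) ∈ C)
    (hU : UZ m C) (hC : AGen C) (h1 : ms m C = univ) (h2 : Fintype.card G < q * C.card) :
    m * (C.card - 1) + 1 ≤ Fintype.card G ∧
    ((∃ x : G, AddSubgroup.zmultiples x = ⊤) ∨
      ∃ K : AddSubgroup G, 2 ≤ (fs K).card ∧ (C + fs K).card < Fintype.card G ∧
        (C + fs K).card + 1 ≤ C.card + (fs K).card) := by
  have hC1 : 1 ≤ C.card := Finset.card_pos.2 ⟨0, h0⟩
  have hg : ∀ j, j < m → (ms j C).card + C.card ≤ (ms (j + 1) C).card + 1 :=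
    fun j hj => ms_growth_unique h0 hU hj
  obtain ⟨g1, g2⟩ := B5_grow hC1 hg
  have hN : (ms m C).card = Fintype.card G := by rw [h1, Finset.card_univ]
  have h3 : m * (C.card - 1) + 1 ≤ Fintype.card G := by
    rw [← hN]
    exact g1 m le_rfl
  refine ⟨h3, ?_⟩
  by_cases hG : Fintype.card G ≤ 1
  · left
    refine ⟨0, ?_⟩
    have hs : Subsingleton G := Fintype.card_le_one_iff_subsingleton.1 hG
    rw [AddSubgroup.eq_top_iff']
    intro x
    rw [Subsingleton.elim x 0]
    exact zero_mem _
  · push Not at hG
    have hC2 := hC.two_le hG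
    rcases Nat.lt_or_ge 2 C.card with hl | hl
    · have hl3 : 3 ≤ m := by omega
      have h4 : 3 * (C.card - 1) ≤ m * (C.card - 1) := Nat.mul_le_mul_right _ hl3
      have hconcl : Concl C := by
        refine concl_of_ms hl3 hC2 (by omega) (fun j _ hj => hg j hj) (fun j hj => ?_) ?_
        · have h5 := hg j hj
          have h6 := g2 (j + 1) (by omega)
          omega
        · rw [hN]
          have h7 : (q + 1) * C.card ≤ m * C.card := Nat.mul_le_mul_right _ hm
          have e : (q + 1) * C.card = q * C.card + C.card := by ring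
          omega
      rcases hconcl with ⟨b, x, hx, -⟩ | h
      · exact Or.inl ⟨x, hx⟩
      · exact Or.inr h
    · left
      have hC3 : C.card = 2 := by omega
      obtain ⟨x, hx, hx0⟩ : ∃ x ∈ C, x ≠ 0 := by
        by_contra hcon
        push Not at hcon
        have : C ⊆ {0} := fun y hy => by rw [mem_singleton]; exact hcon y hy
        have := Finset.card_le_card this
        rw [card_singleton] at this
        omega
      have hCx : C = {0, x} := by
        symm
        apply Finset.eq_of_subset_of_card_le
        · intro y hy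
          rw [mem_insert, mem_singleton] at hy
          rcases hy with rfl | rfl
          · exact h0
          · exact hx
        · rw [hC3, card_pair hx0.symm]
      refine ⟨x, hC _ fun y hy z hz => ?_⟩
      have hmem : ∀ y ∈ C, y ∈ AddSubgroup.zmultiples x := by
        intro y hy
        rw [hCx, mem_insert, mem_singleton] at hy
        rcases hy with rfl | rfl
        · exact zero_mem _
        · exact AddSubgroup.mem_zmultiples _
      exact sub_mem (hmem y hy) (hmem z hz)

theorem concl_or {q m : ℕ} (hq : 2 ≤ q) (hm : q + 1 ≤ m) {B : Finset G} (hB : AGen B)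
    (h1 : ms m B ≠ univ) (h2 : Fintype.card G < q * B.card) (h3 : stab (ms m B) = ⊥) :
    Concl B := by
  have hB1 : 1 ≤ B.card := by
    rcases Nat.eq_zero_or_pos B.card with h | h
    · rw [h, Nat.mul_zero] at h2
      omega
    · exact h
  have hBn : B.Nonempty := Finset.card_pos.1 hB1
  have hg : ∀ j, j < m → (ms j B).card + B.card ≤ (ms (j + 1) B).card + 1 :=
    fun j hj => ms_growth hBn h3 hj
  obtain ⟨g1, g2⟩ := B5_grow hB1 hg
  have hlt : (ms m B).card < Fintype.card G := by
    rw [← Finset.card_univ]
    exact Finset.card_lt_card (Finset.ssubset_univ_iff.2 h1)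
  have hpos : 1 ≤ (ms m B).card := Finset.card_pos.2 (ms_nonempty hBn m)
  have hB2 := hB.two_le (show 2 ≤ Fintype.card G by omega)
  have hm3 : 3 ≤ m := by omega
  have h4 : 3 * (B.card - 1) ≤ m * (B.card - 1) := Nat.mul_le_mul_right _ hm3
  have h5 := g1 m le_rfl
  refine concl_of_ms hm3 hB2 (by omega) (fun j _ hj => hg j hj) (fun j hj => ?_) ?_
  · have h6 := hg j hj
    have h7 := g2 (j + 1) (by omega)
    omega
  · have h7 : q * B.card ≤ m * B.card := Nat.mul_le_mul_right _ (by omega)
    omega

end Pool.Agent.HB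
end

section

/-!
# TASK HB B6: Lemma S

PROOF of `cyclic_quot` (`K` is maximal among the subgroups with few holes; `C = B - b` modulo `K`).  `C := qim K (B + {-b})`:
`0 ∈ C`, `|C| = |qim K B|`, `AGen C` (`AGen.translate`, `AGen.qim`), `ms m C` is a translate of `ms m (qim K B) = univ`
(`ms_translate`; `qim K (B + {-b}) = qim K B + {-[b]}`).  `cyc_of_unique` in `G ⧸ K` (`card_quot`).  First alternative:
`CycQ K`: `x = [x0]`, every `[y]` is `k • [x0]` with `k : ℕ` (finite group: `zmultiples = multiples`).
Second alternative: a subgroup `L` of `G ⧸ K`; `K' := L.comap (mk' K)`, `|K'| = |L| |K|`; `|B + fs K'| = |qim K' B| |K'|` and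
`|qim K' B| = |qim L C|`, i.e. `|B + fs K'| = |K| |C + fs L| ≤ |K| (|C| + |L| - 1) = |B + fs K| + |K'| - |K| ≤ |B| + |K'| - 1`, and
`|B + fs K'| < N`.  `|K'| > |K|` contradicts the maximality.

PROOF of `step`.  `concl_or`.  If `B` is a progression with `zmultiples x = ⊤`: `SC` with `K = ⊥`, `l = |B| - 1` (index `N`,
`ap_ms`, `cycQ_of_zmultiples`).  Otherwise take `K` with `2 ≤ |K|`, `|B + fs K| < N`, `|B + fs K| + 1 ≤ |B| + |K|` and `|K|` maximal
(`Set.Finite` or `Nat.find` on `N - |K|`).  `k = |K|`, `d = K.index`, `d k = N`, `l = |qim K B| - 1`, `|B + fs K| = (l + 1) k`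
(`card_add_fs`).  `l ≥ 1`: otherwise `B` is in one coset, `K = ⊤` by `AGen`, `|B + fs K| = N`.  `d < q (l + 1)`: `q (l + 1) k ≥ q |B| > d k`.
If `ms m (qim K B) ≠ univ`: right alternative.  Otherwise `poor_coset` gives `b, P, y`.  `cyclic_quot`: `CycQ K`, `m l + 1 ≤ d`.
If `m l + 2 ≤ d`: `SC`.  If `d = m l + 1`: `r = d - q l = (m - q) l + 1 ≥ 2`; `card_le_poor`: `|B| ≤ l k + |P|`, so `q |P| > k r`;
`exists_e` for the group `K` (`ms m P ≠ univ` because of `y`, `mem_ms`): `SC`.

PROOF of `lemmaS`.  Strong induction on `N = |G|`.  `Q = stab (ms m B)`.  If `Q ≠ ⊥`: `G ⧸ Q` has fewer elements; `qim Q B` satisfies the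
hypotheses (`AGen.qim`; `N = |G ⧸ Q| |Q|`, `|B| ≤ |B + fs Q| = |qim Q B| |Q|`; `ms m (qim Q B) = qim Q (ms m B) ≠ univ` by
`qim_ms`, `qim_ne_univ`); `SC_of_quot`.  If `Q = ⊥`: `step`; in the right alternative induction for `G ⧸ K`, `qim K B`, and
`SC_of_quot`.
-/

set_option autoImplicit false

open Finset
open scoped Pointwise

namespace Pool.Agent.HB

open Pool.Agent.Kneser

section
variable {G : Type*} [AddCommGroup G] [Fintype G] [DecidableEq G]

theorem cyclic_quot {q m : ℕ} (hq : 2 ≤ q) (hm : q + 1 ≤ m) {B : Finset G} (hB : AGen B)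
    {K : AddSubgroup G} [Fintype (G ⧸ K)] [DecidableEq (G ⧸ K)]
    (hK1 : (B + fs K).card + 1 ≤ B.card + (fs K).card)
    (hmax : ∀ K' : AddSubgroup G, (fs K).card < (fs K').card →
      (B + fs K').card < Fintype.card G → ¬ (B + fs K').card + 1 ≤ B.card + (fs K').card)
    (hd : K.index < q * (qim K B).card) (h1 : ms m (qim K B) = univ) {b : G} (hb : b ∈ B)
    (hU : UZ m (qim K (B + {-b}))) :
    CycQ K ∧ m * ((qim K B).card - 1) + 1 ≤ K.index := by
  set C : Finset (G ⧸ K) := qim K (B + {-b}) with hC
  have hCeq : C = qim K B + {-(b : G ⧸ K)} := by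
    rw [hC, qim_add]
    congr 1
  have hcard : C.card = (qim K B).card := by
    rw [hCeq, card_add_singleton']
  have h0 : (0 : G ⧸ K) ∈ C := by
    rw [hC, mem_qim]
    exact ⟨0, mem_add.mpr ⟨b, hb, -b, by simp, by simp⟩, by simp⟩
  have hAC : AGen C := (hB.translate (-b)).qim K
  have hmsC : ms m C = univ := by
    rw [hCeq, ms_translate, h1]
    ext z
    simp only [mem_univ, iff_true]
    rw [mem_add]
    exact ⟨z - m • -(b : G ⧸ K), mem_univ _, m • -(b : G ⧸ K), by simp, by abel⟩
  have hcq : Fintype.card (G ⧸ K) = K.index := card_quot K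
  have hdC : Fintype.card (G ⧸ K) < q * C.card := by rw [hcq, hcard]; exact hd
  obtain ⟨g1, g2⟩ := cyc_of_unique hq hm h0 hU hAC hmsC hdC
  rw [hcard, hcq] at g1
  refine ⟨?_, g1⟩
  rcases g2 with ⟨x, hx⟩ | ⟨L, l1, l2, l3⟩
  · obtain ⟨x', hx'⟩ := cycQ_of_zmultiples hx (⊥ : AddSubgroup (G ⧸ K))
    obtain ⟨x0, rfl⟩ := QuotientAddGroup.mk_surjective x'
    refine ⟨x0, fun y => ?_⟩
    obtain ⟨k, hk⟩ := hx' (y : G ⧸ K)
    refine ⟨k, ?_⟩
    rw [AddSubgroup.mem_bot] at hk
    rw [← QuotientAddGroup.eq_zero_iff]
    rw [← hk]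
    simp
  · exfalso
    set K' : AddSubgroup G := L.comap (QuotientAddGroup.mk' K) with hK'
    have hKK' : K ≤ K' := by
      intro x hx
      rw [hK', AddSubgroup.mem_comap]
      have : (QuotientAddGroup.mk' K) x = 0 := by
        rw [QuotientAddGroup.mk'_apply, QuotientAddGroup.eq_zero_iff]
        exact hx
      rw [this]
      exact L.zero_mem
    have hqfs : qim K (fs K') = fs L := by
      ext z
      rw [mem_qim, mem_fs]
      constructor
      · rintro ⟨a, ha, rfl⟩
        rw [mem_fs] at ha
        exact ha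
      · intro hz
        obtain ⟨a, rfl⟩ := QuotientAddGroup.mk_surjective z
        exact ⟨a, by rw [mem_fs]; exact hz, rfl⟩
    have hfsfs : fs K' + fs K = fs K' := by
      apply add_fs_stab
      intro g hg x
      simp only [mem_fs]
      exact ⟨fun h => (AddSubgroup.add_mem_cancel_left K' (hKK' hg)).1 h,
        fun h => AddSubgroup.add_mem K' (hKK' hg) h⟩
    have hcl : ∀ A : Finset G, (A + fs K').card = (qim K A + fs L).card * (fs K).card := by
      intro A
      have h2 := card_add_fs K (A + fs K')
      rw [add_assoc, hfsfs, qim_add, hqfs] at h2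
      exact h2
    have hBK' : (B + fs K').card = (C + fs L).card * (fs K).card := by
      have h3 := hcl (B + {-b})
      have h4 : B + {-b} + fs K' = (B + fs K') + {-b} := by
        rw [add_assoc, add_comm {-b}, ← add_assoc]
      rw [h4, card_add_singleton'] at h3
      exact h3
    have hLK : (fs K').card = (fs L).card * (fs K).card := by
      have h3 := hcl {0}
      have h4 : ({0} : Finset G) + fs K' = fs K' := by
        have : ({0} : Finset G) = 0 := rfl
        rw [this, zero_add]
      have h5 : qim K ({0} : Finset G) + fs L = fs L := by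
        ext z
        rw [mem_add]
        constructor
        · rintro ⟨a, ha, c, hc, rfl⟩
          rw [mem_qim] at ha
          obtain ⟨a', ha', rfl⟩ := ha
          rw [mem_singleton] at ha'
          subst ha'
          simpa using hc
        · intro hz
          exact ⟨0, by rw [mem_qim]; exact ⟨0, by simp, by simp⟩, z, hz, by simp⟩
      rw [h4, h5] at h3
      exact h3
    have hkpos := fs_card_pos K
    have hBK : (B + fs K).card = C.card * (fs K).card := by rw [card_add_fs, hcard]
    refine hmax K' ?_ ?_ ?_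
    · rw [hLK]
      nlinarith
    · rw [hBK', ← index_mul_card_fs K, ← hcq]
      exact Nat.mul_lt_mul_of_pos_right l2 hkpos
    · rw [hBK', hLK]
      rw [hBK] at hK1
      have h5 : ((C + fs L).card + 1) * (fs K).card ≤ (C.card + (fs L).card) * (fs K).card :=
        Nat.mul_le_mul_right _ l3
      nlinarith

theorem step {q m : ℕ} (hq : 2 ≤ q) (hm : q + 1 ≤ m) {B : Finset G} (hB : AGen B)
    (h1 : ms m B ≠ univ) (h2 : Fintype.card G < q * B.card) (h3 : stab (ms m B) = ⊥) :
    SC q m G ∨ ∃ (K : AddSubgroup G) (_ : Fintype (G ⧸ K)) (_ : DecidableEq (G ⧸ K)),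
      2 ≤ (fs K).card ∧ K.index < q * (qim K B).card ∧ ms m (qim K B) ≠ univ := by
  classical
  have hBpos : 0 < B.card := by
    rcases Nat.eq_zero_or_pos B.card with h | h
    · rw [h] at h2
      simp at h2
    · exact h
  have hBne : B.Nonempty := Finset.card_pos.mp hBpos
  have hG2 : 2 ≤ Fintype.card G := by
    by_contra hlt
    have hsub : Subsingleton G := Fintype.card_le_one_iff_subsingleton.mp (by omega)
    apply h1
    obtain ⟨z, hz⟩ := ms_nonempty hBne m
    ext w
    simp only [mem_univ, iff_true]
    rw [Subsingleton.elim w z]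
    exact hz
  rcases concl_or hq hm hB h1 h2 h3 with ⟨b, x, hx, hBx⟩ | ⟨K0, c1, c2, c3⟩
  · left
    have hB2 : 2 ≤ B.card := hB.two_le hG2
    have hidx : (⊥ : AddSubgroup G).index = Fintype.card G := by
      rw [AddSubgroup.index_bot, Nat.card_eq_fintype_card]
    refine ⟨⊥, B.card - 1, by omega, cycQ_of_zmultiples hx ⊥, ?_, Or.inl ?_⟩
    · rw [hidx, Nat.sub_add_cancel (by omega)]
      exact h2
    · rw [hidx]
      exact ap_ms hx hBx hBne h1
  · obtain ⟨K, ⟨k1, k2, k3⟩, hKmax⟩ := Set.exists_max_image
      {K : AddSubgroup G | 2 ≤ (fs K).card ∧ (B + fs K).card < Fintype.card G ∧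
        (B + fs K).card + 1 ≤ B.card + (fs K).card} (fun K => (fs K).card) (Set.toFinite _)
      ⟨K0, c1, c2, c3⟩
    have hmax : ∀ K' : AddSubgroup G, (fs K).card < (fs K').card →
        (B + fs K').card < Fintype.card G → ¬ (B + fs K').card + 1 ≤ B.card + (fs K').card := by
      intro K' e1 e2 e3
      have := hKmax K' ⟨by omega, e2, e3⟩
      omega
    let _ : Fintype (G ⧸ K) := Fintype.ofFinite _
    have hidx := index_mul_card_fs K
    have hBK := card_add_fs K B
    have hkpos := fs_card_pos K
    have hBle : B.card ≤ (B + fs K).card := by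
      apply Finset.card_le_card
      intro z hz
      rw [mem_add]
      exact ⟨z, hz, 0, by simp, by simp⟩
    have hd : K.index < q * (qim K B).card := by
      have h5 : K.index * (fs K).card < q * (qim K B).card * (fs K).card := by
        rw [hidx, mul_assoc, ← hBK]
        exact lt_of_lt_of_le h2 (Nat.mul_le_mul_left _ hBle)
      exact Nat.lt_of_mul_lt_mul_right h5
    by_cases hu : ms m (qim K B) = univ
    · left
      obtain ⟨b, hb, hU, P, hP0, hP, y, hy⟩ := poor_coset (by omega) k3 hu h1
      obtain ⟨hcyc, hml⟩ := cyclic_quot hq hm hB k3 hmax hd hu hb hU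
      have htd : (qim K B).card < K.index := by
        rw [hBK, ← hidx] at k2
        exact Nat.lt_of_mul_lt_mul_right k2
      have ht1 : 1 ≤ (qim K B).card := Finset.card_pos.mpr (qim_nonempty hBne)
      have ht2 : 2 ≤ (qim K B).card :=
        (hB.qim K).two_le (by rw [card_quot]; omega)
      obtain ⟨l, hl⟩ : ∃ l, (qim K B).card = l + 1 := ⟨(qim K B).card - 1, by omega⟩
      rw [hl] at hml hd
      rw [Nat.add_sub_cancel] at hml
      have hl1 : 1 ≤ l := by omega
      refine ⟨K, l, hl1, hcyc, hd, ?_⟩
      rcases Nat.lt_or_ge (m * l + 1) K.index with hlt | hge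
      · left
        omega
      · right
        have hdeq : m * l + 1 = K.index := le_antisymm hml hge
        refine ⟨hdeq, ?_⟩
        have hql : q * l + 2 ≤ K.index := by
          have : (q + 1) * l ≤ m * l := Nat.mul_le_mul_right _ hm
          have e : (q + 1) * l = q * l + l := by ring
          omega
        obtain ⟨r, hr⟩ : ∃ r, K.index = q * l + r := ⟨K.index - q * l, by omega⟩
        have hr2 : 2 ≤ r := by omega
        have hcardK : Fintype.card K = (fs K).card := by
          rw [fs_card_eq, Nat.card_eq_fintype_card]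
        have hmsP : ms m P ≠ univ := by
          intro h
          apply hy
          exact mem_ms.mp (h ▸ mem_univ y)
        have hpoor := card_le_poor b hb hP
        have hkey : r * Fintype.card K < q * P.card := by
          rw [hcardK]
          rw [hl] at hpoor
          have e1 : B.card ≤ l * (fs K).card + P.card := by
            have : (l + 1) * (fs K).card = l * (fs K).card + (fs K).card := by ring
            omega
          have e2 : q * B.card ≤ q * (l * (fs K).card + P.card) := Nat.mul_le_mul_left _ e1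
          have e3 : (q * l + r) * (fs K).card < q * B.card := by
            rw [← hr, hidx]
            exact h2
          nlinarith
        obtain ⟨e, e1, e2, e3⟩ := exists_e hm hr2 hP0 hmsP hkey
        refine ⟨e, e1, ?_, ?_⟩
        · rw [Nat.card_eq_fintype_card]
          exact e2
        · have : K.index - q * l = r := by omega
          rw [this]
          exact e3
    · right
      exact ⟨K, inferInstance, inferInstance, k1, hd, hu⟩

end

/-- **Lemma S.** -/
theorem lemmaS {q m : ℕ} (hq : 2 ≤ q) (hm : q + 1 ≤ m) : ∀ (N : ℕ) (G : Type)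
    [AddCommGroup G] [Fintype G] [DecidableEq G], Fintype.card G = N →
    ∀ B : Finset G, AGen B → Fintype.card G < q * B.card → ms m B ≠ univ → SC q m G := by
  intro N
  induction N using Nat.strong_induction_on with
  | _ N IH =>
    intro G _ _ _ hN B hB h2 h1
    have key : ∀ K : AddSubgroup G, ∀ (_ : Fintype (G ⧸ K)) (_ : DecidableEq (G ⧸ K)),
        2 ≤ (fs K).card → K.index < q * (qim K B).card → ms m (qim K B) ≠ univ → SC q m G := by
      intro K i1 i2 k1 k2 k3
      have hidx := index_mul_card_fs K
      have hcq : Fintype.card (G ⧸ K) = K.index := card_quot K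
      have hGpos : 0 < Fintype.card G := Fintype.card_pos
      have hlt : K.index < N := by
        rw [← hN, ← hidx]
        have : 0 < K.index := by
          rcases Nat.eq_zero_or_pos K.index with h | h
          · rw [h] at hidx
            omega
          · exact h
        nlinarith
      exact SC_of_quot K (IH K.index hlt (G ⧸ K) hcq (qim K B) (hB.qim K) (by rw [hcq]; exact k2) k3)
    by_cases hQ : stab (ms m B) = ⊥
    · rcases step hq hm hB h1 h2 hQ with h | ⟨K, i1, i2, k1, k2, k3⟩
      · exact h
      · exact key K i1 i2 k1 k2 k3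
    · classical
      set Q := stab (ms m B) with hQdef
      have hQ2 : 2 ≤ (fs Q).card := by
        rw [fs_card_eq]
        exact (AddSubgroup.one_lt_card_iff_ne_bot Q).mpr hQ
      let _ : Fintype (G ⧸ Q) := Fintype.ofFinite _
      refine key Q inferInstance inferInstance hQ2 ?_ ?_
      · have hidx := index_mul_card_fs Q
        have hBle : B.card ≤ (B + fs Q).card := by
          apply Finset.card_le_card
          intro z hz
          rw [mem_add]
          exact ⟨z, hz, 0, by simp, by simp⟩
        have h5 : Q.index * (fs Q).card < q * (qim Q B).card * (fs Q).card := by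
          rw [hidx, mul_assoc, ← card_add_fs]
          exact lt_of_lt_of_le h2 (Nat.mul_le_mul_left _ hBle)
        exact Nat.lt_of_mul_lt_mul_right h5
      · rw [← qim_ms]
        exact qim_ne_univ le_rfl h1

end Pool.Agent.HB
end

section

/-!
# TASK HB D3: periodicity of A' + A'; the last case of the upper bound

PROOF of `two_periodic`.  Let `w = |A' + fs H| - |A'|`, `2 w < |fs H|` (`A' ⊆ A' + fs H`).  For `x ∈ A'` the set
`T x = {g ∈ fs H : x + g ∈ A'}` has at least `|fs H| - w` elements (the elements `x + g`, `g ∈ fs H`, `g ∉ T x`, are different elements of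
`(A' + fs H) \ A'`).  Let `x, y ∈ A'`, `g ∈ H`.  `T x` and the reflected set `{g - k : k ∈ T y}` (contained in `fs H`, `|T y|` elements) have more than
`|fs H|` elements together, so they have a common element `u = g - k`: `x + u ∈ A'`, `y + k ∈ A'`, sum `x + y + g`.  So `g + z ∈ A' + A'` for all
`z ∈ A' + A' = ms 2 A'`; `mem_stab_of_add_subset`.

PROOF of `lastcase`.  `T` = the sum.  `B` is nonempty (`|Γ| ≥ 1`).  `H' = stab T`, `N' = H'.index ≥ 2` (`stab_ne_top`, `AddSubgroup.index_eq_one`),
`a' = |qim H' B| ≥ 1`.  `|B| ≤ |B + fs H'| = a' |fs H'|` and `N' |fs H'| = |Γ| = |B| q`, so `N' ≤ a' q`.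
`kneser_quot` for the family: `∑_{i < m} (|qim H' B_i| - 1) + 1 ≤ |qim H' T| ≤ N' - 1` (`qim_card_lt_index`).
* `N' < a' q`: `lemmaS` for the group `Γ ⧸ H'` and `qim H' B` (`AGen.qim`, `card_quot`); `ms m (qim H' B) = qim H' (ms m B) ⊆ qim H' T ≠ univ`
  (`qim_ms`, `ms m B ⊆ T` termwise (`Finset.sum_subset_sum` or induction), `qim_ne_univ`).  `SC_of_quot`.
* `N' = a' q`: then `|B| = a' |fs H'| = |B + fs H'|`, so `B + fs H' = B`.  For `i < m - 2` the class of `e i` is not in `qim H' B` (otherwise
  `e i ∈ B + fs H' = B`), so `|qim H' (insert (e i) B)| = a' + 1`.  The sum is `(m - 2) a' + 2 (a' - 1)`, so `m a' - 2 + 1 ≤ N' - 1 = a' q - 1`, `m a' ≤ q a'`,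
  impossible.
-/

set_option autoImplicit false

open Finset
open scoped Pointwise

namespace Pool.Agent.HB

open Pool.Agent.Kneser

private theorem d3_T {G : Type*} [AddCommGroup G] [Fintype G] [DecidableEq G] (A' : Finset G)
    (H : AddSubgroup G) {x : G} (hx : x ∈ A') :
    (fs H).card + A'.card ≤ ((fs H).filter fun g => x + g ∈ A').card + (A' + fs H).card := by
  have hsub : A' ⊆ A' + fs H := by
    intro y hy
    rw [mem_add]
    exact ⟨y, hy, 0, by simp, by simp⟩
  have h1 : ((fs H).filter fun g => ¬ x + g ∈ A').card ≤ ((A' + fs H) \ A').card := by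
    refine Finset.card_le_card_of_injOn (fun g => x + g) ?_ ?_
    · intro g hg
      have hg' := hg
      rw [Finset.mem_coe, mem_filter] at hg'
      rw [Finset.mem_coe, mem_sdiff]
      exact ⟨add_mem_add hx hg'.1, hg'.2⟩
    · intro a _ b _ hab
      exact add_left_cancel hab
  have h2 := Finset.card_filter_add_card_filter_not (s := fs H) (fun g => x + g ∈ A')
  have h3 := Finset.card_sdiff_add_card_eq_card hsub
  omega

theorem two_periodic {G : Type*} [AddCommGroup G] [Fintype G] [DecidableEq G] {A' : Finset G}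
    {H : AddSubgroup G} (hH : 2 * (A' + fs H).card < 2 * A'.card + (fs H).card) :
    H ≤ stab (ms 2 A') := by
  have e2 : ms 2 A' = A' + A' := by
    rw [ms_succ 1 A', ms_one]
  intro g hg
  apply mem_stab_of_add_subset
  intro z hz
  rw [e2, mem_add] at hz
  obtain ⟨x, hx, y, hy, rfl⟩ := hz
  have tx := d3_T A' H hx
  have ty := d3_T A' H hy
  set U := (fs H).filter fun g => x + g ∈ A' with hU
  set V := (fs H).filter fun g => y + g ∈ A' with hV
  have hVc : (V.image fun k => g - k).card = V.card := by
    apply Finset.card_image_of_injective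
    intro a b hab
    exact sub_right_injective hab
  have hne : (U ∩ V.image fun k => g - k).Nonempty := by
    refine Finset.inter_nonempty_of_card_lt_card_add_card (s := fs H) ?_ ?_ ?_
    · exact Finset.filter_subset _ _
    · intro k hk
      rw [mem_image] at hk
      obtain ⟨k', hk', rfl⟩ := hk
      rw [hV, mem_filter] at hk'
      rw [mem_fs]
      exact H.sub_mem hg (mem_fs.1 hk'.1)
    · rw [hVc]; omega
  obtain ⟨u, hu⟩ := hne
  rw [mem_inter, mem_image] at hu
  obtain ⟨hu1, k, hk, hku⟩ := hu
  rw [hU, mem_filter] at hu1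
  rw [hV, mem_filter] at hk
  rw [e2, mem_add]
  refine ⟨x + u, hu1.2, y + k, hk.2, ?_⟩
  rw [← hku]
  abel

private theorem d3_ms_sub {Γ : Type} [AddCommGroup Γ] [DecidableEq Γ] (B : Finset Γ)
    (S : ℕ → Finset Γ) (hS : ∀ i, B ⊆ S i) (m : ℕ) : ms m B ⊆ ∑ i ∈ range m, S i := by
  induction m with
  | zero => rw [ms_zero]; simp
  | succ m ih =>
    rw [ms_succ, Finset.sum_range_succ]
    exact Finset.add_subset_add ih (hS m)

theorem lastcase {Γ : Type} [AddCommGroup Γ] [Fintype Γ] [DecidableEq Γ] {q m : ℕ} (hq : 2 ≤ q)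
    (hm : q + 1 ≤ m) {B : Finset Γ} (hB : AGen B) (hBq : B.card * q = Fintype.card Γ)
    (e : ℕ → Γ) (he : ∀ i < m - 2, e i ∉ B)
    (hno : ∑ i ∈ range m, (if i < m - 2 then insert (e i) B else B) ≠ univ) : SC q m Γ := by
  classical
  have hΓ : 0 < Fintype.card Γ := Fintype.card_pos
  have hBpos : 0 < B.card := by
    rcases Nat.eq_zero_or_pos B.card with h | h
    · rw [h, zero_mul] at hBq; omega
    · exact h
  have hBne : B.Nonempty := Finset.card_pos.1 hBpos
  set S : ℕ → Finset Γ := fun i => if i < m - 2 then insert (e i) B else B with hSdef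
  have hBS : ∀ i, B ⊆ S i := by
    intro i
    simp only [hSdef]
    split_ifs
    · exact Finset.subset_insert _ _
    · exact Finset.Subset.refl _
  have hSne : ∀ i ∈ range m, (S i).Nonempty := fun i _ => hBne.mono (hBS i)
  set T := ∑ i ∈ range m, S i with hT
  set H := stab T with hH
  have hTn : T.Nonempty := sum_nonempty _ _ hSne
  have hHtop : H ≠ ⊤ := stab_ne_top T hno hTn
  have hidx : 2 ≤ H.index := by
    have h1 : H.index ≠ 1 := fun h => hHtop (AddSubgroup.index_eq_one.1 h)
    have h0 : H.index ≠ 0 := AddSubgroup.FiniteIndex.index_ne_zero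
    omega
  have hk := kneser_quot (range m) S hSne
  rw [← hT, ← hH] at hk
  have hlt := qim_card_lt_index T hno
  rw [← hH] at hlt
  have hcard := card_add_fs H B
  have hix := index_mul_card_fs H
  have hfp := fs_card_pos H
  have ha : 1 ≤ (qim H B).card := Finset.card_pos.2 (qim_nonempty hBne)
  have hBsub : B ⊆ B + fs H := by
    intro y hy
    rw [mem_add]
    exact ⟨y, hy, 0, by simp, by simp⟩
  have hBle := Finset.card_le_card hBsub
  set a := (qim H B).card with hadef
  set f := (fs H).card with hfdef
  have hNle : H.index ≤ a * q := by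
    have : H.index * f ≤ a * q * f := by
      rw [hix, ← hBq]
      calc B.card * q ≤ (a * f) * q := Nat.mul_le_mul_right _ (by rw [← hcard]; exact hBle)
        _ = a * q * f := by ring
    exact Nat.le_of_mul_le_mul_right this hfp
  rcases Nat.lt_or_ge H.index (a * q) with hlt' | hge
  · -- Lemma S in the quotient
    have : Fintype (Γ ⧸ H) := Fintype.ofFinite _
    apply SC_of_quot H
    refine lemmaS hq hm (Fintype.card (Γ ⧸ H)) (Γ ⧸ H) rfl (qim H B) (hB.qim H) ?_ ?_
    · rw [card_quot H]
      rw [← hadef]
      rw [mul_comm q a]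
      exact hlt'
    · rw [← qim_ms H m B]
      intro hu
      apply qim_ne_univ (T := T) (K := H) le_rfl hno
      apply Finset.eq_univ_of_forall
      intro x
      have hx : x ∈ qim H (ms m B) := by rw [hu]; exact Finset.mem_univ _
      rw [mem_qim] at hx ⊢
      obtain ⟨b, hb, hbx⟩ := hx
      exact ⟨b, d3_ms_sub B S hBS m hb, hbx⟩
  · exfalso
    have hN : H.index = a * q := le_antisymm hNle hge
    have hBf : B.card = a * f := by
      have : B.card * q = a * f * q := by
        rw [hBq, ← hix, hN]; ring
      exact Nat.eq_of_mul_eq_mul_right (by omega) this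
    have hBper : B = B + fs H := by
      apply Finset.eq_of_subset_of_card_le hBsub
      rw [hcard, hBf]
    have hcls : ∀ i, i < m - 2 → (qim H (insert (e i) B)).card = a + 1 := by
      intro i hi
      have hnot : ((e i : Γ) : Γ ⧸ H) ∉ qim H B := by
        intro hmem
        rw [mem_qim] at hmem
        obtain ⟨b, hb, hbe⟩ := hmem
        apply he i hi
        rw [hBper, mem_add]
        refine ⟨b, hb, -b + e i, ?_, by abel⟩
        rw [mem_fs]
        exact QuotientAddGroup.eq.1 hbe
      have hins : qim H (insert (e i) B) = insert ((e i : Γ) : Γ ⧸ H) (qim H B) := by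
        ext x
        rw [mem_qim, mem_insert, mem_qim]
        constructor
        · rintro ⟨c, hc, hcx⟩
          rcases Finset.mem_insert.1 hc with rfl | hc
          · exact Or.inl hcx.symm
          · exact Or.inr ⟨c, hc, hcx⟩
        · rintro (hx | ⟨c, hc, hcx⟩)
          · exact ⟨e i, Finset.mem_insert_self _ _, hx.symm⟩
          · exact ⟨c, Finset.mem_insert_of_mem hc, hcx⟩
      rw [hins, Finset.card_insert_of_notMem hnot]
    have hm2 : m = (m - 2) + 1 + 1 := by omega
    have hsum : ∑ i ∈ range m, ((qim H (S i)).card - 1) = (m - 2) * a + 2 * (a - 1) := by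
      have hr : range m = range ((m - 2) + 1 + 1) := by rw [← hm2]
      rw [hr, Finset.sum_range_succ, Finset.sum_range_succ]
      have h1 : ∑ i ∈ range (m - 2), ((qim H (S i)).card - 1) = (m - 2) * a := by
        rw [Finset.sum_const_nat (m := a), Finset.card_range]
        intro i hi
        have hi' := Finset.mem_range.1 hi
        have : S i = insert (e i) B := by simp only [hSdef]; rw [if_pos hi']
        rw [this, hcls i hi']
        omega
      have h2 : S (m - 2) = B := by simp only [hSdef]; rw [if_neg (by omega)]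
      have h3 : S (m - 2 + 1) = B := by simp only [hSdef]; rw [if_neg (by omega)]
      rw [h1, h2, h3]
      omega
    rw [hsum] at hk
    have h5 : (m - 2) * a + 2 * a = m * a := by
      rw [← add_mul]; congr 1; omega
    have h6 : (q + 1) * a ≤ m * a := Nat.mul_le_mul_right _ hm
    have h7 : (q + 1) * a = a * q + a := by ring
    omega

end Pool.Agent.HB
end
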