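import Pool.Agent.Lib.MP_249d2a_co.Mg.G002
import Pool.Agent.Lib.MP_249d2a_co.Mg.G004
import Pool.Agent.Lib.MP_249d2a_co.Mg.G001
import Pool.Agent.Lib.MP_249d2a_co.Mg.G006

section

/-!
# TASK HB D4: from the hypotheses of the upper bound to a cyclic quotient

PROOF of `sum_ne_univ`.  `s = ∑ A`.  If the sum is `univ`, the class of `s` is in it: (`Finset.mem_sum`) there are `c i` (`i < m`) with sum `mk s`,
`c i ∈ insert (mk (e i)) (qim H A')` for `i < m - 2` and `c i ∈ qim H A'` for the others.  `I = {i < m - 2 : c i ∉ qim H A'}`, `c i = mk (e i)` for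
`i ∈ I`; `j = m - |I| ≥ 2`.  `∑_{i ∈ range m \ I} c i ∈ ms j (qim H A') = qim H (ms j A')` (`mem_ms`, `qim_ms`), i.e. the class of `s - ∑_{i ∈ I} e i` is in
`qim H (ms j A')`.  `H ≤ stab (ms 2 A') ≤ stab (ms j A')` (`stab_ms_mono`), so `s - ∑_I e i ∈ ms j A'` (`mem_of_mk_mem_qim`).  `lemmaR2` with
`U = I.image e` (`|U| = |I|`, `U ⊆ A`, disjoint from `A' ⊆ A' + fs H`): `RS m A s`, contradiction to `no`.

PROOF of `SC_of_upp`.  `agen_of_upp`, `numbers_of_upp`.  `H = stab (ms m A')`, `N = H.index`, `h = |fs H|`, `N h = q n`, `a = |qim H A'| ≥ 1`.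
`kneser_quot` (family `range m`, `ms m A'` is that sum by definition) and `qim_card_lt_index`: `m (a - 1) + 2 ≤ N`.
`num1` with `N0 = 1`, `c = |A'| ≤ |A' + fs H| = a h`: `N ≤ a q`, `N ≤ 4 q ^ 2`.
* `N < a q`: `lemmaS` for `G ⧸ H`, `qim H A'`; `qim_ms`, `qim_ne_univ`; `SC_of_quot`.
* `N = a q`: `a h = n` (`a q h = N h = q n`).  `big` gives `8 q ^ 3 (n - |A'|) ≤ n`, and `q n = N h ≤ 4 q ^ 2 h` gives `n ≤ 4 q h`, so
  `2 q ^ 2 (n - |A'|) ≤ h`, hence `2 (n - |A'|) < h`: `two_periodic` (`|A' + fs H| = n`).  `A \ (A' + fs H)` has at least `n + m - n = m`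
  elements: choose `e : ℕ → G`, injective on `i < m - 2`, with values there.  `mk (e i) ∉ qim H A'` since `e i ∉ A' + fs H`.
  `lastcase` for `Γ = G ⧸ H`, `B = qim H A'`, the function `i ↦ mk (e i)`, and `sum_ne_univ`; `SC_of_quot`.
-/

set_option autoImplicit false

open Finset
open scoped Pointwise

namespace Pool.Agent.HB

open Pool.Agent.Kneser

private theorem D4_mem_sum {α : Type*} [AddCommMonoid α] [DecidableEq α] (t : Finset ℕ) (f : ℕ → Finset α) :
    ∀ a ∈ ∑ i ∈ t, f i, ∃ g : ℕ → α, (∀ i ∈ t, g i ∈ f i) ∧ ∑ i ∈ t, g i = a := by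
  induction t using Finset.induction_on with
  | empty =>
    intro a ha
    rw [Finset.sum_empty, Finset.mem_zero] at ha
    exact ⟨fun _ => 0, by simp, by simp [ha]⟩
  | insert b t hb ih =>
    intro a ha
    rw [Finset.sum_insert hb, Finset.mem_add] at ha
    obtain ⟨y, hy, z, hz, rfl⟩ := ha
    obtain ⟨g, hg, hgz⟩ := ih z hz
    have hne : ∀ i ∈ t, i ≠ b := fun i hi hib => hb (hib ▸ hi)
    refine ⟨fun i => if i = b then y else g i, ?_, ?_⟩
    · intro i hi
      rcases Finset.mem_insert.1 hi with rfl | hi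
      · simpa using hy
      · simpa [hne i hi] using hg i hi
    · rw [Finset.sum_insert hb, if_pos rfl, ← hgz]
      congr 1
      exact Finset.sum_congr rfl fun i hi => by rw [if_neg (hne i hi)]

theorem sum_ne_univ {G : Type*} [AddCommGroup G] [Fintype G] [DecidableEq G] {q n m : ℕ}
    {A A' : Finset G} (h : Upp q n m A A') {H : AddSubgroup G} [Fintype (G ⧸ H)]
    [DecidableEq (G ⧸ H)] (hH : H ≤ stab (ms 2 A')) (e : ℕ → G) (he : ∀ i < m - 2, e i ∈ A)
    (he' : ∀ i < m - 2, e i ∉ A' + fs H)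
    (hinj : ∀ i < m - 2, ∀ j < m - 2, e i = e j → i = j) :
    ∑ i ∈ range m, (if i < m - 2 then insert (QuotientAddGroup.mk (e i) : G ⧸ H) (qim H A')
      else qim H A') ≠ univ := by
  classical
  intro htop
  set s : G := ∑ x ∈ A, x with hs
  have hmem : (QuotientAddGroup.mk s : G ⧸ H) ∈ ∑ i ∈ range m,
      (if i < m - 2 then insert (QuotientAddGroup.mk (e i) : G ⧸ H) (qim H A') else qim H A') := by
    rw [htop]
    exact Finset.mem_univ _
  obtain ⟨c, hc, hcs⟩ := D4_mem_sum _ _ _ hmem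
  set I : Finset ℕ := (range m).filter fun i => i < m - 2 ∧ c i ∉ qim H A' with hI
  have hm1 := h.m1
  have hq4 := h.q4
  have hI' : ∀ i ∈ I, i < m - 2 ∧ c i ∉ qim H A' := fun i hi => (Finset.mem_filter.1 hi).2
  have hIe : ∀ i ∈ I, c i = (QuotientAddGroup.mk (e i) : G ⧸ H) := by
    intro i hi
    have h1 := hc i (Finset.mem_filter.1 hi).1
    rw [if_pos (hI' i hi).1, Finset.mem_insert] at h1
    exact h1.resolve_right (hI' i hi).2
  have hcard : I.card ≤ m - 2 := by
    calc I.card ≤ (range (m - 2)).card := Finset.card_le_card fun i hi => Finset.mem_range.2 (hI' i hi).1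
      _ = m - 2 := Finset.card_range _
  set R : Finset ℕ := range m \ I with hR
  have hRc : R.card = m - I.card := by
    rw [hR, Finset.card_sdiff_of_subset (Finset.filter_subset _ _), Finset.card_range]
  have hRq : ∀ i ∈ R, ∃ a ∈ A', (QuotientAddGroup.mk a : G ⧸ H) = c i := by
    intro i hi
    rw [← mem_qim]
    have h1 := Finset.mem_sdiff.1 hi
    have h2 := hc i h1.1
    by_cases h3 : i < m - 2
    · by_contra h4
      exact h1.2 (Finset.mem_filter.2 ⟨h1.1, h3, h4⟩)
    · rwa [if_neg h3] at h2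
  choose! a ha hac using hRq
  have hms : ∑ i ∈ R, a i ∈ ms R.card A' := by
    rw [mem_ms]
    refine ⟨R.val.map a, by simp, ?_, rfl⟩
    intro y hy
    rw [Multiset.mem_map] at hy
    obtain ⟨i, hi, rfl⟩ := hy
    exact ha i hi
  have hstab : H ≤ stab (ms R.card A') := hH.trans (stab_ms_mono A' (by omega))
  have hsum : (QuotientAddGroup.mk (s - ∑ i ∈ I, e i) : G ⧸ H) = QuotientAddGroup.mk (∑ i ∈ R, a i) := by
    have h1 : (QuotientAddGroup.mk (∑ i ∈ I, e i) : G ⧸ H) = ∑ i ∈ I, c i := by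
      rw [← QuotientAddGroup.mk'_apply, map_sum]
      exact Finset.sum_congr rfl fun i hi => (hIe i hi).symm
    have h2 : (QuotientAddGroup.mk (∑ i ∈ R, a i) : G ⧸ H) = ∑ i ∈ R, c i := by
      rw [← QuotientAddGroup.mk'_apply, map_sum]
      exact Finset.sum_congr rfl fun i hi => hac i hi
    have h3 : ∑ i ∈ R, c i + ∑ i ∈ I, c i = ∑ i ∈ range m, c i :=
      Finset.sum_sdiff (Finset.filter_subset _ _)
    rw [QuotientAddGroup.mk_sub, h1, h2, ← hcs, ← h3, add_sub_cancel_right]
  have hin : s - ∑ i ∈ I, e i ∈ ms R.card A' := by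
    refine mem_of_mk_mem_qim hstab ?_
    rw [mem_qim]
    exact ⟨_, hms, hsum.symm⟩
  have hinj' : Set.InjOn e I := by
    intro i hi j hj hij
    exact hinj i (hI' i hi).1 j (hI' j hj).1 hij
  have hUA : I.image e ⊆ A := by
    intro x hx
    obtain ⟨i, hi, rfl⟩ := Finset.mem_image.1 hx
    exact he i (hI' i hi).1
  have hUd : Disjoint (I.image e) A' := by
    rw [Finset.disjoint_left]
    intro x hx hx'
    obtain ⟨i, hi, rfl⟩ := Finset.mem_image.1 hx
    refine he' i (hI' i hi).1 ?_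
    rw [Finset.mem_add]
    exact ⟨_, hx', 0, by simp, add_zero _⟩
  have hUc : (I.image e).card = I.card := Finset.card_image_of_injOn hinj'
  have hfin := lemmaR2 h.sub h.rep h.dbl hUA hUd (m := m) (j := R.card) (by rw [hUc, hRc]; omega) hin
  rw [Finset.sum_image hinj', add_sub_cancel] at hfin
  exact h.no hfin

theorem SC_of_upp {G : Type} [AddCommGroup G] [Fintype G] [DecidableEq G] {q n m : ℕ}
    {A A' : Finset G} (h : Upp q n m A A') : SC q m G := by
  classical
  obtain ⟨hne, hnu⟩ := numbers_of_upp h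
  have hag := agen_of_upp h
  set H : AddSubgroup G := stab (ms m A') with hHdef
  have hq4 := h.q4
  have hn1 := h.n1
  have hm1 := h.m1
  have hm2 := h.m2
  have hfs := fs_card_pos H
  have hidx : H.index * (fs H).card = q * n := by rw [index_mul_card_fs, h.cardG]
  have ha1 : 1 ≤ (qim H A').card := Finset.card_pos.2 (qim_nonempty hne)
  have hK : m * ((qim H A').card - 1) + 2 ≤ H.index := by
    have h1 := kneser_quot (range m) (fun _ => A') (fun _ _ => hne)
    have h2 : (qim H (ms m A')).card + 1 ≤ H.index := qim_card_lt_index (ms m A') hnu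
    have h3 : ∑ i ∈ range m, ((qim H A').card - 1) + 1 ≤ (qim H (ms m A')).card := h1
    rw [Finset.sum_const, Finset.card_range, smul_eq_mul] at h3
    omega
  have hsubfs : A' ⊆ A' + fs H := by
    intro x hx
    rw [Finset.mem_add]
    exact ⟨x, hx, 0, by simp, add_zero _⟩
  have hcfs : (A' + fs H).card = (qim H A').card * (fs H).card := card_add_fs H A'
  have hc : A'.card ≤ (qim H A').card * (fs H).card := by
    rw [← hcfs]
    exact Finset.card_le_card hsubfs
  obtain ⟨hN1, hN2⟩ := num1 (N0 := 1) (N := H.index) (h := (fs H).card) (a := (qim H A').card) (m := m)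
    (c := A'.card) hq4 hn1 (by rw [one_mul]; exact hidx) (by omega) hc h.big hK ha1 (by omega) hm2
  rw [one_mul] at hN1
  have hfin : Fintype (G ⧸ H) := Fintype.ofFinite _
  have hcq : Fintype.card (G ⧸ H) = H.index := card_quot H
  refine SC_of_quot H ?_
  rcases hN1.lt_or_eq with hlt | heq
  · refine lemmaS (q := q) (m := m) (by omega) hm1 (Fintype.card (G ⧸ H)) (G ⧸ H) rfl (qim H A')
      (hag.qim H) ?_ ?_
    · rw [hcq, mul_comm q]
      exact hlt
    · rw [← qim_ms]
      exact qim_ne_univ le_rfl hnu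
  · have hah : (qim H A').card * (fs H).card = n := by
      have h1 : q * ((qim H A').card * (fs H).card) = q * n := by
        rw [← hidx, heq]
        ring
      exact Nat.eq_of_mul_eq_mul_left (by omega) h1
    have hper : 2 * (A' + fs H).card < 2 * A'.card + (fs H).card := by
      rw [hcfs, hah]
      have hle : A'.card ≤ n := by rw [← hah]; exact hc
      obtain ⟨w, hw⟩ := Nat.exists_eq_add_of_le hle
      have hbig := h.big
      have h8 : 1 ≤ 8 * q ^ 3 := by
        have : 0 < q ^ 3 := by positivity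
        omega
      obtain ⟨Q, hQ⟩ := Nat.exists_eq_add_of_le h8
      have h3 : 8 * q ^ 3 * w ≤ n := by
        rw [hQ] at hbig ⊢
        rw [show 1 + Q - 1 = Q by omega] at hbig
        rw [hw] at hbig ⊢
        nlinarith
      have h4 : q * n ≤ 4 * q ^ 2 * (fs H).card := by
        rw [← hidx]
        exact Nat.mul_le_mul_right _ hN2
      have hq0 : 0 < q := by omega
      have h5 : n ≤ 4 * q * (fs H).card := by
        have : q * n ≤ q * (4 * q * (fs H).card) := by
          calc q * n ≤ 4 * q ^ 2 * (fs H).card := h4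
            _ = q * (4 * q * (fs H).card) := by ring
        exact Nat.le_of_mul_le_mul_left this hq0
      have h6 : 4 * q * (2 * q ^ 2 * w) ≤ 4 * q * (fs H).card := by
        calc 4 * q * (2 * q ^ 2 * w) = 8 * q ^ 3 * w := by ring
          _ ≤ n := h3
          _ ≤ _ := h5
      have h7 : 2 * q ^ 2 * w ≤ (fs H).card := Nat.le_of_mul_le_mul_left h6 (by positivity)
      have h8' : 2 * w < (fs H).card := by
        rcases Nat.eq_zero_or_pos w with h0 | h0
        · rw [h0]; omega
        · have : 2 * w < 2 * q ^ 2 * w := by nlinarith [Nat.mul_le_mul hq4 hq4]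
          omega
      omega
    have hH2 : H ≤ stab (ms 2 A') := two_periodic hper
    have hD : m ≤ (A \ (A' + fs H)).card := by
      have h1 := Finset.le_card_sdiff (A' + fs H) A
      rw [hcfs, hah, h.cardA] at h1
      omega
    obtain ⟨e, he1, he2⟩ : ∃ e : ℕ → G, (∀ i < m, e i ∈ A \ (A' + fs H)) ∧
        ∀ i < m, ∀ j < m, e i = e j → i = j := by
      refine ⟨fun i => if hi : i < (A \ (A' + fs H)).card then
        (((A \ (A' + fs H)).equivFin.symm ⟨i, hi⟩ : {x // x ∈ A \ (A' + fs H)}) : G) else 0, ?_, ?_⟩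
      · intro i hi
        simp only [dif_pos (lt_of_lt_of_le hi hD)]
        exact ((A \ (A' + fs H)).equivFin.symm ⟨i, _⟩).2
      · intro i hi j hj hij
        simp only [dif_pos (lt_of_lt_of_le hi hD), dif_pos (lt_of_lt_of_le hj hD)] at hij
        have h1 := (A \ (A' + fs H)).equivFin.symm.injective (Subtype.ext hij)
        exact congrArg Fin.val h1
    have heA : ∀ i < m - 2, e i ∈ A := fun i hi => (Finset.mem_sdiff.1 (he1 i (by omega))).1
    have heA' : ∀ i < m - 2, e i ∉ A' + fs H := fun i hi => (Finset.mem_sdiff.1 (he1 i (by omega))).2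
    refine lastcase (q := q) (m := m) (by omega) hm1 (hag.qim H) (by rw [hcq, heq])
      (fun i => (QuotientAddGroup.mk (e i) : G ⧸ H)) ?_
      (sum_ne_univ h hH2 e heA heA' fun i hi j hj => he2 i (by omega) j (by omega))
    intro i hi hmem
    rw [mem_qim] at hmem
    obtain ⟨x, hx, hxe⟩ := hmem
    refine heA' i hi ?_
    rw [Finset.mem_add]
    refine ⟨x, hx, -x + e i, ?_, by abel⟩
    rw [mem_fs]
    exact QuotientAddGroup.eq.1 hxe

end Pool.Agent.HB
end

section

/-!
# TASK HB D6: the upper bound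

PROOF of `upper`.  `K = 4 q + 4`, `M = 8 q ^ 4`, `C` from `lemmaR K M` (and `C ≥ 1`).  Let `n ≥ C`, `G = ZMod q × ZMod n`, `|G| = q n ≥ n`.
`E = Ex K A`, `A' = A \ E`.  `rep`: `a ∈ A'` has more than `K ≥ 4 + 2 m` representations.  `big`: `|A'| ≥ n + m - |E|` and
`|E| 8 q ^ 4 ≤ q n`, so `8 q ^ 3 |E| ≤ n`, `8 q ^ 3 |A'| ≥ 8 q ^ 3 (n + m) - n ≥ (8 q ^ 3 - 1) n`.
`dbl`: `card_double_le`.  `exp`: `n • (x, y) = (n • x, n • y) = 0` as `q ∣ n`.  Then `SC_of_upp` and `dset_of_SC`.
-/

set_option autoImplicit false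

open Finset

namespace Pool.Agent.HB

private theorem D6_exp {q n : ℕ} (hqn : q ∣ n) (x : ZMod q × ZMod n) : n • x = 0 := by
  obtain ⟨a, b⟩ := x
  have h1 : (n : ZMod q) = 0 := (ZMod.natCast_eq_zero_iff n q).2 hqn
  have h2 : (n : ZMod n) = 0 := ZMod.natCast_self n
  ext
  · show n • a = 0
    rw [nsmul_eq_mul, h1, zero_mul]
  · show n • b = 0
    rw [nsmul_eq_mul, h2, zero_mul]

theorem upper {q : ℕ} (hq : 4 ≤ q) : ∃ C : ℕ, ∀ (n : ℕ) [NeZero q] [NeZero n], C ≤ n → q ∣ n →
    ∀ m, q + 1 ≤ m → m ≤ 2 * q → ∀ A : Finset (ZMod q × ZMod n), A.card = n + m →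
      ¬ RS m A (∑ x ∈ A, x) → ∃ d ∈ Dset q n, m ≤ fv q d := by
  obtain ⟨C, hC⟩ := lemmaR (4 * q + 4) (8 * q ^ 4)
  refine ⟨max C 1, ?_⟩
  intro n _ _ hn hqn m hm1 hm2 A hA hno
  have hcard : Fintype.card (ZMod q × ZMod n) = q * n := by
    rw [Fintype.card_prod, ZMod.card, ZMod.card]
  have hn1 : 1 ≤ n := (le_max_right C 1).trans hn
  have hnC : C ≤ Fintype.card (ZMod q × ZMod n) := by
    rw [hcard]
    calc C ≤ n := (le_max_left C 1).trans hn
      _ = 1 * n := (one_mul n).symm
      _ ≤ q * n := Nat.mul_le_mul_right n (by omega)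
  have hE := hC (ZMod q × ZMod n) hnC A
  rw [hcard] at hE
  have hEA : Ex (4 * q + 4) A ⊆ A := filter_subset _ _
  have hUpp : Upp q n m A (A \ Ex (4 * q + 4) A) :=
    { q4 := hq
      n1 := hn1
      cardG := hcard
      exp := D6_exp hqn
      dbl := card_double_le
      m1 := hm1
      m2 := hm2
      cardA := hA
      sub := sdiff_subset
      rep := by
        intro a ha
        rw [mem_sdiff] at ha
        have h1 : ¬ ((A ×ˢ A).filter fun p => p.1 + p.2 = a + a).card ≤ 4 * q + 4 := by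
          intro h2
          exact ha.2 (mem_filter.2 ⟨ha.1, h2⟩)
        omega
      big := by
        have h1 : (A \ Ex (4 * q + 4) A).card + (Ex (4 * q + 4) A).card = n + m := by
          rw [card_sdiff_add_card_eq_card hEA, hA]
        have h2 : 8 * q ^ 3 * (Ex (4 * q + 4) A).card ≤ n := by
          have h3 : q * (8 * q ^ 3 * (Ex (4 * q + 4) A).card) ≤ q * n := by
            calc q * (8 * q ^ 3 * (Ex (4 * q + 4) A).card) = (Ex (4 * q + 4) A).card * (8 * q ^ 4) := by ring
              _ ≤ q * n := hE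
          exact Nat.le_of_mul_le_mul_left h3 (by omega)
        have h4 : 8 * q ^ 3 * (A \ Ex (4 * q + 4) A).card + 8 * q ^ 3 * (Ex (4 * q + 4) A).card =
            8 * q ^ 3 * (n + m) := by
          rw [← mul_add, h1]
        have h5 : 8 * q ^ 3 * n ≤ 8 * q ^ 3 * (n + m) := Nat.mul_le_mul_left _ (by omega)
        rw [Nat.sub_mul, one_mul]
        omega
      no := hno }
  exact dset_of_SC hq hqn hm1 (SC_of_upp hUpp)

end Pool.Agent.HB
end
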